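import Pool.Agent.H69L.Cut2
import Pool.Agent.H56.EH.Def2

/-!
ELSS, module ABS, part 1: the words of a halving sequence.
-/

set_option autoImplicit false
set_option linter.unusedSectionVars false

namespace Pool.Agent.H69L

open Finset Pool.Agent.H56.EH

/-- The times attached to a tuple: `0, x 0, x 1, …`. -/
def tau {k : ℕ} (x : Fin k → ℕ) (i : ℕ) : ℕ :=
  if h : 0 < i ∧ i - 1 < k then x ⟨i - 1, h.2⟩ else 0

lemma tau_zero {k : ℕ} (x : Fin k → ℕ) : tau x 0 = 0 := by simp [tau]

lemma tau_succ {k : ℕ} (x : Fin k → ℕ) {i : ℕ} (hi : i < k) : tau x (i + 1) = x ⟨i, hi⟩ := by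
  simp [tau, hi]

lemma tau_le {k T : ℕ} {x : Fin k → ℕ} (hx : ∀ i, x i ≤ T) (i : ℕ) : tau x i ≤ T := by
  unfold tau
  split_ifs
  · exact hx _
  · exact Nat.zero_le _

lemma tau_mono {k : ℕ} {x : Fin k → ℕ} (hx : Monotone x) {i j : ℕ} (hij : i ≤ j) (hj : j < k + 1) :
    tau x i ≤ tau x j := by
  rcases Nat.eq_zero_or_pos i with h | h
  · rw [h, tau_zero]
    exact Nat.zero_le _
  · obtain ⟨i', rfl⟩ : ∃ i', i = i' + 1 := ⟨i - 1, by omega⟩
    obtain ⟨j', rfl⟩ : ∃ j', j = j' + 1 := ⟨j - 1, by omega⟩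
    rw [tau_succ x (by omega : i' < k), tau_succ x (by omega : j' < k)]
    exact hx (by
      rw [Fin.mk_le_mk]
      omega)

variable {P : Type} [Fintype P] [DecidableEq P] {S : ℕ → Finset P} {k T : ℕ}

/-- The word of the point `v`. -/
def word (L : ℕ) (S : ℕ → Finset P) (x : Fin k → ℕ) (v : P) (i : ZMod (2 * L)) : Bool :=
  if i.val < L then decide (v ∈ S (tau x i.val)) else !decide (v ∈ S (tau x (i.val - L)))

variable {L : ℕ} [NeZero L]

lemma val_add_L (i : ZMod (2 * L)) : (i + (L : ZMod (2 * L))).val =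
    if i.val < L then i.val + L else i.val - L := by
  have hLpos : 0 < L := Nat.pos_of_ne_zero (NeZero.ne L)
  have h1 : ((L : ZMod (2 * L))).val = L := ZMod.val_natCast_of_lt (by omega)
  have h2 := ZMod.val_lt i
  rw [ZMod.val_add, h1]
  split_ifs with h
  · exact Nat.mod_eq_of_lt (by omega)
  · rw [Nat.mod_eq_sub_mod (by omega), Nat.mod_eq_of_lt (by omega)]
    omega

lemma word_anti (S : ℕ → Finset P) (x : Fin k → ℕ) (v : P) : H69L.Anti (word L S x v) := by
  intro i
  have h2 := ZMod.val_lt i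
  unfold word
  rw [val_add_L]
  by_cases h : i.val < L
  · rw [if_pos h, if_neg (by omega), if_pos h]
    simp
  · rw [if_neg h, if_pos (by omega), if_neg h]
    simp

lemma word_nat (S : ℕ → Finset P) (x : Fin k → ℕ) (v : P) {i : ℕ} (hi : i < L) :
    word L S x v (i : ZMod (2 * L)) = decide (v ∈ S (tau x i)) := by
  unfold word
  have : ((i : ZMod (2 * L))).val = i := ZMod.val_natCast_of_lt (by omega)
  rw [this, if_pos hi]

lemma word_nat' (S : ℕ → Finset P) (x : Fin k → ℕ) (v : P) {i : ℕ} (hi : L ≤ i) (hi' : i < 2 * L) :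
    word L S x v (i : ZMod (2 * L)) = !decide (v ∈ S (tau x (i - L))) := by
  unfold word
  have : ((i : ZMod (2 * L))).val = i := ZMod.val_natCast_of_lt hi'
  rw [this, if_neg (by omega)]

/-- The index at which the times reach `s`. -/
lemma exists_index {x : Fin k → ℕ} (hx : Monotone x) (hL : L = k + 1) (s : ℕ) :
    ∃ j ≤ L, ∀ i < L, (tau x i < s ↔ i < j) := by
  classical
  by_cases hex : ∃ i, i < L ∧ s ≤ tau x i
  · refine ⟨Nat.find hex, (Nat.find_spec hex).1.le, ?_⟩
    intro i hi
    constructor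
    · intro h1
      by_contra h2
      have h3 := (Nat.find_spec hex).2
      have h4 := tau_mono hx (by omega : Nat.find hex ≤ i) (by omega)
      omega
    · intro h1
      by_contra h2
      exact Nat.find_min hex h1 ⟨hi, by omega⟩
  · push Not at hex
    exact ⟨L, le_refl _, fun i hi => ⟨fun _ => hi, fun _ => hex i hi⟩⟩

lemma geo_aux {x : Fin k → ℕ} (hx : Monotone x) (hxT : ∀ i, x i ≤ T) (hL : L = k + 1) {u v : P}
    {s : ℕ} (h1 : ∀ t ≤ T, t < s → ¬ (u ∈ S t ∧ v ∉ S t))
    (h2 : ∀ t ≤ T, s ≤ t → ¬ (u ∉ S t ∧ v ∈ S t)) :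
    ∃ p : ZMod (2 * L), ∀ i : ℕ, i < L → word L S x v (p + (i : ZMod (2 * L))) = true →
      word L S x u (p + (i : ZMod (2 * L))) = true := by
  obtain ⟨j, hj, hj2⟩ := exists_index (L := L) hx hL s
  refine ⟨(j : ZMod (2 * L)), ?_⟩
  intro i hi
  have e : (j : ZMod (2 * L)) + (i : ZMod (2 * L)) = ((j + i : ℕ) : ZMod (2 * L)) := by
    push_cast
    ring
  rw [e]
  rcases lt_or_ge (j + i) L with h | h
  · rw [word_nat S x v h, word_nat S x u h]
    intro h3
    have h4 : s ≤ tau x (j + i) := by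
      by_contra h5
      have := (hj2 (j + i) h).1 (by omega)
      omega
    have h5 := h2 _ (tau_le hxT (j + i)) h4
    simp only [decide_eq_true_eq] at h3 ⊢
    tauto
  · rcases lt_or_ge (j + i) (2 * L) with h' | h'
    · rw [word_nat' S x v h h', word_nat' S x u h h']
      intro h3
      have h4 : tau x (j + i - L) < s := (hj2 (j + i - L) (by omega)).2 (by omega)
      have h5 := h1 _ (tau_le hxT (j + i - L)) h4
      simp only [Bool.not_eq_true', decide_eq_false_iff_not] at h3 ⊢
      tauto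
    · omega

lemma word_geo (h : HSeq T S) {x : Fin k → ℕ} (hx : Monotone x) (hxT : ∀ i, x i ≤ T)
    (hL : L = k + 1) (u v : P) :
    ∃ p : ZMod (2 * L), ∀ i : ℕ, i < L → word L S x v (p + (i : ZMod (2 * L))) = true →
      word L S x u (p + (i : ZMod (2 * L))) = true := by
  obtain ⟨s, ⟨h1, h2⟩ | ⟨h1, h2⟩⟩ := h.pair u v
  · -- before `s` the set contains `u` if it contains `v`
    obtain ⟨p, hp⟩ := geo_aux (L := L) (S := S) (u := v) (v := u) (s := s) hx hxT hL
      (fun t ht hts h3 => h1 t ht hts ⟨h3.2, h3.1⟩) (fun t ht hts h3 => h2 t ht hts ⟨h3.2, h3.1⟩)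
    refine ⟨p + (L : ZMod (2 * L)), ?_⟩
    intro i hi
    have e : p + (L : ZMod (2 * L)) + (i : ZMod (2 * L)) =
        p + (i : ZMod (2 * L)) + (L : ZMod (2 * L)) := by ring
    rw [e, word_anti S x v, word_anti S x u]
    have := hp i hi
    rcases Bool.eq_false_or_eq_true (word L S x u (p + (i : ZMod (2 * L)))) with h3 | h3 <;>
      rcases Bool.eq_false_or_eq_true (word L S x v (p + (i : ZMod (2 * L)))) with h4 | h4 <;>
        rw [h3, h4] at this <;> rw [h3, h4] <;> simp at this ⊢
  · exact geo_aux hx hxT hL h1 h2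

lemma word_half (h : HSeq T S) {x : Fin k → ℕ} (hxT : ∀ i, x i ≤ T) (i : ZMod (2 * L)) :
    2 * (Finset.univ.filter (fun v => word L S x v i = true)).card = Fintype.card P := by
  unfold word
  by_cases hi : i.val < L
  · simp only [hi, if_true, decide_eq_true_eq]
    have : (Finset.univ.filter (fun v => v ∈ S (tau x i.val))) = S (tau x i.val) := by
      ext v
      simp
    rw [this]
    exact h.card _ (tau_le hxT _)
  · simp only [hi, if_false, Bool.not_eq_true', decide_eq_false_iff_not]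
    have : (Finset.univ.filter (fun v => v ∉ S (tau x (i.val - L)))) = (S (tau x (i.val - L)))ᶜ := by
      ext v
      simp
    rw [this, Finset.card_compl]
    have h1 := h.card _ (tau_le hxT (i.val - L))
    have h2 := Finset.card_le_univ (S (tau x (i.val - L)))
    omega

end Pool.Agent.H69L
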