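import Pool.Agent.H69L.Abs1

/-!
ELSS, module ABS, part 2: times with almost equal masses, and the cut bound for halving sequences.
-/

set_option autoImplicit false
set_option linter.unusedSectionVars false

namespace Pool.Agent.H69L

open Finset Pool.Agent.H56.EH

/-- The discrete KKM theorem, in the form in which it is used. -/
def KKM (k N : ℕ) : Prop :=
  ∀ lab : (Fin k → ℕ) → Fin (k + 1),
    (∀ x, Monotone x → (∀ i, x i ≤ N) → gap N x (lab x) ≠ 0) →
    ∃ x, Monotone x ∧ (∀ i, x i ≤ N) ∧ ∀ j : Fin (k + 1), ∃ y, Monotone y ∧ (∀ i, y i ≤ N) ∧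
      (∀ i, x i ≤ y i ∧ y i ≤ x i + 1) ∧ lab y = j

lemma sum_half {L : ℕ} [NeZero L] (g : ZMod (2 * L) → ℝ) :
    ∑ x, g x = ∑ i ∈ Finset.range L, (g (i : ZMod (2 * L)) + g ((i : ZMod (2 * L)) + (L : ZMod (2 * L)))) := by
  have hLpos : 0 < L := Nat.pos_of_ne_zero (NeZero.ne L)
  have h1 : ∑ x, g x = ∑ j ∈ Finset.range (2 * L), g (j : ZMod (2 * L)) := by
    refine (Finset.sum_bij (fun (j : ℕ) _ => (j : ZMod (2 * L))) ?_ ?_ ?_ ?_).symm
    · intro j _
      exact Finset.mem_univ _
    · intro j hj j' hj' h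
      rw [Finset.mem_range] at hj hj'
      have h3 := congrArg ZMod.val h
      rwa [ZMod.val_natCast_of_lt hj, ZMod.val_natCast_of_lt hj'] at h3
    · intro x _
      exact ⟨x.val, Finset.mem_range.2 (ZMod.val_lt x), ZMod.natCast_zmod_val x⟩
    · intro j _
      rfl
  have h2 : ∀ G : ℕ → ℝ, ∑ j ∈ Finset.range (2 * L), G j =
      ∑ i ∈ Finset.range L, (G i + G (L + i)) := by
    intro G
    have e : 2 * L = L + L := two_mul L
    rw [e, Finset.sum_range_add, Finset.sum_add_distrib]
  rw [h1, h2 (fun j : ℕ => g (j : ZMod (2 * L)))]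
  refine Finset.sum_congr rfl fun i _ => ?_
  congr 2
  push_cast
  ring

variable {P : Type} [Fintype P] [DecidableEq P] {S : ℕ → Finset P} {k T : ℕ}
variable {L : ℕ} [NeZero L] {r : ℕ}

/-- The mass at the change `i`. -/
noncomputable def mass (L r : ℕ) [NeZero L] (S : ℕ → Finset P) (x : Fin k → ℕ) (i : ZMod (2 * L)) : ℝ :=
  ∑ v, (lamW L r (word L S x v) i + lamW L r (word L S x v) (i + (L : ZMod (2 * L))))

lemma mass_add_L (x : Fin k → ℕ) (i : ZMod (2 * L)) :
    mass L r S x (i + (L : ZMod (2 * L))) = mass L r S x i := by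
  unfold mass
  refine Finset.sum_congr rfl fun v _ => ?_
  have : i + (L : ZMod (2 * L)) + (L : ZMod (2 * L)) = i := by
    rw [add_assoc, L_add_L, add_zero]
  rw [this]
  ring

lemma mass_nonneg (hr : 2 * r ≤ L) (x : Fin k → ℕ) (i : ZMod (2 * L)) : 0 ≤ mass L r S x i :=
  Finset.sum_nonneg fun v _ => add_nonneg ((lamW_spec (r := r) (word_anti S x v) hr).1 _)
    ((lamW_spec (r := r) (word_anti S x v) hr).1 _)

lemma mass_sum (hr : 2 * r ≤ L) (x : Fin k → ℕ) :
    ∑ i ∈ Finset.range L, mass L r S x (i : ZMod (2 * L)) = Fintype.card P := by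
  unfold mass
  rw [Finset.sum_comm]
  have h1 : ∀ v : P, ∑ i ∈ Finset.range L, (lamW L r (word L S x v) (i : ZMod (2 * L)) +
      lamW L r (word L S x v) ((i : ZMod (2 * L)) + (L : ZMod (2 * L)))) = 1 := by
    intro v
    rw [← sum_half]
    exact (lamW_spec (r := r) (word_anti S x v) hr).2.2.1
  rw [Finset.sum_congr rfl fun v _ => h1 v]
  simp

/-- The mass vanishes where the words do not change. -/
lemma mass_eq_zero (hr : 2 * r ≤ L) {x : Fin k → ℕ} {i : ZMod (2 * L)}
    (h : ∀ v, word L S x v (i - 1) = word L S x v i) : mass L r S x i = 0 := by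
  unfold mass
  refine Finset.sum_eq_zero fun v _ => ?_
  have hspec := (lamW_spec (r := r) (word_anti S x v) hr).2.1
  have h1 : lamW L r (word L S x v) i = 0 := by
    by_contra hne
    obtain ⟨h2, h3⟩ := hspec i hne
    rw [h v, h3] at h2
    exact absurd h2 (by simp)
  have h2 : lamW L r (word L S x v) (i + (L : ZMod (2 * L))) = 0 := by
    by_contra hne
    obtain ⟨h2, h3⟩ := hspec _ hne
    have e : i + (L : ZMod (2 * L)) - 1 = (i - 1) + (L : ZMod (2 * L)) := by ring
    rw [e, word_anti S x v, h v] at h2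
    rw [word_anti S x v] at h3
    rw [h3] at h2
    exact absurd h2 (by simp)
  rw [h1, h2, add_zero]

lemma mass_zero_of_gap (h : HSeq T S) (hr : 2 * r ≤ L) (hL : L = k + 1) {x : Fin k → ℕ}
    (hx : Monotone x) (hxT : ∀ i, x i ≤ T) {j : Fin (k + 1)} (hj : gap T x j = 0) :
    mass L r S x ((j.val + 1 : ℕ) : ZMod (2 * L)) = 0 := by
  apply mass_eq_zero hr
  intro v
  have e1 : ((j.val + 1 : ℕ) : ZMod (2 * L)) - 1 = ((j.val : ℕ) : ZMod (2 * L)) := by
    push_cast
    ring
  rw [e1]
  have hjk := j.2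
  -- the value of the previous time
  have hprev : (if h : 0 < j.val then x ⟨j.val - 1, by omega⟩ else 0) = tau x j.val := by
    unfold tau
    split_ifs with h1 h2 h2
    · rfl
    · omega
    · omega
    · rfl
  unfold gap at hj
  rw [hprev] at hj
  rw [word_nat S x v (by omega : j.val < L)]
  by_cases hjk' : j.val < k
  · rw [dif_pos hjk'] at hj
    rw [word_nat S x v (by omega : j.val + 1 < L), tau_succ x hjk']
    have h1 : tau x j.val ≤ x ⟨j.val, hjk'⟩ := by
      have := tau_mono hx (by omega : j.val ≤ j.val + 1) (by omega)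
      rwa [tau_succ x hjk'] at this
    have h2 : tau x j.val = x ⟨j.val, hjk'⟩ := by omega
    rw [h2]
  · rw [dif_neg hjk'] at hj
    have h1 : tau x j.val = T := by
      have := tau_le hxT j.val
      omega
    have h2 : j.val + 1 = L := by omega
    rw [h1, h2, word_nat' S x v (le_refl L) (by omega), Nat.sub_self, tau_zero, h.last]
    simp

lemma mass_compare (h : HSeq T S) (hr : 2 * r ≤ L) (hL : L = k + 1) {x y : Fin k → ℕ}
    (hyT : ∀ i, y i ≤ T) (hxy : ∀ i, x i ≤ y i ∧ y i ≤ x i + 1) (i : ZMod (2 * L)) :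
    mass L r S y i - 2 * k ≤ mass L r S x i := by
  classical
  have hLpos : 0 < L := Nat.pos_of_ne_zero (NeZero.ne L)
  let bad : Finset P := Finset.univ.biUnion (fun j : Fin k => symmDiff (S (x j)) (S (y j)))
  have hbad : bad.card ≤ 2 * k := by
    refine le_trans Finset.card_biUnion_le ?_
    have : ∀ j : Fin k, (symmDiff (S (x j)) (S (y j))).card ≤ 2 := by
      intro j
      obtain ⟨h1, h2⟩ := hxy j
      rcases Nat.lt_or_ge (x j) (y j) with h3 | h3
      · have h4 : y j = x j + 1 := by omega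
        rw [h4]
        exact h.step _ (by have := hyT j; omega)
      · have h4 : y j = x j := by omega
        rw [h4, symmDiff_self]
        simp
    refine le_trans (Finset.sum_le_sum fun j _ => this j) ?_
    simp
    omega
  have hgood : ∀ v, v ∉ bad → word L S x v = word L S y v := by
    intro v hv
    have h1 : ∀ j : Fin k, (v ∈ S (x j) ↔ v ∈ S (y j)) := by
      intro j
      have : v ∉ symmDiff (S (x j)) (S (y j)) := by
        intro h2
        exact hv (Finset.mem_biUnion.2 ⟨j, Finset.mem_univ _, h2⟩)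
      rw [Finset.mem_symmDiff] at this
      tauto
    have h2 : ∀ n : ℕ, (v ∈ S (tau x n) ↔ v ∈ S (tau y n)) := by
      intro n
      unfold tau
      split_ifs
      · exact h1 _
      · rfl
    funext i
    unfold word
    split_ifs
    · simp only [h2]
    · simp only [h2]
  have hterm : ∀ v, (lamW L r (word L S y v) i + lamW L r (word L S y v) (i + (L : ZMod (2 * L)))) -
      (if v ∈ bad then (1 : ℝ) else 0) ≤
      lamW L r (word L S x v) i + lamW L r (word L S x v) (i + (L : ZMod (2 * L))) := by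
    intro v
    by_cases hv : v ∈ bad
    · rw [if_pos hv]
      obtain ⟨a0, -, a2, -⟩ := lamW_spec (r := r) (word_anti S y v) hr
      obtain ⟨b0, -, -, -⟩ := lamW_spec (r := r) (word_anti S x v) hr
      have hne : i ≠ i + (L : ZMod (2 * L)) := by
        intro heq
        have h3 := congrArg ZMod.val heq
        rw [val_add_L] at h3
        have := ZMod.val_lt i
        split_ifs at h3 <;> omega
      have h3 : lamW L r (word L S y v) i + lamW L r (word L S y v) (i + (L : ZMod (2 * L))) ≤ 1 := by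
        rw [← a2]
        rw [← Finset.sum_pair hne]
        exact Finset.sum_le_sum_of_subset_of_nonneg (Finset.subset_univ _) fun z _ _ => a0 z
      have h4 := b0 i
      have h5 := b0 (i + (L : ZMod (2 * L)))
      linarith
    · rw [if_neg hv, hgood v hv, sub_zero]
  have hsum := Finset.sum_le_sum fun v (_ : v ∈ (Finset.univ : Finset P)) => hterm v
  rw [Finset.sum_sub_distrib] at hsum
  have h6 : ∑ v, (if v ∈ bad then (1 : ℝ) else 0) = bad.card := by
    rw [Finset.sum_boole]
    congr 1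
    have : Finset.univ.filter (fun v => v ∈ bad) = bad := by
      ext v
      simp
    rw [this]
  rw [h6] at hsum
  have h7 : (bad.card : ℝ) ≤ 2 * k := by exact_mod_cast hbad
  unfold mass
  linarith

/-- Times with almost equal masses. -/
theorem exists_times (h : HSeq T S) (hkkm : KKM k T) (hr : 2 * r ≤ L) (hL : L = k + 1) :
    ∃ x : Fin k → ℕ, Monotone x ∧ (∀ i, x i ≤ T) ∧
      ∀ i : ZMod (2 * L), mass L r S x i ≤ (Fintype.card P : ℝ) / L + 2 * (k : ℝ) ^ 2 := by
  classical
  have hLpos : 0 < L := Nat.pos_of_ne_zero (NeZero.ne L)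
  have hLR : (0 : ℝ) < L := by exact_mod_cast hLpos
  set n : ℝ := (Fintype.card P : ℝ) with hn
  have hn0 : 0 ≤ n := by rw [hn]; positivity
  -- sum over the labels
  have hfin : ∀ x : Fin k → ℕ, ∑ j : Fin (k + 1), mass L r S x ((j.val + 1 : ℕ) : ZMod (2 * L)) = n := by
    intro x
    have h1 := mass_sum (S := S) hr x
    rw [← hn] at h1
    have h2 : ∑ i ∈ Finset.range L, mass L r S x (i : ZMod (2 * L)) =
        ∑ i ∈ Finset.range L, mass L r S x ((i + 1 : ℕ) : ZMod (2 * L)) := by
      have h3 := Finset.sum_range_succ (fun i : ℕ => mass L r S x (i : ZMod (2 * L))) L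
      have h4 := Finset.sum_range_succ' (fun i : ℕ => mass L r S x (i : ZMod (2 * L))) L
      have h5 : mass L r S x ((L : ℕ) : ZMod (2 * L)) = mass L r S x ((0 : ℕ) : ZMod (2 * L)) := by
        have := mass_add_L (S := S) (r := r) x (0 : ZMod (2 * L))
        rw [zero_add] at this
        rw [this]
        simp
      linarith
    rw [h2] at h1
    rw [← h1]
    subst hL
    exact (Finset.sum_range (fun i : ℕ => mass (k + 1) r S x ((i + 1 : ℕ) : ZMod (2 * (k + 1))))).symm
  rcases eq_or_lt_of_le hn0 with h0 | h0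
  · -- no points
    refine ⟨fun _ => 0, monotone_const, fun _ => Nat.zero_le _, ?_⟩
    intro i
    have hempty : IsEmpty P := by
      rw [← Fintype.card_eq_zero_iff]
      have : (Fintype.card P : ℝ) = 0 := by rw [← hn]; exact h0.symm
      exact_mod_cast this
    have : mass L r S (fun _ : Fin k => 0) i = 0 := by
      unfold mass
      simp
    rw [this]
    positivity
  -- labels
  have hlab : ∀ x : Fin k → ℕ, ∃ j : Fin (k + 1), (Monotone x → (∀ i, x i ≤ T) →
      gap T x j ≠ 0 ∧ n / L ≤ mass L r S x ((j.val + 1 : ℕ) : ZMod (2 * L))) := by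
    intro x
    by_cases hx : Monotone x ∧ ∀ i, x i ≤ T
    · by_contra hno
      push Not at hno
      have h1 : ∀ j ∈ (Finset.univ : Finset (Fin (k + 1))),
          mass L r S x ((j.val + 1 : ℕ) : ZMod (2 * L)) < n / L := by
        intro j _
        obtain ⟨-, -, h2⟩ := hno j
        by_cases hg : gap T x j = 0
        · rw [mass_zero_of_gap h hr hL hx.1 hx.2 hg]
          positivity
        · exact h2 hg
      have h2 := Finset.sum_lt_sum_of_nonempty (Finset.univ_nonempty) h1
      rw [hfin x, Finset.sum_const, Finset.card_univ, Fintype.card_fin, nsmul_eq_mul] at h2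
      have h3 : (((k + 1 : ℕ) : ℝ)) = L := by rw [hL]
      rw [h3] at h2
      have h4 : (L : ℝ) * (n / L) = n := by field_simp
      linarith
    · refine ⟨0, fun h1 h2 => absurd ⟨h1, h2⟩ hx⟩
  choose lab hlab' using hlab
  obtain ⟨x, hx, hxT, hxy⟩ := hkkm lab (fun x h1 h2 => (hlab' x h1 h2).1)
  refine ⟨x, hx, hxT, ?_⟩
  have hlow : ∀ j : Fin (k + 1), n / L - 2 * k ≤ mass L r S x ((j.val + 1 : ℕ) : ZMod (2 * L)) := by
    intro j
    obtain ⟨y, hy, hyT, hy2, hy3⟩ := hxy j
    have h1 := (hlab' y hy hyT).2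
    rw [hy3] at h1
    have h2 := mass_compare (r := r) h hr hL hyT hy2 ((j.val + 1 : ℕ) : ZMod (2 * L))
    linarith
  have hup : ∀ j : Fin (k + 1), mass L r S x ((j.val + 1 : ℕ) : ZMod (2 * L)) ≤
      n / L + 2 * (k : ℝ) ^ 2 := by
    intro j
    have h1 := hfin x
    rw [← Finset.add_sum_erase _ _ (Finset.mem_univ j)] at h1
    have h2 : ((k : ℝ)) * (n / L - 2 * k) ≤
        ∑ i ∈ Finset.univ.erase j, mass L r S x ((i.val + 1 : ℕ) : ZMod (2 * L)) := by
      have h3 := Finset.sum_le_sum fun i (_ : i ∈ Finset.univ.erase j) => hlow i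
      rw [Finset.sum_const, Finset.card_erase_of_mem (Finset.mem_univ j), Finset.card_univ,
        Fintype.card_fin, nsmul_eq_mul, Nat.add_sub_cancel] at h3
      exact h3
    have h4 : (k : ℝ) = L - 1 := by
      have : ((k + 1 : ℕ) : ℝ) = L := by rw [hL]
      push_cast at this
      linarith
    have h5 : (L : ℝ) * (n / L) = n := by field_simp
    have h6 : (k : ℝ) * (n / L) = n - n / L := by
      rw [h4]
      linarith
    nlinarith [h1, h2, h6]
  -- every index
  intro i
  have hi := ZMod.val_lt i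
  have hgen : ∀ m : ℕ, m < L → mass L r S x ((m + 1 : ℕ) : ZMod (2 * L)) ≤ n / L + 2 * (k : ℝ) ^ 2 := by
    intro m hm
    exact hup ⟨m, by omega⟩
  have key : ∀ z : ZMod (2 * L), ∃ m : ℕ, m < L ∧ (z = ((m + 1 : ℕ) : ZMod (2 * L)) ∨
      z = ((m + 1 : ℕ) : ZMod (2 * L)) + (L : ZMod (2 * L))) := by
    intro z
    have hz := ZMod.val_lt (z - 1)
    have h1 : (((z - 1).val : ℕ) : ZMod (2 * L)) = z - 1 := ZMod.natCast_zmod_val _
    rcases lt_or_ge (z - 1).val L with h2 | h2
    · refine ⟨(z - 1).val, h2, Or.inl ?_⟩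
      push_cast
      rw [h1]
      ring
    · refine ⟨(z - 1).val - L, by omega, Or.inr ?_⟩
      have h3 : (((z - 1).val - L : ℕ) : ZMod (2 * L)) + (L : ZMod (2 * L)) = z - 1 := by
        have h4 : ((((z - 1).val - L) + L : ℕ) : ZMod (2 * L)) = (((z - 1).val : ℕ) : ZMod (2 * L)) :=
          congrArg _ (Nat.sub_add_cancel h2)
        exact (Nat.cast_add _ _).symm.trans (h4.trans h1)
      have h5 : (((z - 1).val - L + 1 : ℕ) : ZMod (2 * L)) =
          (((z - 1).val - L : ℕ) : ZMod (2 * L)) + 1 := by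
        rw [Nat.cast_add, Nat.cast_one]
      rw [h5]
      linear_combination -h3
  obtain ⟨m, hm, h1 | h1⟩ := key i
  · rw [h1]
    exact hgen m hm
  · rw [h1, mass_add_L]
    exact hgen m hm

/-- **The cut bound for halving sequences.** -/
theorem abs_cut (h : HSeq T S) (hkkm : KKM k T) (hr : 2 * r ≤ k + 1)
    (a : P → P → ℝ) (ha0 : ∀ u v, 0 ≤ a u v) (ha1 : ∀ u v, a u v ≤ 1) (hd : ∀ u, a u u = 0) :
    ∃ t ≤ T, (((k + 1 : ℕ) : ℝ) - r) * ∑ u, ∑ v, a u v -
      ((((k + 1 : ℕ) : ℝ) - r) * (Fintype.card P : ℝ) ^ 2 -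
        ((k + 1 : ℕ) : ℝ) * (Fintype.card P : ℝ) ^ 2 / 2 +
        ((k + 1 : ℕ) : ℝ) * (r * ((Fintype.card P : ℝ) / ((k + 1 : ℕ) : ℝ) + 2 * (k : ℝ) ^ 2)) ^ 2 / 2 -
        Fintype.card P * (((k + 1 : ℕ) : ℝ) - r)) ≤
      ((k + 1 : ℕ) : ℝ) * ∑ u, ∑ v, (if (u ∈ S t ↔ v ∈ S t) then 0 else a u v) := by
  classical
  obtain ⟨x, hx, hxT, hm⟩ := exists_times (L := k + 1) (r := r) h hkkm hr rfl
  obtain ⟨i, hi, hcut⟩ := exists_cut (L := k + 1) (r := r) (f := fun v => word (k + 1) S x v)
    (Nat.succ_pos k) (fun v => word_anti S x v) hr (fun u v => word_geo h hx hxT rfl u v)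
    (fun i => word_half h hxT i) (M := (Fintype.card P : ℝ) / ((k + 1 : ℕ) : ℝ) + 2 * (k : ℝ) ^ 2)
    (fun i => hm i) a ha0 ha1 hd
  refine ⟨tau x i, tau_le hxT i, le_trans hcut (le_of_eq ?_)⟩
  congr 1
  unfold cut2
  refine Finset.sum_congr rfl fun u _ => Finset.sum_congr rfl fun v _ => ?_
  have e1 := word_nat S x u hi
  have e2 := word_nat S x v hi
  simp only [e1, e2]
  by_cases h1 : u ∈ S (tau x i) <;> by_cases h2 : v ∈ S (tau x i) <;> simp [h1, h2]

end Pool.Agent.H69L
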