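import Pool.Agent.H69L.Abs2
import Pool.Agent.H84L.KKM

/-!
ELSS: the counting bound for halving sequences (module CNT), in the form used by the assembly.
-/

set_option autoImplicit false

namespace Pool.Agent.H69L

open Finset Pool.Agent.H56.EH

variable {P : Type} [Fintype P] [DecidableEq P] {S : ℕ → Finset P} {k T : ℕ}
variable {L : ℕ} [NeZero L] {r : ℕ}

/-- The masses of two families of times differ by at most the number of points which see a
difference. -/
lemma mass_bad (hr : 2 * r ≤ L) {x y : Fin k → ℕ} (bad : Finset P)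
    (hbad : ∀ v, v ∉ bad → ∀ j, (v ∈ S (x j) ↔ v ∈ S (y j))) (i : ZMod (2 * L)) :
    mass L r S y i - bad.card ≤ mass L r S x i := by
  classical
  have hLpos : 0 < L := Nat.pos_of_ne_zero (NeZero.ne L)
  have hgood : ∀ v, v ∉ bad → word L S x v = word L S y v := by
    intro v hv
    have h2 : ∀ n : ℕ, (v ∈ S (tau x n) ↔ v ∈ S (tau y n)) := by
      intro n
      unfold tau
      split_ifs
      · exact hbad v hv _
      · rfl
    funext i
    unfold word
    split_ifs
    · simp only [h2]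
    · simp only [h2]
  have hterm : ∀ v, (lamW L r (word L S y v) i + lamW L r (word L S y v) (i + (L : ZMod (2 * L)))) -
      (if v ∈ bad then (1 : ℝ) else 0) ≤
      lamW L r (word L S x v) i + lamW L r (word L S x v) (i + (L : ZMod (2 * L))) := by
    intro v
    by_cases hv : v ∈ bad
    · rw [if_pos hv]
      obtain ⟨a0, -, a2, -⟩ := lamW_spec (r := r) (word_anti S y v) hr
      obtain ⟨b0, -, -, -⟩ := lamW_spec (r := r) (word_anti S x v) hr
      have hne : i ≠ i + (L : ZMod (2 * L)) := by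
        intro heq
        have h3 := congrArg ZMod.val heq
        rw [val_add_L] at h3
        have := ZMod.val_lt i
        split_ifs at h3 <;> omega
      have h3 : lamW L r (word L S y v) i + lamW L r (word L S y v) (i + (L : ZMod (2 * L))) ≤ 1 := by
        rw [← a2]
        rw [← Finset.sum_pair hne]
        exact Finset.sum_le_sum_of_subset_of_nonneg (Finset.subset_univ _) fun z _ _ => a0 z
      have h4 := b0 i
      have h5 := b0 (i + (L : ZMod (2 * L)))
      linarith
    · rw [if_neg hv, hgood v hv, sub_zero]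
  have hsum := Finset.sum_le_sum fun v (_ : v ∈ (Finset.univ : Finset P)) => hterm v
  rw [Finset.sum_sub_distrib] at hsum
  have h6 : ∑ v, (if v ∈ bad then (1 : ℝ) else 0) = bad.card := by
    rw [Finset.sum_boole]
    congr 1
    have : Finset.univ.filter (fun v => v ∈ bad) = bad := by
      ext v
      simp
    rw [this]
  rw [h6] at hsum
  unfold mass
  linarith

/-- The times of a position vector. -/
def tail (t : Fin (k + 1) → ℕ) (j : Fin k) : ℕ := t j.succ

lemma tail_mono {t : Fin (k + 1) → ℕ} (ht : Monotone t) : Monotone (tail t) := by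
  intro i j hij
  exact ht (Fin.succ_le_succ_iff.2 hij)

/-- **Times with almost equal masses.** -/
theorem exists_times' (h : HSeq T S) (hr : 2 * r ≤ k + 1) :
    ∃ x : Fin k → ℕ, Monotone x ∧ (∀ i, x i ≤ T) ∧
      ∀ i : ZMod (2 * (k + 1)), mass (k + 1) r S x i ≤
        (Fintype.card P : ℝ) / ((k + 1 : ℕ) : ℝ) + 4 * ((k + 1 : ℕ) : ℝ) ^ 4 := by
  classical
  let m : (Fin (k + 1) → ℕ) → Fin (k + 1) → ℝ := fun t i =>
    mass (k + 1) r S (tail t) ((i.val : ℕ) : ZMod (2 * (k + 1)))
  have hL0 : ∀ x : Fin k → ℕ, mass (k + 1) r S x (((k + 1 : ℕ)) : ZMod (2 * (k + 1))) =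
      mass (k + 1) r S x 0 := by
    intro x
    have := mass_add_L (L := k + 1) (S := S) (r := r) x (0 : ZMod (2 * (k + 1)))
    rwa [zero_add] at this
  obtain ⟨t, ht, htm⟩ := Pool.Agent.H84L.discrete_kkm (k + 1) (Nat.succ_pos k) T m
    (Fintype.card P : ℝ) 2 (by norm_num)
    (fun t _ i => mass_nonneg (L := k + 1) hr _ _)
    (fun t _ => by
      have h1 := mass_sum (L := k + 1) (S := S) (r := r) hr (tail t)
      rw [← h1]
      exact (Finset.sum_range (fun i : ℕ => mass (k + 1) r S (tail t) ((i : ℕ) : ZMod (2 * (k + 1))))).symm)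
    (fun t ht i j hij htij => by
      show mass (k + 1) r S (tail t) ((i.val : ℕ) : ZMod (2 * (k + 1))) = 0
      have hi := i.2
      have hjk : j.val < k := by omega
      have h1 := mass_zero_of_gap (L := k + 1) (r := r) h hr rfl (x := tail t) (tail_mono ht.1)
        (fun i => ht.2.1 _) (j := j) (by
          unfold gap
          rw [dif_pos hjk]
          have e1 : tail t ⟨j.val, hjk⟩ = t i := by
            unfold tail
            congr 1
            apply Fin.ext
            simpa using hij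
          rw [e1, htij]
          split_ifs with h2
          · have e2 : tail t ⟨j.val - 1, by omega⟩ = t j := by
              unfold tail
              congr 1
              apply Fin.ext
              simp
              omega
            rw [e2, Nat.sub_self]
          · rw [ht.2.2 j (by omega)])
      rw [← hij]
      exact h1)
    (fun t ht i l hi hl htl => by
      show mass (k + 1) r S (tail t) ((i.val : ℕ) : ZMod (2 * (k + 1))) = 0
      have h1 := mass_zero_of_gap (L := k + 1) (r := r) h hr rfl (x := tail t) (tail_mono ht.1)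
        (fun i => ht.2.1 _) (j := l) (by
          unfold gap
          rw [dif_neg (by omega)]
          split_ifs with h2
          · have e2 : tail t ⟨l.val - 1, by omega⟩ = t l := by
              unfold tail
              congr 1
              apply Fin.ext
              simp
              omega
            rw [e2, htl, Nat.sub_self]
          · rw [← htl, ht.2.2 l (by omega)])
      rw [hl, hL0] at h1
      rw [hi, Nat.cast_zero]
      exact h1)
    (fun t t' ht ht' j hj1 hj2 i => by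
      show |mass (k + 1) r S (tail t) ((i.val : ℕ) : ZMod (2 * (k + 1))) -
        mass (k + 1) r S (tail t') ((i.val : ℕ) : ZMod (2 * (k + 1)))| ≤ 2
      have hst := h.step (t j) (by have := ht'.2.1 j; omega)
      have hc : ((symmDiff (S (t j)) (S (t j + 1))).card : ℝ) ≤ 2 := by exact_mod_cast hst
      have hb : ∀ v, v ∉ symmDiff (S (t j)) (S (t j + 1)) →
          ∀ j', (v ∈ S (tail t j') ↔ v ∈ S (tail t' j')) := by
        intro v hv j'
        unfold tail
        by_cases hjj : j'.succ = j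
        · rw [hjj, hj2]
          rw [Finset.mem_symmDiff] at hv
          tauto
        · rw [hj1 _ hjj]
      have h1 := mass_bad (L := k + 1) (r := r) hr (symmDiff (S (t j)) (S (t j + 1))) hb
        ((i.val : ℕ) : ZMod (2 * (k + 1)))
      have h2 := mass_bad (L := k + 1) (r := r) hr (symmDiff (S (t j)) (S (t j + 1)))
        (fun v hv j' => (hb v hv j').symm) ((i.val : ℕ) : ZMod (2 * (k + 1)))
      rw [abs_le]
      constructor <;> linarith)
  refine ⟨tail t, tail_mono ht.1, fun i => ht.2.1 _, ?_⟩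
  have hup : ∀ i : ℕ, i < k + 1 → mass (k + 1) r S (tail t) ((i : ℕ) : ZMod (2 * (k + 1))) ≤
      (Fintype.card P : ℝ) / ((k + 1 : ℕ) : ℝ) + 4 * ((k + 1 : ℕ) : ℝ) ^ 4 := by
    intro i hi
    have h1 := (abs_le.1 (htm ⟨i, hi⟩)).2
    have h2 : m t ⟨i, hi⟩ = mass (k + 1) r S (tail t) ((i : ℕ) : ZMod (2 * (k + 1))) := rfl
    rw [h2] at h1
    linarith
  intro z
  have hz := ZMod.val_lt z
  have h1 : ((z.val : ℕ) : ZMod (2 * (k + 1))) = z := ZMod.natCast_zmod_val _
  rcases lt_or_ge z.val (k + 1) with h2 | h2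
  · have := hup z.val h2
    rwa [h1] at this
  · have h3 : ((z.val - (k + 1) : ℕ) : ZMod (2 * (k + 1))) + ((k + 1 : ℕ) : ZMod (2 * (k + 1))) = z := by
      have h4 : (((z.val - (k + 1)) + (k + 1) : ℕ) : ZMod (2 * (k + 1))) =
          ((z.val : ℕ) : ZMod (2 * (k + 1))) := congrArg _ (Nat.sub_add_cancel h2)
      exact (Nat.cast_add _ _).symm.trans (h4.trans h1)
    rw [← h3, mass_add_L (L := k + 1)]
    exact hup _ (by omega)

/-- **The cut bound for halving sequences.** -/
theorem abs_cut' (h : HSeq T S) (hr : 2 * r ≤ k + 1)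
    (a : P → P → ℝ) (ha0 : ∀ u v, 0 ≤ a u v) (ha1 : ∀ u v, a u v ≤ 1) (hd : ∀ u, a u u = 0) :
    ∃ t ≤ T, (((k + 1 : ℕ) : ℝ) - r) * ∑ u, ∑ v, a u v -
      ((((k + 1 : ℕ) : ℝ) - r) * (Fintype.card P : ℝ) ^ 2 -
        ((k + 1 : ℕ) : ℝ) * (Fintype.card P : ℝ) ^ 2 / 2 +
        ((k + 1 : ℕ) : ℝ) * (r * ((Fintype.card P : ℝ) / ((k + 1 : ℕ) : ℝ) +
          4 * ((k + 1 : ℕ) : ℝ) ^ 4)) ^ 2 / 2 -
        Fintype.card P * (((k + 1 : ℕ) : ℝ) - r)) ≤
      ((k + 1 : ℕ) : ℝ) * ∑ u, ∑ v, (if (u ∈ S t ↔ v ∈ S t) then 0 else a u v) := by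
  classical
  obtain ⟨x, hx, hxT, hm⟩ := exists_times' (r := r) h hr
  obtain ⟨i, hi, hcut⟩ := exists_cut (L := k + 1) (r := r) (f := fun v => word (k + 1) S x v)
    (Nat.succ_pos k) (fun v => word_anti S x v) hr (fun u v => word_geo h hx hxT rfl u v)
    (fun i => word_half h hxT i)
    (M := (Fintype.card P : ℝ) / ((k + 1 : ℕ) : ℝ) + 4 * ((k + 1 : ℕ) : ℝ) ^ 4)
    (fun i => hm i) a ha0 ha1 hd
  refine ⟨tau x i, tau_le hxT i, le_trans hcut (le_of_eq ?_)⟩
  congr 1
  unfold cut2
  refine Finset.sum_congr rfl fun u _ => Finset.sum_congr rfl fun v _ => ?_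
  have e1 := word_nat S x u hi
  have e2 := word_nat S x v hi
  simp only [e1, e2]
  by_cases h1 : u ∈ S (tau x i) <;> by_cases h2 : v ∈ S (tau x i) <;> simp [h1, h2]

open scoped Classical in
/-- **Counting.**  If every set of the sequence cuts at most `C` of the ordered pairs of `E`, then
`(L - r) |E| ≤ L C + (L - r)² n² / (2 L)` up to terms of lower order in `n`. -/
theorem cnt {L : ℕ} [NeZero L] {P : Type} [Fintype P] [DecidableEq P] {T : ℕ} {S : ℕ → Finset P}
    (h : HSeq T S) (r : ℕ) (hr : 2 * r ≤ L) (E : Finset (P × P)) (C : ℝ)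
    (hC : ∀ t ≤ T, ((E.filter fun z => ¬ (z.1 ∈ S t ↔ z.2 ∈ S t)).card : ℝ) ≤ C) :
    ((L - r : ℕ) : ℝ) * E.card ≤ L * C + ((L - r : ℕ) : ℝ) ^ 2 * (Fintype.card P : ℝ) ^ 2 / (2 * L) +
      4 * L ^ 4 * r ^ 2 * (Fintype.card P : ℝ) + 8 * L ^ 9 * r ^ 2 := by
  obtain ⟨k, rfl⟩ : ∃ k, L = k + 1 := ⟨L - 1, by have := NeZero.ne L; omega⟩
  set n : ℝ := (Fintype.card P : ℝ) with hn
  have hn0 : 0 ≤ n := by rw [hn]; positivity
  let a : P → P → ℝ := fun u v => if (u, v) ∈ E ∧ u ≠ v then 1 else 0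
  obtain ⟨t, ht, hcut⟩ := abs_cut' h hr a
    (fun u v => by
      show (0 : ℝ) ≤ if (u, v) ∈ E ∧ u ≠ v then 1 else 0
      split_ifs <;> norm_num)
    (fun u v => by
      show (if (u, v) ∈ E ∧ u ≠ v then (1 : ℝ) else 0) ≤ 1
      split_ifs <;> norm_num)
    (fun u => by
      show (if (u, u) ∈ E ∧ u ≠ u then (1 : ℝ) else 0) = 0
      simp)
  have hCt := hC t ht
  -- the cut
  have h1 : ∑ u, ∑ v, (if (u ∈ S t ↔ v ∈ S t) then 0 else a u v) ≤ C := by
    refine le_trans (le_of_eq ?_) hCt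
    rw [← Fintype.sum_prod_type' (f := fun u v => if (u ∈ S t ↔ v ∈ S t) then (0 : ℝ) else a u v)]
    rw [Finset.card_filter]
    push_cast
    have : ∀ z : P × P, (if (z.1 ∈ S t ↔ z.2 ∈ S t) then (0 : ℝ) else a z.1 z.2) =
        if z ∈ E then (if ¬ (z.1 ∈ S t ↔ z.2 ∈ S t) then (1 : ℝ) else 0) else 0 := by
      intro z
      show (if (z.1 ∈ S t ↔ z.2 ∈ S t) then (0 : ℝ) else
        (if (z.1, z.2) ∈ E ∧ z.1 ≠ z.2 then 1 else 0)) = _
      by_cases h2 : (z.1 ∈ S t ↔ z.2 ∈ S t)
      · simp [h2]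
      · have h3 : z.1 ≠ z.2 := by
          intro h4
          exact h2 (by rw [h4])
        simp [h2, h3]
    rw [Finset.sum_congr rfl fun z _ => this z, Finset.sum_ite_mem, Finset.univ_inter]
  -- the number of pairs
  have h2 : (E.card : ℝ) ≤ ∑ u, ∑ v, a u v + n := by
    rw [← Fintype.sum_prod_type' (f := fun u v => a u v)]
    have e1 : (E.card : ℝ) = ∑ z : P × P, if z ∈ E then (1 : ℝ) else 0 := by
      rw [Finset.sum_boole]
      congr 2
      ext z
      simp
    have e2 : n = ∑ z : P × P, if z.1 = z.2 then (1 : ℝ) else 0 := by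
      rw [Fintype.sum_prod_type' (f := fun u v : P => if u = v then (1 : ℝ) else 0)]
      simp [hn]
    rw [e1, e2, ← Finset.sum_add_distrib]
    refine Finset.sum_le_sum fun z _ => ?_
    show (if z ∈ E then (1 : ℝ) else 0) ≤ (if (z.1, z.2) ∈ E ∧ z.1 ≠ z.2 then 1 else 0) +
      if z.1 = z.2 then 1 else 0
    by_cases h3 : z ∈ E <;> by_cases h4 : z.1 = z.2 <;> simp [h3, h4]
  have hrk : r ≤ k + 1 := by omega
  have e3 : (((k + 1 - r : ℕ)) : ℝ) = ((k + 1 : ℕ) : ℝ) - r := by
    rw [Nat.cast_sub hrk]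
  rw [e3]
  set K : ℝ := ((k + 1 : ℕ) : ℝ) with hK
  have hkK : (k : ℝ) = K - 1 := by rw [hK]; push_cast; ring
  have hK1 : 1 ≤ K := by rw [hK]; push_cast; linarith [Nat.cast_nonneg (α := ℝ) k]
  have hKr : (r : ℝ) ≤ K := by rw [hK]; exact_mod_cast hrk
  have hr0 : (0 : ℝ) ≤ r := Nat.cast_nonneg r
  have hk0 : (0 : ℝ) ≤ k := Nat.cast_nonneg k
  set sa : ℝ := ∑ u, ∑ v, a u v with hsa
  have h3 : (K - r) * (E.card : ℝ) ≤ (K - r) * sa + (K - r) * n := by
    have := mul_le_mul_of_nonneg_left h2 (sub_nonneg.2 hKr)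
    linarith
  have h4 : K * ∑ u, ∑ v, (if (u ∈ S t ↔ v ∈ S t) then 0 else a u v) ≤ K * C :=
    mul_le_mul_of_nonneg_left h1 (by linarith)
  have h5 : (K - r) * n ^ 2 - K * n ^ 2 / 2 + K * (r * (n / K + 4 * K ^ 4)) ^ 2 / 2 =
      (K - r) ^ 2 * n ^ 2 / (2 * K) + 4 * K ^ 4 * r ^ 2 * n + 8 * K ^ 9 * r ^ 2 := by
    have hKne : K ≠ 0 := by linarith
    field_simp
    ring
  linarith [hcut, h3, h4, h5]

end Pool.Agent.H69L
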