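import Pool.Agent.H69L.Lam3

/-!
ELSS, module C: from words to the bound for pairs.
-/

set_option autoImplicit false

namespace Pool.Agent.H69L

open Finset

variable {L : ℕ}

/-- A word on the cycle is antiperiodic. -/
def Anti (w : ZMod (2 * L) → Bool) : Prop := ∀ i, w (i + (L : ZMod (2 * L))) = !(w i)

/-- Number of zeros of `w` on the half turn which starts at `p`. -/
def Dw (w : ZMod (2 * L) → Bool) (p : ZMod (2 * L)) : ℤ :=
  ∑ i ∈ Finset.range L, if w (p + (i : ZMod (2 * L))) = false then 1 else 0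

lemma sum_shift (g : ZMod (2 * L) → ℤ) (p : ZMod (2 * L)) :
    ∑ i ∈ Finset.range L, g (p + 1 + (i : ZMod (2 * L))) =
      ∑ i ∈ Finset.range L, g (p + (i : ZMod (2 * L))) - g p + g (p + (L : ZMod (2 * L))) := by
  have h1 := Finset.sum_range_succ (fun i : ℕ => g (p + (i : ZMod (2 * L)))) L
  have h2 := Finset.sum_range_succ' (fun i : ℕ => g (p + (i : ZMod (2 * L)))) L
  have h3 : ∀ i : ℕ, g (p + 1 + (i : ZMod (2 * L))) = g (p + ((i + 1 : ℕ) : ZMod (2 * L))) := by
    intro i
    congr 1
    push_cast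
    ring
  simp only [h3]
  simp only [Nat.cast_zero, add_zero] at h2
  linarith

lemma cycWalk_Dw {w : ZMod (2 * L) → Bool} (hw : Anti w) : CycWalk L w (Dw w) := by
  constructor
  · intro p
    unfold Dw
    rw [sum_shift (fun x => if w x = false then 1 else 0) p, hw p]
    rcases Bool.eq_false_or_eq_true (w p) with h | h
    · rw [h]
      simp
    · rw [h]
      simp
      ring
  · intro p
    unfold Dw
    have h1 : ∀ i : ℕ, (if w (p + (L : ZMod (2 * L)) + (i : ZMod (2 * L))) = false then (1 : ℤ) else 0)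
        = 1 - (if w (p + (i : ZMod (2 * L))) = false then (1 : ℤ) else 0) := by
      intro i
      have h2 : p + (L : ZMod (2 * L)) + (i : ZMod (2 * L)) =
          (p + (i : ZMod (2 * L))) + (L : ZMod (2 * L)) := by ring
      rw [h2, hw]
      rcases Bool.eq_false_or_eq_true (w (p + (i : ZMod (2 * L)))) with h | h <;> rw [h] <;> simp
    simp only [h1, Finset.sum_sub_distrib, Finset.sum_const, Finset.card_range]
    simp

lemma Dw_nonneg (w : ZMod (2 * L) → Bool) (p : ZMod (2 * L)) : 0 ≤ Dw w p :=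
  Finset.sum_nonneg fun i _ => by split_ifs <;> norm_num

/-- The measure attached to a word (a fixed choice). -/
noncomputable def lamW (L r : ℕ) [NeZero L] (w : ZMod (2 * L) → Bool) : ZMod (2 * L) → ℝ :=
  open Classical in
  if h : Anti w ∧ 2 * r ≤ L then (tent_lemma (cycWalk_Dw h.1) h.2).choose else 0

section

variable [NeZero L] {r : ℕ} {w : ZMod (2 * L) → Bool}

lemma lamW_spec (hw : Anti w) (hr : 2 * r ≤ L) :
    (∀ x, 0 ≤ lamW L r w x) ∧ (∀ x, lamW L r w x ≠ 0 → Up w x) ∧
      ∑ x, lamW L r w x = 1 ∧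
      ∀ p, (r : ℝ) - Dw w p ≤ ∑ x, lamW L r w x * tent L r (x - p) := by
  have h : Anti w ∧ 2 * r ≤ L := ⟨hw, hr⟩
  unfold lamW
  rw [dif_pos h]
  exact (tent_lemma (cycWalk_Dw h.1) h.2).choose_spec

omit [NeZero L] in
lemma tent_neg (x : ZMod (2 * L)) : tent L r (-x) = tent L r x := by
  unfold tent
  have h1 := ZMod.natAbs_valMinAbs_neg x
  have h2 : |((-x).valMinAbs : ℝ)| = |(x.valMinAbs : ℝ)| := by
    have h3 : |(-x).valMinAbs| = |x.valMinAbs| := by
      rw [Int.abs_eq_natAbs, Int.abs_eq_natAbs, h1]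
    exact_mod_cast h3
  rw [h2]

/-- Key step: `Σ_a λ(a) T(a - b) ≥ T(b - p) - D(p)`. -/
lemma key_step (hw : Anti w) (hr : 2 * r ≤ L) (b p : ZMod (2 * L)) :
    tent L r (b - p) - Dw w p ≤ ∑ a, lamW L r w a * tent L r (a - b) := by
  obtain ⟨h0, -, -, h3⟩ := lamW_spec (r := r) hw hr
  have hnn : 0 ≤ ∑ a, lamW L r w a * tent L r (a - b) :=
    Finset.sum_nonneg fun a _ => mul_nonneg (h0 a) (tent_nonneg _ _ _)
  have hD : (0 : ℝ) ≤ Dw w p := by exact_mod_cast Dw_nonneg w p
  rcases le_total ((r : ℝ) - |((b - p).valMinAbs : ℝ)|) 0 with h | h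
  · have : tent L r (b - p) = 0 := max_eq_left h
    rw [this]
    linarith
  · have ht : tent L r (b - p) = (r : ℝ) - |((b - p).valMinAbs : ℝ)| := max_eq_right h
    have h1 := h3 b
    -- `D b ≤ D p + |b - p|`
    have hwalk := (cycWalk_Dw hw).walk p
    set k : ℤ := (b - p).valMinAbs with hk
    have hbk : p + (k : ZMod (2 * L)) = b := by
      rw [hk, ZMod.coe_valMinAbs]
      ring
    have h2 : Dw w b ≤ Dw w p + |k| := by
      rcases le_total 0 k with h4 | h4
      · have h5 := walk_le hwalk h4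
        simp only [Int.cast_zero, add_zero] at h5
        rw [hbk] at h5
        rw [abs_of_nonneg h4]
        linarith
      · have h5 := walk_ge hwalk h4
        simp only [Int.cast_zero, add_zero] at h5
        rw [hbk] at h5
        rw [abs_of_nonpos h4]
        linarith
    have h6 : (Dw w b : ℝ) ≤ Dw w p + |(k : ℝ)| := by
      have : ((Dw w b : ℤ) : ℝ) ≤ ((Dw w p + |k| : ℤ) : ℝ) := by exact_mod_cast h2
      push_cast at this
      exact this
    rw [ht]
    linarith

/-- Number of lines which separate two words, on the half turn which starts at `p`. -/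
def sepAt (f g : ZMod (2 * L) → Bool) (p : ZMod (2 * L)) : ℤ :=
  ∑ i ∈ Finset.range L, if f (p + (i : ZMod (2 * L))) = g (p + (i : ZMod (2 * L))) then 0 else 1

omit [NeZero L] in
lemma sepAt_succ {f g : ZMod (2 * L) → Bool} (hf : Anti f) (hg : Anti g) (p : ZMod (2 * L)) :
    sepAt f g (p + 1) = sepAt f g p := by
  unfold sepAt
  rw [sum_shift (fun x => if f x = g x then 0 else 1) p, hf p, hg p]
  rcases Bool.eq_false_or_eq_true (f p) with h | h <;>
    rcases Bool.eq_false_or_eq_true (g p) with h' | h' <;> rw [h, h'] <;> simp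

lemma sepAt_eq {f g : ZMod (2 * L) → Bool} (hf : Anti f) (hg : Anti g) (p : ZMod (2 * L)) :
    sepAt f g p = sepAt f g 0 := by
  have h : ∀ n : ℕ, sepAt f g (n : ZMod (2 * L)) = sepAt f g 0 := by
    intro n
    induction n with
    | zero => simp
    | succ n ih =>
      rw [Nat.cast_succ, sepAt_succ hf hg, ih]
  have := h p.val
  rwa [ZMod.natCast_zmod_val] at this

/-- The kernel inequality for one pair of points. -/
lemma kernel {f g : ZMod (2 * L) → Bool} (hf : Anti f) (hg : Anti g) (hr : 2 * r ≤ L)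
    (hgeo : ∃ p : ZMod (2 * L), ∀ i : ℕ, i < L → g (p + (i : ZMod (2 * L))) = true →
      f (p + (i : ZMod (2 * L))) = true) :
    (r : ℝ) - (L - sepAt f g 0) ≤
      ∑ b, lamW L r g (b + (L : ZMod (2 * L))) * ∑ a, lamW L r f a * tent L r (a - b) := by
  obtain ⟨p, hp⟩ := hgeo
  obtain ⟨g0, -, g2, g3⟩ := lamW_spec (r := r) hg hr
  -- `D_f p + D_g (p + L) = L - sep`
  have hsum : Dw f p + Dw g (p + (L : ZMod (2 * L))) = L - sepAt f g 0 := by
    rw [← sepAt_eq hf hg p, (cycWalk_Dw hg).anti]
    unfold Dw sepAt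
    have h1 : ∀ i ∈ Finset.range L,
        (if f (p + (i : ZMod (2 * L))) = false then (1 : ℤ) else 0) -
        (if g (p + (i : ZMod (2 * L))) = false then (1 : ℤ) else 0) =
        - (if f (p + (i : ZMod (2 * L))) = g (p + (i : ZMod (2 * L))) then (0 : ℤ) else 1) := by
      intro i hi
      have h2 := hp i (Finset.mem_range.1 hi)
      rcases Bool.eq_false_or_eq_true (f (p + (i : ZMod (2 * L)))) with h | h <;>
        rcases Bool.eq_false_or_eq_true (g (p + (i : ZMod (2 * L)))) with h' | h' <;>
          rw [h, h'] at h2 <;> rw [h, h'] <;> simp at h2 ⊢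
    have h3 := Finset.sum_congr rfl h1
    rw [Finset.sum_sub_distrib, Finset.sum_neg_distrib] at h3
    linarith
  have hsumR : (Dw f p : ℝ) + Dw g (p + (L : ZMod (2 * L))) = L - sepAt f g 0 := by
    exact_mod_cast hsum
  have hmass : ∑ b, lamW L r g (b + (L : ZMod (2 * L))) = 1 := by
    rw [← g2]
    exact Equiv.sum_comp (Equiv.addRight (L : ZMod (2 * L))) (fun b => lamW L r g b)
  have h4 : ∑ b, lamW L r g (b + (L : ZMod (2 * L))) * (tent L r (b - p) - Dw f p) ≤
      ∑ b, lamW L r g (b + (L : ZMod (2 * L))) * ∑ a, lamW L r f a * tent L r (a - b) :=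
    Finset.sum_le_sum fun b _ => mul_le_mul_of_nonneg_left (key_step hf hr b p) (g0 _)
  have h5 : ∑ b, lamW L r g (b + (L : ZMod (2 * L))) * (tent L r (b - p) - Dw f p) =
      ∑ b, lamW L r g b * tent L r (b - (p + (L : ZMod (2 * L)))) - Dw f p := by
    simp only [mul_sub, Finset.sum_sub_distrib]
    rw [← Finset.sum_mul, hmass, one_mul]
    congr 1
    rw [← Equiv.sum_comp (Equiv.addRight (L : ZMod (2 * L)))
      (fun b => lamW L r g b * tent L r (b - (p + (L : ZMod (2 * L)))))]
    refine Finset.sum_congr rfl fun b _ => ?_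
    simp only [Equiv.coe_addRight]
    congr 2
    ring
  have h6 := g3 (p + (L : ZMod (2 * L)))
  linarith

/-- Windows of length `r`: `T(a - b)` is at most the number of windows which contain both. -/
lemma tent_le_windows (hr : 2 * r ≤ L) (a b : ZMod (2 * L)) :
    tent L r (a - b) ≤ ∑ i : ZMod (2 * L),
      (if (i - a).val < r then (1 : ℝ) else 0) * (if (i - b).val < r then (1 : ℝ) else 0) := by
  classical
  have hLpos : 0 < L := Nat.pos_of_ne_zero (NeZero.ne L)
  -- symmetric form
  have main : ∀ (a b : ZMod (2 * L)) (k : ℕ), a - b = (k : ZMod (2 * L)) → k ≤ r →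
      (r : ℝ) - k ≤ ∑ i : ZMod (2 * L),
      (if (i - a).val < r then (1 : ℝ) else 0) * (if (i - b).val < r then (1 : ℝ) else 0) := by
    intro a b k hk hkr
    have h1 : ((Finset.range (r - k)).image (fun j : ℕ => a + (j : ZMod (2 * L)))).card = r - k := by
      rw [Finset.card_image_of_injOn, Finset.card_range]
      intro j hj j' hj' heq
      simp only [Finset.coe_range, Set.mem_Iio] at hj hj'
      have h2 : (j : ZMod (2 * L)) = (j' : ZMod (2 * L)) := add_left_cancel heq
      have h3 := congrArg ZMod.val h2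
      rwa [ZMod.val_natCast_of_lt (by omega), ZMod.val_natCast_of_lt (by omega)] at h3
    have h4 : ((r - k : ℕ) : ℝ) ≤ ∑ i : ZMod (2 * L),
      (if (i - a).val < r then (1 : ℝ) else 0) * (if (i - b).val < r then (1 : ℝ) else 0) := by
      rw [← h1]
      have h5 : (((Finset.range (r - k)).image (fun j : ℕ => a + (j : ZMod (2 * L)))).card : ℝ) =
          ∑ i ∈ (Finset.range (r - k)).image (fun j : ℕ => a + (j : ZMod (2 * L))), (1 : ℝ) := by
        simp
      rw [h5]
      refine le_trans (Finset.sum_le_sum ?_)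
        (Finset.sum_le_sum_of_subset_of_nonneg (Finset.subset_univ _) ?_)
      · intro i hi
        rw [Finset.mem_image] at hi
        obtain ⟨j, hj, rfl⟩ := hi
        rw [Finset.mem_range] at hj
        have h6 : (a + (j : ZMod (2 * L)) - a).val = j := by
          rw [add_sub_cancel_left]
          exact ZMod.val_natCast_of_lt (by omega)
        have h7 : (a + (j : ZMod (2 * L)) - b).val = j + k := by
          have : a + (j : ZMod (2 * L)) - b = ((j + k : ℕ) : ZMod (2 * L)) := by
            push_cast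
            rw [← hk]
            ring
          rw [this]
          exact ZMod.val_natCast_of_lt (by omega)
        rw [h6, h7, if_pos (by omega), if_pos (by omega)]
        norm_num
      · intro i _ _
        split_ifs <;> norm_num
    rw [Nat.cast_sub hkr] at h4
    exact h4
  unfold tent
  refine max_le (Finset.sum_nonneg fun i _ => by split_ifs <;> norm_num) ?_
  rcases le_total ((r : ℝ) - |((a - b).valMinAbs : ℝ)|) 0 with h | h
  · exact le_trans h (Finset.sum_nonneg fun i _ => by split_ifs <;> norm_num)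
  · set k : ℤ := (a - b).valMinAbs with hk
    have hk1 : (k : ZMod (2 * L)) = a - b := by rw [hk, ZMod.coe_valMinAbs]
    have hk2 : |k| ≤ r := by
      have : |(k : ℝ)| ≤ r := by linarith
      exact_mod_cast this
    rcases le_total 0 k with h0 | h0
    · obtain ⟨n, hn⟩ := Int.eq_ofNat_of_zero_le h0
      have h1 : a - b = (n : ZMod (2 * L)) := by
        rw [← hk1, hn]
        simp
      have h2 : n ≤ r := by
        rw [hn] at hk2
        simp at hk2
        omega
      have h3 := main a b n h1 h2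
      have h4 : |(k : ℝ)| = n := by
        rw [hn]
        simp
      rw [h4]
      exact h3
    · obtain ⟨n, hn⟩ := Int.eq_ofNat_of_zero_le (by omega : 0 ≤ -k)
      have h1 : b - a = (n : ZMod (2 * L)) := by
        have : b - a = ((-k : ℤ) : ZMod (2 * L)) := by
          push_cast
          rw [hk1]
          ring
        rw [this, hn]
        simp
      have h2 : n ≤ r := by
        rw [abs_of_nonpos h0, hn] at hk2
        simp at hk2
        omega
      have h3 := main b a n h1 h2
      have h4 : |(k : ℝ)| = n := by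
        rw [← abs_neg]
        have : (-(k : ℝ)) = ((-k : ℤ) : ℝ) := by push_cast; ring
        rw [this, hn]
        simp
      rw [h4]
      refine le_trans h3 (le_of_eq ?_)
      refine Finset.sum_congr rfl fun i _ => ?_
      ring

/-- **The bound for pairs.** -/
theorem pairs_bound {V : Type*} [Fintype V] {f : V → ZMod (2 * L) → Bool} (hf : ∀ v, Anti (f v))
    (hr : 2 * r ≤ L)
    (hgeo : ∀ u v, ∃ p : ZMod (2 * L), ∀ i : ℕ, i < L → f v (p + (i : ZMod (2 * L))) = true →
      f u (p + (i : ZMod (2 * L))) = true)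
    {M : ℝ} (hM : ∀ i, ∑ v, (lamW L r (f v) i + lamW L r (f v) (i + (L : ZMod (2 * L)))) ≤ M) :
    ∑ u, ∑ v, max 0 ((r : ℝ) - (L - sepAt (f u) (f v) 0)) ≤ L * (r * M) ^ 2 / 2 := by
  classical
  have hspec := fun v => lamW_spec (r := r) (hf v) hr
  let A : ZMod (2 * L) → ℝ := fun a => ∑ u, lamW L r (f u) a
  have hA0 : ∀ a, 0 ≤ A a := fun a => Finset.sum_nonneg fun u _ => (hspec u).1 a
  have h1 : ∑ u, ∑ v, max 0 ((r : ℝ) - (L - sepAt (f u) (f v) 0)) ≤
      ∑ u, ∑ v, ∑ b, lamW L r (f v) (b + (L : ZMod (2 * L))) *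
        ∑ a, lamW L r (f u) a * tent L r (a - b) := by
    refine Finset.sum_le_sum fun u _ => Finset.sum_le_sum fun v _ => max_le ?_ ?_
    · exact Finset.sum_nonneg fun b _ => mul_nonneg ((hspec v).1 _)
        (Finset.sum_nonneg fun a _ => mul_nonneg ((hspec u).1 _) (tent_nonneg _ _ _))
    · exact kernel (hf u) (hf v) hr (hgeo u v)
  let B : ZMod (2 * L) → ℝ := fun b => A (b + (L : ZMod (2 * L)))
  have hB0 : ∀ b, 0 ≤ B b := fun b => hA0 _
  have h2 : ∑ u, ∑ v, ∑ b, lamW L r (f v) (b + (L : ZMod (2 * L))) *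
        ∑ a, lamW L r (f u) a * tent L r (a - b) =
      ∑ b, B b * ∑ a, A a * tent L r (a - b) := by
    have e1 : ∀ u, ∑ v, ∑ b, lamW L r (f v) (b + (L : ZMod (2 * L))) *
        ∑ a, lamW L r (f u) a * tent L r (a - b) =
        ∑ b, B b * ∑ a, lamW L r (f u) a * tent L r (a - b) := by
      intro u
      rw [Finset.sum_comm]
      refine Finset.sum_congr rfl fun b _ => ?_
      rw [← Finset.sum_mul]
    rw [Finset.sum_congr rfl fun u _ => e1 u, Finset.sum_comm]
    refine Finset.sum_congr rfl fun b _ => ?_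
    rw [← Finset.mul_sum]
    congr 1
    rw [Finset.sum_comm]
    refine Finset.sum_congr rfl fun a _ => ?_
    rw [← Finset.sum_mul]
  let X : ZMod (2 * L) → ℝ := fun x => if x.val < r then 1 else 0
  have hX0 : ∀ x, 0 ≤ X x := fun x => by simp only [X]; split_ifs <;> norm_num
  have hXsum : ∀ i, ∑ b, X (i - b) = r := by
    intro i
    have e1 : ∑ b, X (i - b) = ∑ x, X x := Equiv.sum_comp (Equiv.subLeft i) X
    rw [e1]
    simp only [X]
    rw [Finset.sum_boole]
    have e2 : (Finset.univ.filter (fun x : ZMod (2 * L) => x.val < r)).card = r := by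
      have e3 : Finset.univ.filter (fun x : ZMod (2 * L) => x.val < r) =
          (Finset.range r).image (fun j : ℕ => (j : ZMod (2 * L))) := by
        ext x
        simp only [Finset.mem_filter, Finset.mem_univ, true_and, Finset.mem_image,
          Finset.mem_range]
        constructor
        · intro h
          exact ⟨x.val, h, ZMod.natCast_zmod_val x⟩
        · rintro ⟨j, hj, rfl⟩
          rwa [ZMod.val_natCast_of_lt (by omega)]
      rw [e3, Finset.card_image_of_injOn, Finset.card_range]
      intro j hj j' hj' heq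
      simp only [Finset.coe_range, Set.mem_Iio] at hj hj'
      have h3 := congrArg ZMod.val heq
      simp only at h3
      rwa [ZMod.val_natCast_of_lt (by omega), ZMod.val_natCast_of_lt (by omega)] at h3
    rw [e2]
  have h3 : ∑ b, B b * ∑ a, A a * tent L r (a - b) ≤
      ∑ b, B b * ∑ a, A a * ∑ i, X (i - a) * X (i - b) :=
    Finset.sum_le_sum fun b _ => mul_le_mul_of_nonneg_left (Finset.sum_le_sum fun a _ =>
      mul_le_mul_of_nonneg_left (tent_le_windows hr a b) (hA0 a)) (hB0 b)
  have h4 : ∑ b, B b * ∑ a, A a * ∑ i, X (i - a) * X (i - b) =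
      ∑ i, (∑ a, A a * X (i - a)) * (∑ b, B b * X (i - b)) := by
    have e1 : ∀ b, B b * ∑ a, A a * ∑ i, X (i - a) * X (i - b) =
        ∑ i, (∑ a, A a * X (i - a)) * (B b * X (i - b)) := by
      intro b
      simp only [Finset.mul_sum]
      rw [Finset.sum_comm]
      refine Finset.sum_congr rfl fun i _ => ?_
      rw [Finset.sum_mul]
      refine Finset.sum_congr rfl fun a _ => ?_
      ring
    rw [Finset.sum_congr rfl fun b _ => e1 b, Finset.sum_comm]
    refine Finset.sum_congr rfl fun i _ => ?_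
    rw [← Finset.mul_sum]
  have h5 : ∀ i, (∑ a, A a * X (i - a)) * (∑ b, B b * X (i - b)) ≤ (r * M) ^ 2 / 4 := by
    intro i
    have e1 : (∑ a, A a * X (i - a)) + (∑ b, B b * X (i - b)) ≤ r * M := by
      rw [← Finset.sum_add_distrib]
      have e2 : ∀ b ∈ Finset.univ, A b * X (i - b) + B b * X (i - b) ≤ M * X (i - b) := by
        intro b _
        rw [← add_mul]
        refine mul_le_mul_of_nonneg_right ?_ (hX0 _)
        have := hM b
        rw [Finset.sum_add_distrib] at this
        exact this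
      refine le_trans (Finset.sum_le_sum e2) ?_
      rw [← Finset.mul_sum, hXsum, mul_comm]
    have e3 : 0 ≤ ∑ a, A a * X (i - a) :=
      Finset.sum_nonneg fun a _ => mul_nonneg (hA0 a) (hX0 _)
    have e4 : 0 ≤ ∑ b, B b * X (i - b) :=
      Finset.sum_nonneg fun b _ => mul_nonneg (hB0 b) (hX0 _)
    nlinarith [sq_nonneg ((∑ a, A a * X (i - a)) - (∑ b, B b * X (i - b))),
      mul_self_le_mul_self (add_nonneg e3 e4) e1]
  calc ∑ u, ∑ v, max 0 ((r : ℝ) - (L - sepAt (f u) (f v) 0))
      ≤ ∑ i, (∑ a, A a * X (i - a)) * (∑ b, B b * X (i - b)) := by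
        rw [← h4]
        exact le_trans h1 (h2 ▸ h3)
    _ ≤ ∑ _i : ZMod (2 * L), (r * M) ^ 2 / 4 := Finset.sum_le_sum fun i _ => h5 i
    _ = L * (r * M) ^ 2 / 2 := by
        rw [Finset.sum_const, Finset.card_univ, ZMod.card, nsmul_eq_mul]
        push_cast
        ring

end

end Pool.Agent.H69L
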