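import Pool.Agent.H69L.Cut1

/-!
ELSS, module C: from words to cuts.
-/

set_option autoImplicit false

namespace Pool.Agent.H69L

open Finset

variable {L : ℕ} [NeZero L] {r : ℕ} {V : Type*} [Fintype V] {f : V → ZMod (2 * L) → Bool}

/-- Number (with weights `a`) of ordered pairs which are cut by line number `i`. -/
def cut2 (a : V → V → ℝ) (f : V → ZMod (2 * L) → Bool) (i : ZMod (2 * L)) : ℝ :=
  ∑ u, ∑ v, if f u i = f v i then 0 else a u v

omit [NeZero L] in
lemma sum_sep_halving (hhalf : ∀ i : ZMod (2 * L),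
      2 * (Finset.univ.filter (fun v => f v i = true)).card = Fintype.card V) :
    ∑ u, ∑ v, (sepAt (f u) (f v) 0 : ℝ) = L * (Fintype.card V : ℝ) ^ 2 / 2 := by
  classical
  have h1 : ∀ u v, (sepAt (f u) (f v) 0 : ℝ) = ∑ i ∈ Finset.range L,
      (if f u (i : ZMod (2 * L)) = f v (i : ZMod (2 * L)) then (0 : ℝ) else 1) := by
    intro u v
    unfold sepAt
    push_cast
    refine Finset.sum_congr rfl fun i _ => ?_
    rw [zero_add]
  have h2 : ∑ u, ∑ v, (sepAt (f u) (f v) 0 : ℝ) = ∑ i ∈ Finset.range L, ∑ u, ∑ v,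
      (if f u (i : ZMod (2 * L)) = f v (i : ZMod (2 * L)) then (0 : ℝ) else 1) := by
    simp only [h1]
    have : ∀ u : V, ∑ v : V, ∑ i ∈ Finset.range L,
        (if f u (i : ZMod (2 * L)) = f v (i : ZMod (2 * L)) then (0 : ℝ) else 1) =
        ∑ i ∈ Finset.range L, ∑ v : V,
        (if f u (i : ZMod (2 * L)) = f v (i : ZMod (2 * L)) then (0 : ℝ) else 1) := by
      intro u
      rw [Finset.sum_comm]
    rw [Finset.sum_congr rfl fun u _ => this u, Finset.sum_comm]
  rw [h2]
  have h3 : ∀ i : ZMod (2 * L), ∑ u, ∑ v, (if f u i = f v i then (0 : ℝ) else 1) =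
      (Fintype.card V : ℝ) ^ 2 / 2 := by
    intro i
    set x : ℝ := ((Finset.univ.filter (fun v => f v i = true)).card : ℝ) with hx
    have hx2 : 2 * x = Fintype.card V := by
      rw [hx]
      exact_mod_cast hhalf i
    have e1 : ∑ v : V, (if f v i = true then (1 : ℝ) else 0) = x := by
      rw [Finset.sum_boole, hx]
    have e2 : ∀ u v, (if f u i = f v i then (0 : ℝ) else 1) =
        (if f u i = true then (1 : ℝ) else 0) * (1 - (if f v i = true then (1 : ℝ) else 0)) +
        (1 - (if f u i = true then (1 : ℝ) else 0)) * (if f v i = true then (1 : ℝ) else 0) := by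
      intro u v
      rcases Bool.eq_false_or_eq_true (f u i) with h | h <;>
        rcases Bool.eq_false_or_eq_true (f v i) with h' | h' <;> rw [h, h'] <;> simp
    have e3 : ∑ v : V, (1 - (if f v i = true then (1 : ℝ) else 0)) = Fintype.card V - x := by
      rw [Finset.sum_sub_distrib, e1]
      simp
    simp only [e2, Finset.sum_add_distrib]
    simp only [← Finset.mul_sum, ← Finset.sum_mul]
    rw [e1, e3]
    rw [← hx2]
    ring
  rw [Finset.sum_congr rfl fun i _ => h3 _]
  rw [Finset.sum_const, Finset.card_range, nsmul_eq_mul]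
  ring

/-- **Cuts.** One of the first `L` lines cuts many pairs. -/
theorem exists_cut (hL : 0 < L) (hf : ∀ v, Anti (f v)) (hr : 2 * r ≤ L)
    (hgeo : ∀ u v, ∃ p : ZMod (2 * L), ∀ i : ℕ, i < L → f v (p + (i : ZMod (2 * L))) = true →
      f u (p + (i : ZMod (2 * L))) = true)
    (hhalf : ∀ i : ZMod (2 * L),
      2 * (Finset.univ.filter (fun v => f v i = true)).card = Fintype.card V)
    {M : ℝ} (hM : ∀ i, ∑ v, (lamW L r (f v) i + lamW L r (f v) (i + (L : ZMod (2 * L)))) ≤ M)
    (a : V → V → ℝ) (ha0 : ∀ u v, 0 ≤ a u v) (ha1 : ∀ u v, a u v ≤ 1) (hd : ∀ u, a u u = 0) :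
    ∃ i : ℕ, i < L ∧
      ((L : ℝ) - r) * ∑ u, ∑ v, a u v - (((L : ℝ) - r) * (Fintype.card V : ℝ) ^ 2 -
        L * (Fintype.card V : ℝ) ^ 2 / 2 + L * (r * M) ^ 2 / 2 -
        Fintype.card V * ((L : ℝ) - r)) ≤ L * cut2 a f (i : ZMod (2 * L)) := by
  classical
  set n : ℝ := (Fintype.card V : ℝ) with hn
  set R : ℝ := (L : ℝ) - r with hR
  have hRnn : 0 ≤ R := by
    have : ((2 * r : ℕ) : ℝ) ≤ L := by exact_mod_cast hr
    push_cast at this
    have h2 : (0 : ℝ) ≤ r := Nat.cast_nonneg r
    rw [hR]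
    linarith
  have hpb := pairs_bound hf hr hgeo hM
  have hss := sum_sep_halving hhalf
  -- all pairs
  have h1 : ∑ u, ∑ v, max 0 (R - sepAt (f u) (f v) 0) ≤
      R * n ^ 2 - L * n ^ 2 / 2 + L * (r * M) ^ 2 / 2 := by
    have e1 : ∀ u v, max 0 (R - sepAt (f u) (f v) 0) =
        (R - sepAt (f u) (f v) 0) + max 0 ((r : ℝ) - (L - sepAt (f u) (f v) 0)) := by
      intro u v
      rw [hR]
      rcases le_total 0 ((L : ℝ) - r - sepAt (f u) (f v) 0) with h | h
      · rw [max_eq_right h, max_eq_left (by linarith)]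
        ring
      · rw [max_eq_left h, max_eq_right (by linarith)]
        ring
    simp only [e1, Finset.sum_add_distrib, Finset.sum_sub_distrib]
    rw [hss]
    simp only [Finset.sum_const, Finset.card_univ, nsmul_eq_mul]
    rw [← hn]
    nlinarith [hpb]
  -- one pair
  have hself : ∀ u, (sepAt (f u) (f u) 0 : ℝ) = 0 := by
    intro u
    unfold sepAt
    simp
  have h2 : ∀ u v, a u v * R - (max 0 (R - sepAt (f u) (f v) 0) - if u = v then R else 0) ≤
      a u v * sepAt (f u) (f v) 0 := by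
    intro u v
    by_cases huv : u = v
    · subst huv
      rw [hd, hself]
      simp [hRnn]
    · rw [if_neg huv, sub_zero]
      have h3 := ha0 u v
      have h4 := ha1 u v
      rcases le_total 0 (R - sepAt (f u) (f v) 0) with h | h
      · rw [max_eq_right h]
        nlinarith
      · rw [max_eq_left h]
        nlinarith
  have h3 : R * ∑ u, ∑ v, a u v - (R * n ^ 2 - L * n ^ 2 / 2 + L * (r * M) ^ 2 / 2 - n * R) ≤
      ∑ u, ∑ v, a u v * sepAt (f u) (f v) 0 := by
    have e1 := Finset.sum_le_sum fun u (_ : u ∈ (Finset.univ : Finset V)) =>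
      Finset.sum_le_sum fun v (_ : v ∈ (Finset.univ : Finset V)) => h2 u v
    refine le_trans ?_ e1
    simp only [Finset.sum_sub_distrib, ← Finset.sum_mul]
    have e2 : ∑ u : V, ∑ v : V, (if u = v then R else 0) = n * R := by
      simp only [Finset.sum_ite_eq, Finset.mem_univ, if_true]
      rw [Finset.sum_const, Finset.card_univ, nsmul_eq_mul]
    rw [e2]
    linarith [mul_comm R (∑ u, ∑ v, a u v)]
  -- exchange
  have h4 : ∑ u, ∑ v, a u v * sepAt (f u) (f v) 0 =
      ∑ i ∈ Finset.range L, cut2 a f (i : ZMod (2 * L)) := by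
    have e1 : ∀ u v, a u v * (sepAt (f u) (f v) 0 : ℝ) = ∑ i ∈ Finset.range L,
        (if f u (i : ZMod (2 * L)) = f v (i : ZMod (2 * L)) then (0 : ℝ) else a u v) := by
      intro u v
      unfold sepAt
      push_cast
      rw [Finset.mul_sum]
      refine Finset.sum_congr rfl fun i _ => ?_
      rw [zero_add]
      split_ifs <;> simp
    simp only [e1]
    have : ∀ u : V, ∑ v : V, ∑ i ∈ Finset.range L,
        (if f u (i : ZMod (2 * L)) = f v (i : ZMod (2 * L)) then (0 : ℝ) else a u v) =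
        ∑ i ∈ Finset.range L, ∑ v : V,
        (if f u (i : ZMod (2 * L)) = f v (i : ZMod (2 * L)) then (0 : ℝ) else a u v) := by
      intro u
      rw [Finset.sum_comm]
    rw [Finset.sum_congr rfl fun u _ => this u, Finset.sum_comm]
    rfl
  by_contra hno
  push Not at hno
  have h5 : ∑ i ∈ Finset.range L, (L : ℝ) * cut2 a f (i : ZMod (2 * L)) <
      ∑ _i ∈ Finset.range L, (R * ∑ u, ∑ v, a u v -
        (R * n ^ 2 - L * n ^ 2 / 2 + L * (r * M) ^ 2 / 2 - n * R)) :=
    Finset.sum_lt_sum_of_nonempty ⟨0, Finset.mem_range.2 hL⟩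
      fun i hi => hno i (Finset.mem_range.1 hi)
  rw [← Finset.mul_sum, ← h4, Finset.sum_const, Finset.card_range, nsmul_eq_mul] at h5
  have hLR : (0 : ℝ) < L := by exact_mod_cast hL
  have h6 := mul_le_mul_of_nonneg_left h3 hLR.le
  linarith

end Pool.Agent.H69L
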