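import Mathlib

/-!
The tent lemma for ELSS, part 1: one cluster of a walk with steps 1 and -1.
-/

set_option autoImplicit false

namespace Pool.Agent.H69L

/-- A walk on the integers with steps given by `u`: up when `u i = true`, down when `u i = false`. -/
def IsWalk (E : ℤ → ℤ) (u : ℤ → Bool) : Prop :=
  ∀ i, E (i + 1) = E i + (if u i = true then 1 else -1)

variable {E : ℤ → ℤ} {u : ℤ → Bool}

lemma walk_le (h : IsWalk E u) {i j : ℤ} (hij : i ≤ j) : E j ≤ E i + (j - i) := by
  induction j, hij using Int.leInduction with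
  | base => simp
  | succ k hk ih =>
    have := h k
    rcases Bool.eq_false_or_eq_true (u k) with h1 | h1 <;> rw [h1] at this <;> simp at this <;> omega

lemma walk_ge (h : IsWalk E u) {i j : ℤ} (hij : i ≤ j) : E i - (j - i) ≤ E j := by
  induction j, hij using Int.leInduction with
  | base => simp
  | succ k hk ih =>
    have := h k
    rcases Bool.eq_false_or_eq_true (u k) with h1 | h1 <;> rw [h1] at this <;> simp at this <;> omega

lemma walk_parity (h : IsWalk E u) {i j : ℤ} (hij : i ≤ j) : ∃ t : ℤ, E j = E i + (j - i) + 2 * t := by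
  induction j, hij using Int.leInduction with
  | base => exact ⟨0, by simp⟩
  | succ k hk ih =>
    obtain ⟨t, ht⟩ := ih
    have := h k
    rcases Bool.eq_false_or_eq_true (u k) with h1 | h1 <;> rw [h1] at this <;> simp at this
    · exact ⟨t, by omega⟩
    · exact ⟨t - 1, by omega⟩

lemma walk_up (h : IsWalk E u) {i j : ℤ} (hij : i ≤ j) (hu : ∀ k, i ≤ k → k < j → u k = true) :
    E j = E i + (j - i) := by
  induction j, hij using Int.leInduction with
  | base => simp
  | succ k hk ih =>
    have h1 := h k
    rw [hu k hk (by omega)] at h1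
    have h2 := ih (fun m hm hm' => hu m hm (by omega))
    simp at h1
    omega

lemma walk_down (h : IsWalk E u) {i j : ℤ} (hij : i ≤ j) (hu : ∀ k, i ≤ k → k < j → u k = false) :
    E j = E i - (j - i) := by
  induction j, hij using Int.leInduction with
  | base => simp
  | succ k hk ih =>
    have h1 := h k
    rw [hu k hk (by omega)] at h1
    have h2 := ih (fun m hm hm' => hu m hm (by omega))
    simp at h1
    omega

/-- `k` is a local minimum of the walk. -/
def LocMin (u : ℤ → Bool) (k : ℤ) : Prop := u (k - 1) = false ∧ u k = true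

lemma exists_locMin {i j : ℤ} (hij : i < j) (hi : u i = false) (hj : u j = true) :
    ∃ k, i < k ∧ k ≤ j ∧ LocMin u k := by
  have key : ∀ j : ℤ, i + 1 ≤ j → u j = true → ∃ k, i < k ∧ k ≤ j ∧ LocMin u k := by
    intro j hj
    induction j, hj using Int.leInduction with
    | base => exact fun h => ⟨i + 1, by omega, le_refl _, by simpa using hi, h⟩
    | succ k hk ih =>
      intro h
      rcases Bool.eq_false_or_eq_true (u k) with h1 | h1
      · obtain ⟨m, h2, h3, h4⟩ := ih h1
        exact ⟨m, h2, by omega, h4⟩
      · exact ⟨k + 1, by omega, le_refl _, by simpa using h1, h⟩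
  exact key j (by omega) hj

/-- The two atoms of a cluster. -/
theorem cluster (h : IsWalk E u) {r a b : ℤ} (hab : a < b) (ha : E a = r) (hb : E b = r)
    (hin : ∀ q, a < q → q < b → E q < r) :
    ∃ x y : ℤ, ∃ c : ℝ, 0 ≤ c ∧ c ≤ 1 ∧ LocMin u x ∧ LocMin u y ∧
      ∀ q : ℤ, a ≤ q → q ≤ b →
        ((r : ℝ) - E q) ≤ ((b : ℝ) - a) / 2 - c * |(q : ℝ) - x| - (1 - c) * |(q : ℝ) - y| := by
  classical
  -- the first step is down, the last is up
  have hua : u a = false := by
    by_contra hne
    have h1 : u a = true := by simpa using hne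
    have h2 := h a
    rw [h1] at h2
    simp at h2
    by_cases h3 : a + 1 < b
    · have := hin (a + 1) (by omega) h3
      omega
    · have h4 : a + 1 = b := by omega
      rw [h4] at h2
      omega
  have hub : u (b - 1) = true := by
    by_contra hne
    have h1 : u (b - 1) = false := by simpa using hne
    have h2 := h (b - 1)
    rw [h1] at h2
    simp at h2
    by_cases h3 : a < b - 1
    · have := hin (b - 1) h3 (by omega)
      omega
    · have h4 : b - 1 = a := by omega
      rw [h4] at h2
      omega
  obtain ⟨t, ht⟩ := walk_parity h hab.le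
  -- the midpoint
  obtain ⟨m, hm⟩ : ∃ m : ℤ, a + b = 2 * m := ⟨b + t, by omega⟩
  have ham : a < m := by omega
  have hmb : m < b := by omega
  -- a local minimum at or before the midpoint
  have hl : ∃ k, a < k ∧ k ≤ m ∧ LocMin u k := by
    by_contra hno
    have hdown : ∀ k, a ≤ k → k < m + 1 → u k = false := by
      intro k hk1 hk2
      by_contra hne
      have hk : u k = true := by simpa using hne
      have hak : a < k := by
        rcases eq_or_lt_of_le hk1 with h1 | h1
        · rw [← h1] at hk
          rw [hua] at hk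
          exact absurd hk (by simp)
        · exact h1
      obtain ⟨k', h1, h2, h3⟩ := exists_locMin hak hua hk
      exact hno ⟨k', h1, by omega, h3⟩
    have h1 := walk_down h (by omega : a ≤ m + 1) hdown
    have h2 := walk_le h (by omega : m + 1 ≤ b)
    omega
  have hr : ∃ k, m ≤ k ∧ k < b ∧ LocMin u k := by
    by_contra hno
    have hup : ∀ k, m - 1 ≤ k → k < b → u k = true := by
      intro k hk1 hk2
      by_contra hne
      have hk : u k = false := by simpa using hne
      have hkb : k < b - 1 := by
        rcases eq_or_lt_of_le (by omega : k ≤ b - 1) with h1 | h1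
        · rw [h1] at hk
          rw [hub] at hk
          exact absurd hk (by simp)
        · exact h1
      obtain ⟨k', h1, h2, h3⟩ := exists_locMin hkb hk hub
      exact hno ⟨k', by omega, by omega, h3⟩
    have h1 := walk_up h (by omega : m - 1 ≤ b) hup
    have h2 := walk_ge h (by omega : a ≤ m - 1)
    omega
  -- take the nearest ones
  obtain ⟨x, hx1, hx2, hx3, hx4⟩ : ∃ x, a < x ∧ x ≤ m ∧ LocMin u x ∧
      ∀ k, x < k → k ≤ m → ¬ LocMin u k := by
    obtain ⟨k0, h1, h2, h3⟩ := hl
    have hne : ((Finset.Ioc a m).filter (fun k => LocMin u k)).Nonempty :=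
      ⟨k0, by simp [h1, h2, h3]⟩
    refine ⟨((Finset.Ioc a m).filter (fun k => LocMin u k)).max' hne, ?_, ?_, ?_, ?_⟩
    · have := Finset.max'_mem _ hne
      simp only [Finset.mem_filter, Finset.mem_Ioc] at this
      exact this.1.1
    · have := Finset.max'_mem _ hne
      simp only [Finset.mem_filter, Finset.mem_Ioc] at this
      exact this.1.2
    · have := Finset.max'_mem _ hne
      simp only [Finset.mem_filter, Finset.mem_Ioc] at this
      exact this.2
    · intro k hk1 hk2 hk3
      have hmx := Finset.max'_mem _ hne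
      simp only [Finset.mem_filter, Finset.mem_Ioc] at hmx
      have hmem : k ∈ (Finset.Ioc a m).filter (fun k => LocMin u k) := by
        simp only [Finset.mem_filter, Finset.mem_Ioc]
        exact ⟨⟨by omega, hk2⟩, hk3⟩
      have := Finset.le_max' _ k hmem
      omega
  obtain ⟨y, hy1, hy2, hy3, hy4⟩ : ∃ y, m ≤ y ∧ y < b ∧ LocMin u y ∧
      ∀ k, m ≤ k → k < y → ¬ LocMin u k := by
    obtain ⟨k0, h1, h2, h3⟩ := hr
    have hne : ((Finset.Ico m b).filter (fun k => LocMin u k)).Nonempty :=
      ⟨k0, by simp [h1, h2, h3]⟩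
    refine ⟨((Finset.Ico m b).filter (fun k => LocMin u k)).min' hne, ?_, ?_, ?_, ?_⟩
    · have := Finset.min'_mem _ hne
      simp only [Finset.mem_filter, Finset.mem_Ico] at this
      exact this.1.1
    · have := Finset.min'_mem _ hne
      simp only [Finset.mem_filter, Finset.mem_Ico] at this
      exact this.1.2
    · have := Finset.min'_mem _ hne
      simp only [Finset.mem_filter, Finset.mem_Ico] at this
      exact this.2
    · intro k hk1 hk2 hk3
      have hmx := Finset.min'_mem _ hne
      simp only [Finset.mem_filter, Finset.mem_Ico] at hmx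
      have hmem : k ∈ (Finset.Ico m b).filter (fun k => LocMin u k) := by
        simp only [Finset.mem_filter, Finset.mem_Ico]
        exact ⟨⟨hk1, by omega⟩, hk3⟩
      have := Finset.min'_le _ k hmem
      omega
  have hnone : ∀ k, x < k → k < y → ¬ LocMin u k := by
    intro k h1 h2
    by_cases h3 : k ≤ m
    · exact hx4 k h1 h3
    · exact hy4 k (by omega) h2
  -- shape between `x` and `y`
  have hshape : ∀ q, x ≤ q → q ≤ y → E q = E x + (q - x) ∨ E q = E y + (y - q) := by
    intro q hq1 hq2
    by_cases h1 : ∀ k, x ≤ k → k < q → u k = true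
    · exact Or.inl (walk_up h hq1 h1)
    · right
      push Not at h1
      obtain ⟨i, hi1, hi2, hi3⟩ := h1
      have hi4 : u i = false := by simpa using hi3
      have h2 : ∀ k, q ≤ k → k < y → u k = false := by
        intro k hk1 hk2
        by_contra hne
        have hk3 : u k = true := by simpa using hne
        obtain ⟨k', h5, h6, h7⟩ := exists_locMin (by omega : i < k) hi4 hk3
        exact hnone k' (by omega) (by omega) h7
      have := walk_down h hq2 h2
      omega
  have hEx := walk_ge h hx1.le
  have hEy : E b - (b - y) ≤ E y := by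
    have := walk_le h hy2.le
    omega
  have haR : (a : ℝ) = 2 * m - b := by
    have : (a : ℝ) + b = 2 * m := by exact_mod_cast hm
    linarith
  by_cases hxy : x = y
  · -- one atom
    have hxm : x = m := by omega
    refine ⟨x, x, 1, zero_le_one, le_refl _, hx3, hx3, ?_⟩
    intro q hq1 hq2
    have h1 := walk_ge h hq1
    have h2 : E b - (b - q) ≤ E q := by
      have := walk_le h hq2
      omega
    have h3 : ((r : ℝ) - E q) ≤ q - a := by
      have : r - E q ≤ q - a := by omega
      exact_mod_cast this
    have h4 : ((r : ℝ) - E q) ≤ b - q := by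
      have : r - E q ≤ b - q := by omega
      exact_mod_cast this
    have hxm' : (x : ℝ) = m := by rw [hxm]
    rw [hxm']
    rcases abs_cases ((q : ℝ) - m) with ⟨h5, _⟩ | ⟨h5, _⟩ <;> rw [h5] <;> linarith
  · have hxy' : x < y := by omega
    have hxyR : (0 : ℝ) < (y : ℝ) - x := by
      have : (x : ℝ) < y := by exact_mod_cast hxy'
      linarith
    have hxmR : (x : ℝ) ≤ m := by exact_mod_cast hx2
    have hmyR : (m : ℝ) ≤ y := by exact_mod_cast hy1
    have hs : (0 : ℝ) ≤ y - m := by linarith
    refine ⟨x, y, ((y : ℝ) - m) / (y - x), div_nonneg hs hxyR.le, ?_, hx3, hy3, ?_⟩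
    · rw [div_le_one hxyR]
      linarith
    intro q hq1 hq2
    have hc : 1 - ((y : ℝ) - m) / (y - x) = ((m : ℝ) - x) / (y - x) := by
      field_simp
      ring
    rw [hc]
    -- clear denominators
    suffices hkey : ((r : ℝ) - E q) * (y - x) ≤
        ((b : ℝ) - a) / 2 * (y - x) - (y - m) * |(q : ℝ) - x| - (m - x) * |(q : ℝ) - y| by
      have h1 : ((b : ℝ) - a) / 2 - ((y : ℝ) - m) / (y - x) * |(q : ℝ) - x| -
          ((m : ℝ) - x) / (y - x) * |(q : ℝ) - y| =
          (((b : ℝ) - a) / 2 * (y - x) - (y - m) * |(q : ℝ) - x| - (m - x) * |(q : ℝ) - y|) /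
            (y - x) := by
        field_simp
      rw [h1, le_div_iff₀ hxyR]
      exact hkey
    have haR2 : ((b : ℝ) - a) / 2 = b - m := by rw [haR]; ring
    rw [haR2]
    by_cases hqx : q ≤ x
    · have h3 : ((r : ℝ) - E q) ≤ q - a := by
        have h1 := walk_ge h hq1
        have : r - E q ≤ q - a := by omega
        exact_mod_cast this
      have hqxR : (q : ℝ) ≤ x := by exact_mod_cast hqx
      rw [abs_of_nonpos (by linarith : (q : ℝ) - x ≤ 0),
        abs_of_nonpos (by linarith : (q : ℝ) - y ≤ 0)]
      have h4 : ((r : ℝ) - E q) * (y - x) ≤ (q - a) * (y - x) :=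
        mul_le_mul_of_nonneg_right h3 hxyR.le
      rw [haR] at h4
      nlinarith [h4]
    by_cases hqy : y ≤ q
    · have h3 : ((r : ℝ) - E q) ≤ b - q := by
        have h1 := walk_le h hq2
        have : r - E q ≤ b - q := by omega
        exact_mod_cast this
      have hqyR : (y : ℝ) ≤ q := by exact_mod_cast hqy
      rw [abs_of_nonneg (by linarith : (0 : ℝ) ≤ (q : ℝ) - x),
        abs_of_nonneg (by linarith : (0 : ℝ) ≤ (q : ℝ) - y)]
      have h4 : ((r : ℝ) - E q) * (y - x) ≤ (b - q) * (y - x) :=
        mul_le_mul_of_nonneg_right h3 hxyR.le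
      nlinarith [h4]
    · push Not at hqx hqy
      have hqxR : (x : ℝ) ≤ q := by exact_mod_cast hqx.le
      have hqyR : (q : ℝ) ≤ y := by exact_mod_cast hqy.le
      rw [abs_of_nonneg (by linarith : (0 : ℝ) ≤ (q : ℝ) - x),
        abs_of_nonpos (by linarith : (q : ℝ) - y ≤ 0)]
      rcases hshape q hqx.le hqy.le with h1 | h1
      · have h3 : ((r : ℝ) - E q) ≤ (x - a) - (q - x) := by
          have : r - E q ≤ (x - a) - (q - x) := by omega
          exact_mod_cast this
        have h4 : ((r : ℝ) - E q) * (y - x) ≤ ((x - a) - (q - x)) * (y - x) :=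
          mul_le_mul_of_nonneg_right h3 hxyR.le
        rw [haR] at h4
        nlinarith [h4, mul_nonneg (by linarith : (0 : ℝ) ≤ m - x) (by linarith : (0 : ℝ) ≤ (q : ℝ) - x)]
      · have h3 : ((r : ℝ) - E q) ≤ (b - y) - (y - q) := by
          have : r - E q ≤ (b - y) - (y - q) := by omega
          exact_mod_cast this
        have h4 : ((r : ℝ) - E q) * (y - x) ≤ ((b - y) - (y - q)) * (y - x) :=
          mul_le_mul_of_nonneg_right h3 hxyR.le
        nlinarith [h4, mul_nonneg (by linarith : (0 : ℝ) ≤ (y : ℝ) - m) (by linarith : (0 : ℝ) ≤ (y : ℝ) - q)]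

end Pool.Agent.H69L
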