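import Pool.Agent.H69L.Lam1

/-!
The tent lemma for ELSS, part 2: walks on the cycle of length 2L with `D (p + L) = L - D p`.
-/

set_option autoImplicit false

namespace Pool.Agent.H69L

open Finset

/-- An antiperiodic walk with steps 1 and -1 on the cycle of length `2L`. -/
structure CycWalk (L : ℕ) (w : ZMod (2 * L) → Bool) (D : ZMod (2 * L) → ℤ) : Prop where
  step : ∀ p, D (p + 1) = D p + (if w p = true then 1 else -1)
  anti : ∀ p, D (p + (L : ZMod (2 * L))) = L - D p

/-- The tent of height `r` on the cycle. -/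
noncomputable def tent (L r : ℕ) (x : ZMod (2 * L)) : ℝ :=
  max 0 ((r : ℝ) - |(x.valMinAbs : ℝ)|)

lemma tent_nonneg (L r : ℕ) (x : ZMod (2 * L)) : 0 ≤ tent L r x := le_max_left _ _

lemma le_tent (L r : ℕ) [NeZero L] (k : ℤ) :
    (r : ℝ) - |(k : ℝ)| ≤ tent L r (k : ZMod (2 * L)) := by
  refine le_trans ?_ (le_max_right _ _)
  have h1 : ((k : ZMod (2 * L)).valMinAbs).natAbs ≤ k.natAbs :=
    ZMod.natAbs_min_of_le_div_two (2 * L) _ _ (ZMod.coe_valMinAbs _)
      (ZMod.natAbs_valMinAbs_le _)
  have h2 : |((k : ZMod (2 * L)).valMinAbs)| ≤ |k| := by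
    rw [Int.abs_eq_natAbs, Int.abs_eq_natAbs]
    exact_mod_cast h1
  have h3 : |(((k : ZMod (2 * L)).valMinAbs : ℤ) : ℝ)| ≤ |(k : ℝ)| := by
    exact_mod_cast h2
  linarith

section Walk

variable {E : ℤ → ℤ} {u : ℤ → Bool}

lemma crossing (h : IsWalk E u) {i j k : ℤ} (hij : i ≤ j) (hi : E i ≤ k) (hj : k < E j) :
    ∃ m, i ≤ m ∧ m < j ∧ E m = k ∧ E (m + 1) = k + 1 := by
  induction j, hij using Int.leInduction with
  | base => omega
  | succ n hn ih =>
    by_cases h1 : k < E n
    · obtain ⟨m, h2, h3, h4, h5⟩ := ih h1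
      exact ⟨m, h2, by omega, h4, h5⟩
    · have h2 := h n
      rcases Bool.eq_false_or_eq_true (u n) with h3 | h3 <;> rw [h3] at h2 <;> simp at h2
      · exact ⟨n, hn, by omega, by omega, by omega⟩
      · omega

lemma first_hit (h : IsWalk E u) {i j r : ℤ} (hij : i < j) (hi : E i < r) (hj : r ≤ E j) :
    ∃ b, i < b ∧ b ≤ j ∧ E b = r ∧ ∀ q, i ≤ q → q < b → E q < r := by
  classical
  have hne : ((Finset.Ioc i j).filter (fun q => r ≤ E q)).Nonempty :=
    ⟨j, by simp [hij, hj]⟩
  have hm := Finset.min'_mem _ hne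
  have hmin := fun q (hq : q ∈ (Finset.Ioc i j).filter (fun q => r ≤ E q)) =>
    Finset.min'_le _ q hq
  set b := ((Finset.Ioc i j).filter (fun q => r ≤ E q)).min' hne with hb
  simp only [Finset.mem_filter, Finset.mem_Ioc] at hm hmin
  have hlow : ∀ q, i ≤ q → q < b → E q < r := by
    intro q h1 h2
    by_contra h3
    rcases eq_or_lt_of_le h1 with h4 | h4
    · rw [← h4] at h3
      exact h3 hi
    · have := hmin q ⟨⟨h4, by omega⟩, by omega⟩
      omega
  refine ⟨b, hm.1.1, hm.1.2, ?_, hlow⟩
  have h1 := hlow (b - 1) (by omega) (by omega)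
  have h2 := walk_le h (by omega : b - 1 ≤ b)
  omega

lemma last_hit (h : IsWalk E u) {i j r : ℤ} (hij : i < j) (hi : r ≤ E i) (hj : E j < r) :
    ∃ a, i ≤ a ∧ a < j ∧ E a = r ∧ ∀ q, a < q → q ≤ j → E q < r := by
  classical
  have hne : ((Finset.Ico i j).filter (fun q => r ≤ E q)).Nonempty :=
    ⟨i, by simp [hij, hi]⟩
  have hm := Finset.max'_mem _ hne
  have hmin := fun q (hq : q ∈ (Finset.Ico i j).filter (fun q => r ≤ E q)) =>
    Finset.le_max' _ q hq
  set b := ((Finset.Ico i j).filter (fun q => r ≤ E q)).max' hne with hb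
  simp only [Finset.mem_filter, Finset.mem_Ico] at hm hmin
  have hlow : ∀ q, b < q → q ≤ j → E q < r := by
    intro q h1 h2
    by_contra h3
    rcases eq_or_lt_of_le h2 with h4 | h4
    · rw [h4] at h3
      exact h3 hj
    · have := hmin q ⟨⟨by omega, h4⟩, by omega⟩
      omega
  refine ⟨b, hm.1.1, hm.1.2, ?_, hlow⟩
  have h1 := hlow (b + 1) (by omega) (by omega)
  have h2 := walk_ge h (by omega : b ≤ b + 1)
  omega

end Walk

variable {L : ℕ} {w : ZMod (2 * L) → Bool} {D : ZMod (2 * L) → ℤ}

lemma CycWalk.walk (h : CycWalk L w D) (p : ZMod (2 * L)) :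
    IsWalk (fun i => D (p + (i : ZMod (2 * L)))) (fun i => w (p + (i : ZMod (2 * L)))) := by
  intro i
  have := h.step (p + (i : ZMod (2 * L)))
  simp only
  rw [← this]
  congr 1
  push_cast
  ring

lemma CycWalk.anti_int (h : CycWalk L w D) (p : ZMod (2 * L)) (i : ℤ) :
    D (p + ((i + L : ℤ) : ZMod (2 * L))) = L - D (p + (i : ZMod (2 * L))) := by
  rw [← h.anti]
  congr 1
  push_cast
  ring

lemma two_L : ((2 * L : ℕ) : ZMod (2 * L)) = 0 := ZMod.natCast_self _

lemma L_add_L : (L : ZMod (2 * L)) + (L : ZMod (2 * L)) = 0 := by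
  have := two_L (L := L)
  push_cast at this
  linear_combination this

/-- A low step. -/
def Low (D : ZMod (2 * L) → ℤ) (r : ℕ) (s : ZMod (2 * L)) : Prop :=
  D s ≤ r ∧ D (s + 1) ≤ r

lemma not_low_both (h : CycWalk L w D) {r : ℕ} (hr : 2 * r ≤ L) {s : ZMod (2 * L)}
    (h1 : Low D r s) (h2 : Low D r (s + (L : ZMod (2 * L)))) : False := by
  obtain ⟨h3, h4⟩ := h1
  obtain ⟨h5, h6⟩ := h2
  rw [h.anti] at h5
  have h7 : s + (L : ZMod (2 * L)) + 1 = (s + 1) + (L : ZMod (2 * L)) := by ring
  rw [h7, h.anti] at h6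
  have h8 := h.step s
  split_ifs at h8 <;> omega

/-- The mass budget: at most `2r` low steps. -/
lemma budget [NeZero L] (h : CycWalk L w D) {r : ℕ} (hr : 2 * r ≤ L)
    [DecidablePred (Low (L := L) D r)] :
    (Finset.univ.filter (fun s : ZMod (2 * L) => Low D r s)).card ≤ 2 * r := by
  classical
  by_cases hp0 : ∃ p0, D p0 < r
  swap
  · have : (Finset.univ.filter (fun s : ZMod (2 * L) => Low D r s)) = ∅ := by
      rw [Finset.filter_eq_empty_iff]
      rintro s - ⟨h1, h2⟩
      push Not at hp0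
      have h3 := hp0 s
      have h4 := hp0 (s + 1)
      have h5 := h.step s
      split_ifs at h5 <;> omega
    rw [this]
    simp
  obtain ⟨p0, hp0⟩ := hp0
  have hwalk := h.walk p0
  have hLpos : 0 < L := Nat.pos_of_ne_zero (NeZero.ne L)
  have hE0 : D (p0 + ((0 : ℤ) : ZMod (2 * L))) < r := by simpa using hp0
  have hEL : D (p0 + ((L : ℤ) : ZMod (2 * L))) = L - D p0 := by
    have := h.anti_int p0 0
    simpa using this
  -- crossings
  have hcross : ∀ k : ℤ, (r : ℤ) ≤ k → k < L - r → ∃ m : ℤ, 0 ≤ m ∧ m < L ∧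
      D (p0 + (m : ZMod (2 * L))) = k ∧ D (p0 + ((m + 1 : ℤ) : ZMod (2 * L))) = k + 1 := by
    intro k h1 h2
    have h3 : D (p0 + ((0 : ℤ) : ZMod (2 * L))) ≤ k := by omega
    have h4 : k < D (p0 + ((L : ℤ) : ZMod (2 * L))) := by
      rw [hEL]
      omega
    exact crossing hwalk (by omega : (0 : ℤ) ≤ L) h3 h4
  let K : Finset ℕ := (Finset.range L).filter (fun j => ∃ k : ℤ, (r : ℤ) ≤ k ∧ k < L - r ∧
      D (p0 + (j : ZMod (2 * L))) = k ∧ D (p0 + (j : ZMod (2 * L)) + 1) = k + 1)
  have hK : L - 2 * r ≤ K.card := by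
    choose! f hf using hcross
    have h1 : (Finset.Ico (r : ℤ) (L - r)).card ≤ K.card := by
      refine Finset.card_le_card_of_injOn (fun k => (f k).toNat) ?_ ?_
      · intro k hk
        simp only [Finset.coe_Ico, Set.mem_Ico] at hk
        obtain ⟨h2, h3, h4, h5⟩ := hf k hk.1 hk.2
        simp only [K, Finset.coe_filter, Finset.mem_range, Set.mem_ofPred_eq]
        have h6 : (((f k).toNat : ℕ) : ZMod (2 * L)) = ((f k : ℤ) : ZMod (2 * L)) := by
          have h7 : ((f k).toNat : ℤ) = f k := Int.toNat_of_nonneg h2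
          have h8 := congrArg (Int.cast : ℤ → ZMod (2 * L)) h7
          rw [Int.cast_natCast] at h8
          exact h8
        refine ⟨by omega, k, hk.1, hk.2, ?_, ?_⟩
        · rw [h6]; exact h4
        · rw [h6]
          push_cast at h5
          rw [← h5]
          congr 1
          ring
      · intro k hk k' hk' heq
        simp only [Finset.coe_Ico, Set.mem_Ico] at hk hk'
        obtain ⟨h2, h3, h4, h5⟩ := hf k hk.1 hk.2
        obtain ⟨h2', h3', h4', h5'⟩ := hf k' hk'.1 hk'.2
        have : f k = f k' := by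
          simp only at heq
          omega
        rw [this] at h4
        omega
    rw [Int.card_Ico] at h1
    omega
  -- low steps inject into the complement
  have hinj : (Finset.univ.filter (fun s : ZMod (2 * L) => Low D r s)).card ≤
      ((Finset.range L) \ K).card := by
    have hval : ∀ s : ZMod (2 * L), s = p0 + (((s - p0).val % L : ℕ) : ZMod (2 * L)) ∨
        s = p0 + (((s - p0).val % L : ℕ) : ZMod (2 * L)) + (L : ZMod (2 * L)) := by
      intro s
      have h1 : (((s - p0).val : ℕ) : ZMod (2 * L)) = s - p0 := ZMod.natCast_zmod_val _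
      have h2 : (s - p0).val < 2 * L := ZMod.val_lt _
      have h3 := Nat.mod_add_div (s - p0).val L
      have h4 : (s - p0).val / L < 2 := Nat.div_lt_of_lt_mul (by omega)
      have h45 : (s - p0).val / L = 0 ∨ (s - p0).val / L = 1 := by
        generalize (s - p0).val / L = z at h4
        omega
      rcases h45 with h6 | h6
      · left
        rw [h6, Nat.mul_zero, Nat.add_zero] at h3
        rw [h3, h1]
        ring
      · right
        rw [h6, Nat.mul_one] at h3
        have h7 : (((s - p0).val % L : ℕ) : ZMod (2 * L)) + (L : ZMod (2 * L)) = s - p0 := by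
          have h8 := congrArg (Nat.cast : ℕ → ZMod (2 * L)) h3
          rw [h1, Nat.cast_add] at h8
          exact h8
        linear_combination -h7
    refine Finset.card_le_card_of_injOn (fun s => (s - p0).val % L) ?_ ?_
    · intro s hs
      simp only [Finset.coe_filter, Finset.mem_univ, true_and, Set.mem_ofPred_eq] at hs
      simp only [Finset.coe_sdiff, Finset.coe_range, Set.mem_sdiff, Set.mem_Iio, Finset.mem_coe]
      refine ⟨Nat.mod_lt _ hLpos, ?_⟩
      intro hmem
      simp only [K, Finset.mem_filter, Finset.mem_range] at hmem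
      obtain ⟨_, k, h1, h2, h3, h4⟩ := hmem
      obtain ⟨h5, h6⟩ := hs
      rcases hval s with h7 | h7
      · rw [← h7] at h4
        omega
      · rw [h7, h.anti] at h5
        omega
    · intro s hs s' hs' heq
      simp only [Finset.coe_filter, Finset.mem_univ, true_and, Set.mem_ofPred_eq] at hs hs'
      simp only at heq
      have h1 := hval s
      have h2 := hval s'
      rw [heq] at h1
      rcases h1 with h1 | h1 <;> rcases h2 with h2 | h2
      · rw [h1]; exact h2.symm
      · exfalso
        rw [← h1] at h2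
        rw [h2] at hs'
        exact not_low_both h hr hs hs'
      · exfalso
        rw [← h2] at h1
        rw [h1] at hs
        exact not_low_both h hr hs' hs
      · rw [h1]; exact h2.symm
  have hKs : K ⊆ Finset.range L := Finset.filter_subset _ _
  rw [Finset.card_sdiff_of_subset hKs, Finset.card_range] at hinj
  omega

end Pool.Agent.H69L
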