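import Pool.Agent.H69L.Lam2

/-!
The tent lemma for ELSS, part 3: assembly.
-/

set_option autoImplicit false

namespace Pool.Agent.H69L

open Finset

variable {L : ℕ} {w : ZMod (2 * L) → Bool} {D : ZMod (2 * L) → ℤ}

/-- Up-changes of a cyclic word. -/
def Up (w : ZMod (2 * L) → Bool) (x : ZMod (2 * L)) : Prop := w (x - 1) = false ∧ w x = true

lemma exists_up [NeZero L] (h : CycWalk L w D) : ∃ x, Up w x := by
  have hLpos : 0 < L := Nat.pos_of_ne_zero (NeZero.ne L)
  -- there is a point with value at most L/2 and one at least L/2; use the walk on the integers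
  by_contra hno
  push Not at hno
  have hup : ∀ x : ZMod (2 * L), w x = true → w (x - 1) = true := by
    intro x hx
    by_contra h1
    exact hno x ⟨by simpa using h1, hx⟩
  have hanti : ∀ x : ZMod (2 * L), w (x + (L : ZMod (2 * L))) = !(w x) := by
    intro x
    have h1 := h.step x
    have h2 := h.step (x + (L : ZMod (2 * L)))
    have h3 : x + (L : ZMod (2 * L)) + 1 = (x + 1) + (L : ZMod (2 * L)) := by ring
    rw [h3, h.anti, h.anti] at h2
    rcases Bool.eq_false_or_eq_true (w x) with h4 | h4 <;>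
      rcases Bool.eq_false_or_eq_true (w (x + (L : ZMod (2 * L)))) with h5 | h5 <;>
        rw [h4, h5] <;> rw [h4] at h1 <;> rw [h5] at h2 <;> simp at h1 h2 ⊢ <;> omega
  have hall : ∀ (x : ZMod (2 * L)) (n : ℕ), w x = true → w (x - (n : ZMod (2 * L))) = true := by
    intro x n hx
    induction n with
    | zero => simpa using hx
    | succ n ih =>
      have h1 := hup _ ih
      have h2 : x - ((n + 1 : ℕ) : ZMod (2 * L)) = x - (n : ZMod (2 * L)) - 1 := by
        push_cast
        ring
      rw [h2]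
      exact h1
  have key : ∀ x : ZMod (2 * L), w x = true → False := by
    intro x hx
    have h1 := hall x L hx
    have h2 := hanti (x - (L : ZMod (2 * L)))
    rw [sub_add_cancel, h1, hx] at h2
    simp at h2
  rcases Bool.eq_false_or_eq_true (w 0) with h0 | h0
  · exact key 0 h0
  · have := hanti 0
    rw [h0] at this
    exact key _ this

/-- The two atoms attached to a step. -/
lemma exists_data [NeZero L] (h : CycWalk L w D) (r : ℕ) (s : ZMod (2 * L)) :
    ∃ x y : ℤ, ∃ c : ℝ, 0 ≤ c ∧ c ≤ 1 ∧ Up w (s + (x : ZMod (2 * L))) ∧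
      Up w (s + (y : ZMod (2 * L))) ∧
      ∀ a b : ℤ, a ≤ 0 → 0 < b → D (s + (a : ZMod (2 * L))) = r → D (s + (b : ZMod (2 * L))) = r →
        (∀ q : ℤ, a < q → q < b → D (s + (q : ZMod (2 * L))) < r) →
        ∀ q : ℤ, a ≤ q → q ≤ b → ((r : ℝ) - D (s + (q : ZMod (2 * L)))) ≤
          ((b : ℝ) - a) / 2 - c * |(q : ℝ) - x| - (1 - c) * |(q : ℝ) - y| := by
  by_cases hex : ∃ a b : ℤ, a ≤ 0 ∧ 0 < b ∧ D (s + (a : ZMod (2 * L))) = r ∧
      D (s + (b : ZMod (2 * L))) = r ∧ (∀ q : ℤ, a < q → q < b → D (s + (q : ZMod (2 * L))) < r)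
  · obtain ⟨a, b, ha, hb, hDa, hDb, hin⟩ := hex
    obtain ⟨x, y, c, hc0, hc1, hx, hy, hq⟩ :=
      cluster (h.walk s) (by omega : a < b) (r := (r : ℤ)) hDa hDb hin
    refine ⟨x, y, c, hc0, hc1, ?_, ?_, ?_⟩
    · obtain ⟨h1, h2⟩ := hx
      refine ⟨?_, h2⟩
      simp only at h1
      rw [← h1]
      congr 1
      push_cast
      ring
    · obtain ⟨h1, h2⟩ := hy
      refine ⟨?_, h2⟩
      simp only at h1
      rw [← h1]
      congr 1
      push_cast
      ring
    · intro a' b' ha' hb' hDa' hDb' hin'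
      have haa : a' = a := by
        rcases lt_trichotomy a a' with h1 | h1 | h1
        · have := hin a' h1 (by omega)
          omega
        · exact h1.symm
        · have := hin' a h1 (by omega)
          omega
      have hbb : b' = b := by
        rcases lt_trichotomy b b' with h1 | h1 | h1
        · have := hin' b (by omega) h1
          omega
        · exact h1.symm
        · have := hin b' (by omega) h1
          omega
      subst haa hbb
      intro q h1 h2
      have := hq q h1 h2
      simpa using this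
  · obtain ⟨x, hx⟩ := exists_up h
    refine ⟨(x - s).valMinAbs, (x - s).valMinAbs, 1, zero_le_one, le_refl _, ?_, ?_, ?_⟩
    · rw [ZMod.coe_valMinAbs]
      simpa using hx
    · rw [ZMod.coe_valMinAbs]
      simpa using hx
    · intro a b ha hb hDa hDb hin
      exact absurd ⟨a, b, ha, hb, hDa, hDb, hin⟩ hex

/-- The radii of the cluster of a low point. -/
lemma exists_radii [NeZero L] (h : CycWalk L w D) {r : ℕ} (hr : 2 * r ≤ L) {p : ZMod (2 * L)}
    (hp : D p < r) : ∃ a b : ℤ, a < 0 ∧ 0 < b ∧ -(L : ℤ) ≤ a ∧ b ≤ L ∧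
      D (p + (a : ZMod (2 * L))) = r ∧ D (p + (b : ZMod (2 * L))) = r ∧
      ∀ q : ℤ, a < q → q < b → D (p + (q : ZMod (2 * L))) < r := by
  have hLpos : 0 < L := Nat.pos_of_ne_zero (NeZero.ne L)
  have hw := h.walk p
  have hE0 : D (p + ((0 : ℤ) : ZMod (2 * L))) < r := by simpa using hp
  have hEL : D (p + ((L : ℤ) : ZMod (2 * L))) = L - D p := by
    have := h.anti_int p 0
    simpa using this
  have hEL' : D (p + ((-L : ℤ) : ZMod (2 * L))) = L - D p := by
    have := h.anti_int p (-L)
    simp only [neg_add_cancel, Int.cast_zero, add_zero] at this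
    omega
  have h1 : (r : ℤ) ≤ D (p + ((L : ℤ) : ZMod (2 * L))) := by omega
  have h2 : (r : ℤ) ≤ D (p + ((-L : ℤ) : ZMod (2 * L))) := by omega
  obtain ⟨b, hb1, hb2, hb3, hb4⟩ := first_hit hw (by omega : (0 : ℤ) < L) hE0 h1
  obtain ⟨a, ha1, ha2, ha3, ha4⟩ := last_hit hw (by omega : -(L : ℤ) < 0) h2 hE0
  refine ⟨a, b, ha2, hb1, ha1, hb2, ha3, hb3, ?_⟩
  intro q h5 h6
  rcases le_or_gt q 0 with h7 | h7
  · exact ha4 q h5 h7
  · exact hb4 q h7.le h6

/-- **The tent lemma.** -/
theorem tent_lemma [NeZero L] (h : CycWalk L w D) {r : ℕ} (hr : 2 * r ≤ L) :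
    ∃ lam : ZMod (2 * L) → ℝ, (∀ x, 0 ≤ lam x) ∧ (∀ x, lam x ≠ 0 → Up w x) ∧
      ∑ x, lam x = 1 ∧ ∀ p, (r : ℝ) - D p ≤ ∑ x, lam x * tent L r (x - p) := by
  classical
  have hLpos : 0 < L := Nat.pos_of_ne_zero (NeZero.ne L)
  obtain ⟨b0, hb0⟩ := exists_up h
  choose X Y C hC0 hC1 hX hY hdat using exists_data h r
  set S : Finset (ZMod (2 * L)) := Finset.univ.filter (fun s => Low D r s) with hS
  have hcard : S.card ≤ 2 * r := budget h hr
  -- weight of one step
  let W : ℝ := 1 / (2 * r)
  have hW0 : 0 ≤ W := by positivity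
  have hWS : (S.card : ℝ) * W ≤ 1 := by
    rcases Nat.eq_zero_or_pos r with h0 | h0
    · simp [W, h0]
    · have h1 : (0 : ℝ) < 2 * r := by positivity
      simp only [W]
      rw [mul_one_div, div_le_one h1]
      exact_mod_cast hcard
  let lam : ZMod (2 * L) → ℝ := fun z =>
    ∑ s ∈ S, W * (C s * (if z = s + (X s : ZMod (2 * L)) then 1 else 0) +
      (1 - C s) * (if z = s + (Y s : ZMod (2 * L)) then 1 else 0)) +
    (1 - S.card * W) * (if z = b0 then 1 else 0)
  have hpair : ∀ F : ZMod (2 * L) → ℝ, ∑ z, lam z * F z =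
      ∑ s ∈ S, W * (C s * F (s + (X s : ZMod (2 * L))) + (1 - C s) * F (s + (Y s : ZMod (2 * L)))) +
      (1 - S.card * W) * F b0 := by
    intro F
    simp only [lam, add_mul, Finset.sum_add_distrib, Finset.sum_mul]
    congr 1
    · rw [Finset.sum_comm]
      refine Finset.sum_congr rfl fun s _ => ?_
      have h1 : ∀ z, W * (C s * (if z = s + (X s : ZMod (2 * L)) then 1 else 0) +
          (1 - C s) * (if z = s + (Y s : ZMod (2 * L)) then 1 else 0)) * F z =
          (if z = s + (X s : ZMod (2 * L)) then W * C s * F z else 0) +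
          (if z = s + (Y s : ZMod (2 * L)) then W * (1 - C s) * F z else 0) := by
        intro z
        split_ifs <;> ring
      simp only [h1, Finset.sum_add_distrib, Finset.sum_ite_eq', Finset.mem_univ, if_true]
      ring
    · have h1 : ∀ z, (1 - (S.card : ℝ) * W) * (if z = b0 then 1 else 0) * F z =
          (if z = b0 then (1 - (S.card : ℝ) * W) * F z else 0) := by
        intro z
        split_ifs <;> ring
      simp only [h1, Finset.sum_ite_eq', Finset.mem_univ, if_true]
  refine ⟨lam, ?_, ?_, ?_, ?_⟩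
  · intro z
    simp only [lam]
    refine add_nonneg (Finset.sum_nonneg fun s _ => mul_nonneg hW0 (add_nonneg ?_ ?_)) ?_
    · exact mul_nonneg (hC0 s) (by split_ifs <;> norm_num)
    · exact mul_nonneg (by linarith [hC1 s]) (by split_ifs <;> norm_num)
    · exact mul_nonneg (by linarith) (by split_ifs <;> norm_num)
  · intro z hz
    by_contra hno
    apply hz
    simp only [lam]
    have h1 : ∀ s, z ≠ s + (X s : ZMod (2 * L)) := fun s h2 => hno (h2 ▸ hX s)
    have h2 : ∀ s, z ≠ s + (Y s : ZMod (2 * L)) := fun s h2 => hno (h2 ▸ hY s)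
    have h3 : z ≠ b0 := fun h2 => hno (h2 ▸ hb0)
    simp [h1, h2, h3]
  · have h1 := hpair (fun _ => 1)
    simp only [mul_one] at h1
    rw [h1]
    have h2 : ∀ s ∈ S, W * (C s + (1 - C s)) = W := fun s _ => by ring
    rw [Finset.sum_congr rfl h2, Finset.sum_const, nsmul_eq_mul]
    ring
  · intro p
    rw [hpair (fun z => tent L r (z - p))]
    have hrest : 0 ≤ (1 - (S.card : ℝ) * W) * tent L r (b0 - p) :=
      mul_nonneg (by linarith) (tent_nonneg _ _ _)
    have hterm : ∀ s, 0 ≤ W * (C s * tent L r (s + (X s : ZMod (2 * L)) - p) +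
        (1 - C s) * tent L r (s + (Y s : ZMod (2 * L)) - p)) := fun s =>
      mul_nonneg hW0 (add_nonneg (mul_nonneg (hC0 s) (tent_nonneg _ _ _))
        (mul_nonneg (by linarith [hC1 s]) (tent_nonneg _ _ _)))
    by_cases hp : D p < r
    swap
    · push Not at hp
      have h1 : (r : ℝ) ≤ D p := by exact_mod_cast hp
      have h2 : 0 ≤ ∑ s ∈ S, W * (C s * tent L r (s + (X s : ZMod (2 * L)) - p) +
        (1 - C s) * tent L r (s + (Y s : ZMod (2 * L)) - p)) :=
        Finset.sum_nonneg fun s _ => hterm s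
      linarith
    obtain ⟨a, b, ha, hb, haL, hbL, hDa, hDb, hin⟩ := exists_radii h hr hp
    -- the steps of the cluster
    have hinj : Set.InjOn (fun j : ℤ => p + (j : ZMod (2 * L))) (Finset.Ico a b : Finset ℤ) := by
      intro j hj j' hj' heq
      simp only [Finset.coe_Ico, Set.mem_Ico] at hj hj'
      have h1 : ((j : ℤ) : ZMod (2 * L)) = ((j' : ℤ) : ZMod (2 * L)) := add_left_cancel heq
      rw [ZMod.intCast_eq_intCast_iff_dvd_sub] at h1
      have h2 : |j' - j| < ((2 * L : ℕ) : ℤ) := by
        rw [abs_lt]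
        push_cast
        constructor <;> omega
      have := Int.eq_zero_of_abs_lt_dvd h1 h2
      omega
    have hlow : ∀ j ∈ Finset.Ico a b, p + (j : ZMod (2 * L)) ∈ S := by
      intro j hj
      simp only [Finset.mem_Ico] at hj
      simp only [hS, Finset.mem_filter, Finset.mem_univ, true_and, Low]
      have hle : ∀ q : ℤ, a ≤ q → q ≤ b → D (p + (q : ZMod (2 * L))) ≤ r := by
        intro q h1 h2
        rcases eq_or_lt_of_le h1 with h3 | h3
        · rw [← h3]; omega
        rcases eq_or_lt_of_le h2 with h4 | h4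
        · rw [h4]; omega
        · exact (hin q h3 h4).le
      refine ⟨hle j hj.1 hj.2.le, ?_⟩
      have h1 := hle (j + 1) (by omega) (by omega)
      have h2 : p + (j : ZMod (2 * L)) + 1 = p + ((j + 1 : ℤ) : ZMod (2 * L)) := by
        push_cast
        ring
      rw [h2]
      exact h1
    have hcardab : (b - a).toNat ≤ 2 * r := by
      rw [← Int.card_Ico]
      refine le_trans (Finset.card_le_card_of_injOn (fun j : ℤ => p + (j : ZMod (2 * L)))
        (fun j hj => hlow j (by simpa using hj)) hinj) hcard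
    have hab : b - a ≤ 2 * r := by omega
    have hrpos : 0 < r := by omega
    -- lower bound for one step
    have hstep : ∀ j ∈ Finset.Ico a b, W * ((r : ℝ) - (((b : ℝ) - a) / 2 - (r - D p))) ≤
        W * (C (p + (j : ZMod (2 * L))) *
            tent L r (p + (j : ZMod (2 * L)) + (X (p + (j : ZMod (2 * L))) : ZMod (2 * L)) - p) +
          (1 - C (p + (j : ZMod (2 * L)))) *
            tent L r (p + (j : ZMod (2 * L)) + (Y (p + (j : ZMod (2 * L))) : ZMod (2 * L)) - p)) := by
      intro j hj
      simp only [Finset.mem_Ico] at hj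
      refine mul_le_mul_of_nonneg_left ?_ hW0
      set s : ZMod (2 * L) := p + (j : ZMod (2 * L)) with hs
      have hsq : ∀ q : ℤ, s + ((q - j : ℤ) : ZMod (2 * L)) = p + (q : ZMod (2 * L)) := by
        intro q
        rw [hs]
        push_cast
        ring
      have h1 := hdat s (a - j) (b - j) (by omega) (by omega) (by rw [hsq]; exact hDa)
        (by rw [hsq]; exact hDb)
        (by
          intro q h2 h3
          have := hin (q + j) (by omega) (by omega)
          have h4 := hsq (q + j)
          rw [add_sub_cancel_right] at h4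
          rw [h4]
          exact this)
        (0 - j) (by omega) (by omega)
      rw [hsq 0] at h1
      simp only [Int.cast_zero, add_zero] at h1
      have e1 : s + (X s : ZMod (2 * L)) - p = ((j + X s : ℤ) : ZMod (2 * L)) := by
        rw [hs]
        push_cast
        ring
      have e2 : s + (Y s : ZMod (2 * L)) - p = ((j + Y s : ℤ) : ZMod (2 * L)) := by
        rw [hs]
        push_cast
        ring
      have t1 := le_tent L r (j + X s)
      have t2 := le_tent L r (j + Y s)
      rw [← e1] at t1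
      rw [← e2] at t2
      have a1 : |((0 - j : ℤ) : ℝ) - (X s : ℝ)| = |((j + X s : ℤ) : ℝ)| := by
        rw [← abs_neg]
        congr 1
        push_cast
        ring
      have a2 : |((0 - j : ℤ) : ℝ) - (Y s : ℝ)| = |((j + Y s : ℤ) : ℝ)| := by
        rw [← abs_neg]
        congr 1
        push_cast
        ring
      rw [a1, a2] at h1
      have h5 := mul_le_mul_of_nonneg_left t1 (hC0 s)
      have h6 := mul_le_mul_of_nonneg_left t2 (by linarith [hC1 s] : (0 : ℝ) ≤ 1 - C s)
      have h7 : (((b - j : ℤ) : ℝ) - ((a - j : ℤ) : ℝ)) / 2 = ((b : ℝ) - a) / 2 := by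
        push_cast
        ring
      rw [h7] at h1
      nlinarith [h1, h5, h6]
    -- sum over the cluster
    have hsum : ∑ j ∈ Finset.Ico a b, W * ((r : ℝ) - (((b : ℝ) - a) / 2 - (r - D p))) ≤
        ∑ s ∈ S, W * (C s * tent L r (s + (X s : ZMod (2 * L)) - p) +
        (1 - C s) * tent L r (s + (Y s : ZMod (2 * L)) - p)) := by
      refine le_trans (Finset.sum_le_sum hstep) ?_
      rw [← Finset.sum_image (f := fun s => W * (C s * tent L r (s + (X s : ZMod (2 * L)) - p) +
        (1 - C s) * tent L r (s + (Y s : ZMod (2 * L)) - p))) hinj]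
      refine Finset.sum_le_sum_of_subset_of_nonneg ?_ (fun s _ _ => hterm s)
      intro s hs
      rw [Finset.mem_image] at hs
      obtain ⟨j, hj, rfl⟩ := hs
      exact hlow j hj
    rw [Finset.sum_const, nsmul_eq_mul, Int.card_Ico] at hsum
    have hcast : (((b - a).toNat : ℕ) : ℝ) = (b : ℝ) - a := by
      have : ((b - a).toNat : ℤ) = b - a := Int.toNat_of_nonneg (by omega)
      have h2 : (((b - a).toNat : ℤ) : ℝ) = ((b - a : ℤ) : ℝ) := by rw [this]
      push_cast at h2
      exact h2
    rw [hcast] at hsum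
    -- heights
    have hh1 : ((r : ℝ) - D p) ≤ b := by
      have h1 := walk_le (h.walk p) hb.le
      simp only [Int.cast_zero, add_zero] at h1
      have h2 : (r : ℤ) - D p ≤ b := by omega
      exact_mod_cast h2
    have hh2 : ((r : ℝ) - D p) ≤ -a := by
      have h1 := walk_ge (h.walk p) ha.le
      simp only [Int.cast_zero, add_zero] at h1
      have h2 : (r : ℤ) - D p ≤ -a := by omega
      exact_mod_cast h2
    have habR : (b : ℝ) - a ≤ 2 * r := by exact_mod_cast hab
    have hrR : (0 : ℝ) < 2 * r := by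
      have : (0 : ℝ) < r := by exact_mod_cast hrpos
      linarith
    have hfin : ((r : ℝ) - D p) ≤
        ((b : ℝ) - a) * (W * ((r : ℝ) - (((b : ℝ) - a) / 2 - (r - D p)))) := by
      have e : ((b : ℝ) - a) * (W * ((r : ℝ) - (((b : ℝ) - a) / 2 - (r - D p)))) =
          (((b : ℝ) - a) * ((r : ℝ) - (((b : ℝ) - a) / 2 - (r - D p)))) / (2 * r) := by
        simp only [W]
        field_simp
      rw [e, le_div_iff₀ hrR]
      nlinarith [mul_nonneg (by linarith : (0 : ℝ) ≤ 2 * r - (b - a))
        (by linarith : (0 : ℝ) ≤ (b - a) / 2 - ((r : ℝ) - D p))]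
    linarith

end Pool.Agent.H69L
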