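import Mathlib

/-!
Choice of a solution with a small value of an odd function: a parity count.

`F k s j` are integer functions of a time `s` and a distance `j`, both in `0 .. N`, with bounded
steps, below the level `c k` for `j = 0` and above it for `j = N`, the same for `s = 0` and
`s = N`; `b s τ` changes its sign when `s = 0` is replaced by `s = N`.  Then there are `s` and
`τ` with all the `F k s (τ k)` near their levels and `b s τ` near `0`.
-/

set_option autoImplicit false
set_option linter.unusedSectionVars false

namespace Pool.Agent.H69L.Sel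

open Finset

variable {ι : Type*} [DecidableEq ι]

/-- The iterated sum over the crossings. -/
def itSum (N : ℕ) (h : ι → ℕ → ZMod 2) : List ι → ((ι → ℕ) → ZMod 2) → (ι → ℕ) → ZMod 2
  | [], β, τ => β τ
  | k :: l, β, τ => ∑ j ∈ range N, (h k j + h k (j + 1)) * itSum N h l β (Function.update τ k j)

variable {N : ℕ}

lemma itSum_add (h : ι → ℕ → ZMod 2) (l : List ι) (β γ : (ι → ℕ) → ZMod 2) (τ : ι → ℕ) :
    itSum N h l (fun t => β t + γ t) τ = itSum N h l β τ + itSum N h l γ τ := by
  induction l generalizing τ with
  | nil => rfl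
  | cons k l ih =>
    simp only [itSum]
    rw [← Finset.sum_add_distrib]
    refine Finset.sum_congr rfl fun j _ => ?_
    rw [ih, mul_add]

lemma telescope (g : ℕ → ZMod 2) (N : ℕ) : ∑ j ∈ range N, (g j + g (j + 1)) = g 0 + g N := by
  induction N with
  | zero =>
    rw [Finset.sum_range_zero]
    exact (CharTwo.add_self_eq_zero _).symm
  | succ N ih =>
    rw [Finset.sum_range_succ, ih]
    have := CharTwo.add_self_eq_zero (g N)
    linear_combination this

lemma itSum_one (h : ι → ℕ → ZMod 2) (l : List ι) (h0 : ∀ k ∈ l, h k 0 = 0) (h1 : ∀ k ∈ l, h k N = 1)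
    (τ : ι → ℕ) : itSum N h l (fun _ => 1) τ = 1 := by
  induction l generalizing τ with
  | nil => rfl
  | cons k l ih =>
    simp only [itSum]
    have e : ∀ j, itSum N h l (fun _ => 1) (Function.update τ k j) = 1 := fun j =>
      ih (fun k' hk' => h0 k' (List.mem_cons_of_mem _ hk')) (fun k' hk' => h1 k' (List.mem_cons_of_mem _ hk')) _
    simp only [e, mul_one]
    rw [telescope, h0 k List.mem_cons_self, h1 k List.mem_cons_self, zero_add]

/-- The sum only sees the crossings. -/
lemma itSum_zero (h : ι → ℕ → ZMod 2) (l : List ι) (hl : l.Nodup) (γ : (ι → ℕ) → ZMod 2)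
    (τ : ι → ℕ)
    (hγ : ∀ t : ι → ℕ, (∀ k ∈ l, t k < N ∧ h k (t k) + h k (t k + 1) ≠ 0) →
      (∀ k, k ∉ l → t k = τ k) → γ t = 0) :
    itSum N h l γ τ = 0 := by
  induction l generalizing τ with
  | nil =>
    exact hγ τ (fun k hk => absurd hk (List.not_mem_nil)) (fun _ _ => rfl)
  | cons k l ih =>
    simp only [itSum]
    refine Finset.sum_eq_zero fun j hj => ?_
    rw [Finset.mem_range] at hj
    by_cases hc : h k j + h k (j + 1) = 0
    · rw [hc, zero_mul]
    · rw [List.nodup_cons] at hl
      rw [ih hl.2 (Function.update τ k j), mul_zero]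
      intro t ht1 ht2
      have hk : t k = j := by
        rw [ht2 k hl.1, Function.update_self]
      refine hγ t ?_ ?_
      · intro k' hk'
        rcases List.mem_cons.1 hk' with rfl | hk'
        · rw [hk]
          exact ⟨hj, hc⟩
        · exact ht1 k' hk'
      · intro k' hk'
        rw [List.mem_cons, not_or] at hk'
        rw [ht2 k' hk'.2, Function.update_of_ne hk'.1]

lemma itSum_update (h : ι → ℕ → ZMod 2) (l : List ι) {k : ι} (hk : k ∉ l) (β : (ι → ℕ) → ZMod 2)
    (τ : ι → ℕ) (c : ℕ) :
    itSum N h l β (Function.update τ k c) = itSum N h l (fun t => β (Function.update t k c)) τ := by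
  induction l generalizing τ with
  | nil => rfl
  | cons k' l ih =>
    rw [List.mem_cons, not_or] at hk
    simp only [itSum]
    refine Finset.sum_congr rfl fun j _ => ?_
    rw [Function.update_comm hk.1, ih hk.2]

/-- Summation by parts. -/
lemma by_parts (g X : ℕ → ZMod 2) (N : ℕ) (h0 : g 0 = 0) (hN : g N = 0)
    (h : ∀ j, 0 < j → j < N → g j ≠ 0 → X j = X (j - 1)) :
    ∑ j ∈ range N, (g j + g (j + 1)) * X j = 0 := by
  have key : ∀ M, M ≤ N → 0 < M → ∑ j ∈ range M, (g j + g (j + 1)) * X j = g M * X (M - 1) := by
    intro M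
    induction M with
    | zero => intro _ h; omega
    | succ M ih =>
      intro hM _
      rcases Nat.eq_zero_or_pos M with rfl | hM0
      · simp [h0]
      · rw [Finset.sum_range_succ, ih (by omega) hM0, Nat.add_sub_cancel]
        by_cases hg : g M = 0
        · rw [hg]
          ring
        · rw [h M hM0 (by omega) hg]
          have := CharTwo.add_self_eq_zero (g M * X (M - 1))
          linear_combination this
  rcases Nat.eq_zero_or_pos N with rfl | hN0
  · simp
  · rw [key N le_rfl hN0, hN, zero_mul]

/-- Change of the crossing functions. -/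
lemma itSum_change (h h' : ι → ℕ → ZMod 2) (near : ι → ℕ → Prop) (β : (ι → ℕ) → ZMod 2)
    (l : List ι) (hl : l.Nodup) (τ : ι → ℕ)
    (h0 : ∀ k ∈ l, h k 0 = h' k 0) (hN : ∀ k ∈ l, h k N = h' k N)
    (hd : ∀ k ∈ l, ∀ j, 0 < j → j < N → h k j ≠ h' k j → near k j)
    (hc : ∀ k ∈ l, ∀ j, j < N → h k j + h k (j + 1) ≠ 0 → near k j)
    (hc' : ∀ k ∈ l, ∀ j, j < N → h' k j + h' k (j + 1) ≠ 0 → near k j)
    (hβ : ∀ t : ι → ℕ, (∀ k ∈ l, t k < N ∧ near k (t k)) → (∀ k, k ∉ l → t k = τ k) →
      ∀ k ∈ l, 0 < t k → β t = β (Function.update t k (t k - 1))) :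
    itSum N h l β τ = itSum N h' l β τ := by
  induction l generalizing τ with
  | nil => rfl
  | cons k l ih =>
    rw [List.nodup_cons] at hl
    have hkl : k ∈ k :: l := List.mem_cons_self
    simp only [itSum]
    -- the inner sums
    have e1 : ∀ j ∈ range N, (h k j + h k (j + 1)) * itSum N h l β (Function.update τ k j) =
        (h k j + h k (j + 1)) * itSum N h' l β (Function.update τ k j) := by
      intro j hj
      rw [Finset.mem_range] at hj
      by_cases hcr : h k j + h k (j + 1) = 0
      · rw [hcr, zero_mul, zero_mul]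
      · congr 1
        refine ih hl.2 (Function.update τ k j) (fun k' hk' => h0 k' (List.mem_cons_of_mem _ hk'))
          (fun k' hk' => hN k' (List.mem_cons_of_mem _ hk'))
          (fun k' hk' => hd k' (List.mem_cons_of_mem _ hk'))
          (fun k' hk' => hc k' (List.mem_cons_of_mem _ hk'))
          (fun k' hk' => hc' k' (List.mem_cons_of_mem _ hk')) ?_
        intro t ht1 ht2 k' hk' hk0
        have hk : t k = j := by rw [ht2 k hl.1, Function.update_self]
        refine hβ t ?_ ?_ k' (List.mem_cons_of_mem _ hk') hk0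
        · intro k'' hk''
          rcases List.mem_cons.1 hk'' with rfl | hk''
          · rw [hk]
            exact ⟨hj, hc _ hkl j hj hcr⟩
          · exact ht1 k'' hk''
        · intro k'' hk''
          rw [List.mem_cons, not_or] at hk''
          rw [ht2 k'' hk''.2, Function.update_of_ne hk''.1]
    rw [Finset.sum_congr rfl e1]
    -- the outer sum
    have e2 : ∑ j ∈ range N, ((h k j + h' k j) + (h k (j + 1) + h' k (j + 1))) *
        itSum N h' l β (Function.update τ k j) = 0 := by
      refine by_parts (fun j => h k j + h' k j) (fun j => itSum N h' l β (Function.update τ k j)) N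
        ?_ ?_ ?_
      · simp only [h0 k hkl]
        exact CharTwo.add_self_eq_zero _
      · simp only [hN k hkl]
        exact CharTwo.add_self_eq_zero _
      · intro j hj0 hjN hg
        have hne : h k j ≠ h' k j := by
          intro he
          apply hg
          simp only [he]
          exact CharTwo.add_self_eq_zero _
        have hnear := hd k hkl j hj0 hjN hne
        have e3 : Function.update τ k (j - 1) = Function.update (Function.update τ k j) k (j - 1) := by
          rw [Function.update_idem]
        show itSum N h' l β (Function.update τ k j) = itSum N h' l β (Function.update τ k (j - 1))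
        rw [e3, itSum_update h' l hl.1 β (Function.update τ k j) (j - 1)]
        have e4 := itSum_zero (N := N) h' l hl.2 (fun t => β t + β (Function.update t k (j - 1)))
          (Function.update τ k j) (by
            intro t ht1 ht2
            have hk : t k = j := by rw [ht2 k hl.1, Function.update_self]
            have := hβ t (by
                intro k'' hk''
                rcases List.mem_cons.1 hk'' with rfl | hk''
                · rw [hk]
                  exact ⟨hjN, hnear⟩
                · obtain ⟨a1, a2⟩ := ht1 k'' hk''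
                  exact ⟨a1, hc' k'' (List.mem_cons_of_mem _ hk'') _ a1 a2⟩)
              (by
                intro k'' hk''
                rw [List.mem_cons, not_or] at hk''
                rw [ht2 k'' hk''.2, Function.update_of_ne hk''.1]) k hkl (by omega)
            rw [hk] at this
            rw [this]
            exact CharTwo.add_self_eq_zero _)
        rw [itSum_add] at e4
        have e5 := CharTwo.add_self_eq_zero
          (itSum N h' l (fun t => β (Function.update t k (j - 1))) (Function.update τ k j))
        linear_combination e4 - e5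
    have e6 : ∑ j ∈ range N, (h k j + h k (j + 1)) * itSum N h' l β (Function.update τ k j) +
        ∑ j ∈ range N, (h' k j + h' k (j + 1)) * itSum N h' l β (Function.update τ k j) = 0 := by
      rw [← Finset.sum_add_distrib, ← e2]
      refine Finset.sum_congr rfl fun j _ => ?_
      ring
    have e7 := CharTwo.add_self_eq_zero
      (∑ j ∈ range N, (h' k j + h' k (j + 1)) * itSum N h' l β (Function.update τ k j))
    linear_combination e6 - e7

lemma itSum_congr (h h' : ι → ℕ → ZMod 2) (β : (ι → ℕ) → ZMod 2) (l : List ι) (τ : ι → ℕ)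
    (hh : ∀ k ∈ l, ∀ j ≤ N, h k j = h' k j) : itSum N h l β τ = itSum N h' l β τ := by
  induction l generalizing τ with
  | nil => rfl
  | cons k l ih =>
    simp only [itSum]
    refine Finset.sum_congr rfl fun j hj => ?_
    rw [Finset.mem_range] at hj
    rw [hh k List.mem_cons_self j (by omega), hh k List.mem_cons_self (j + 1) (by omega),
      ih _ fun k' hk' => hh k' (List.mem_cons_of_mem _ hk')]

/-- The side of the level. -/
def side (F : ι → ℕ → ℕ → ℤ) (c : ι → ℤ) (s : ℕ) (k : ι) (j : ℕ) : ZMod 2 :=
  if c k < F k s j then 1 else 0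

/-- The sign of the odd function. -/
def sgn (b : ℕ → (ι → ℕ) → ℤ) (s : ℕ) (t : ι → ℕ) : ZMod 2 := if 0 < b s t then 1 else 0

lemma side_cross {F : ι → ℕ → ℕ → ℤ} {c : ι → ℤ} {s : ℕ} {k : ι} {j : ℕ} {C : ℤ}
    (hF : |F k s (j + 1) - F k s j| ≤ C) (h : side F c s k j + side F c s k (j + 1) ≠ 0) :
    |F k s j - c k| ≤ C := by
  unfold side at h
  rw [abs_le] at hF ⊢
  split_ifs at h with h1 h2 h2
  · exact absurd (CharTwo.add_self_eq_zero _) h
  · omega
  · omega
  · exact absurd (add_zero _) h

lemma side_change {F : ι → ℕ → ℕ → ℤ} {c : ι → ℤ} {s : ℕ} {k : ι} {j : ℕ} {C : ℤ}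
    (hF : |F k (s + 1) j - F k s j| ≤ C) (h : side F c s k j ≠ side F c (s + 1) k j) :
    |F k s j - c k| ≤ C := by
  unfold side at h
  rw [abs_le] at hF ⊢
  split_ifs at h with h1 h2 h2
  · exact absurd rfl h
  · omega
  · omega
  · exact absurd rfl h

/-- **Selection.** -/
theorem exists_small {ι : Type*} [Fintype ι] (N : ℕ) (C : ℤ) (hC : 0 ≤ C)
    (F : ι → ℕ → ℕ → ℤ) (c : ι → ℤ) (b : ℕ → (ι → ℕ) → ℤ)
    (h0 : ∀ k, ∀ s ≤ N, F k s 0 ≤ c k) (hN : ∀ k, ∀ s ≤ N, c k < F k s N)
    (hper : ∀ k, ∀ j ≤ N, F k N j = F k 0 j)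
    (hFj : ∀ k, ∀ s ≤ N, ∀ j < N, |F k s (j + 1) - F k s j| ≤ C)
    (hFs : ∀ k, ∀ s < N, ∀ j ≤ N, |F k (s + 1) j - F k s j| ≤ C)
    (hodd : ∀ t : ι → ℕ, (∀ k, t k ≤ N) → b N t = - b 0 t)
    (hbs : ∀ s < N, ∀ t : ι → ℕ, (∀ k, t k ≤ N) → |b (s + 1) t - b s t| ≤ C)
    (hbt : ∀ s ≤ N, ∀ t : ι → ℕ, (∀ k, t k ≤ N) → ∀ k, 0 < t k → ∀ t' : ι → ℕ,
      (∀ k', k' ≠ k → t' k' = t k') → t' k = t k - 1 → |b s t - b s t'| ≤ C) :
    ∃ s ≤ N, ∃ t : ι → ℕ, (∀ k, t k ≤ N) ∧ (∀ k, |F k s (t k) - c k| ≤ 2 * C) ∧ |b s t| ≤ C := by
  classical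
  by_contra hcon
  push Not at hcon
  have hno : ∀ s ≤ N, ∀ t : ι → ℕ, (∀ k, t k ≤ N) → (∀ k, |F k s (t k) - c k| ≤ 2 * C) →
      C < |b s t| := hcon
  set l : List ι := Finset.univ.toList with hl
  have hnd : l.Nodup := Finset.nodup_toList _
  have hmem : ∀ k, k ∈ l := fun k => Finset.mem_toList.2 (Finset.mem_univ k)
  let τ : ι → ℕ := fun _ => 0
  have side0 : ∀ k, ∀ s ≤ N, side F c s k 0 = 0 := by
    intro k s hs
    unfold side
    rw [if_neg (by have := h0 k s hs; omega)]
  have sideN : ∀ k, ∀ s ≤ N, side F c s k N = 1 := by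
    intro k s hs
    unfold side
    rw [if_pos (hN k s hs)]
  -- one step in time
  have step : ∀ s < N, itSum N (side F c s) l (sgn b s) τ = itSum N (side F c (s + 1)) l (sgn b (s + 1)) τ := by
    intro s hs
    have e1 : itSum N (side F c s) l (sgn b s) τ = itSum N (side F c (s + 1)) l (sgn b s) τ := by
      refine itSum_change (side F c s) (side F c (s + 1)) (fun k j => |F k s j - c k| ≤ 2 * C)
        (sgn b s) l hnd τ ?_ ?_ ?_ ?_ ?_ ?_
      · intro k _
        rw [side0 k s hs.le, side0 k (s + 1) hs]
      · intro k _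
        rw [sideN k s hs.le, sideN k (s + 1) hs]
      · intro k _ j _ hj h
        have := side_change (hFs k s hs j hj.le) h
        show |F k s j - c k| ≤ 2 * C
        omega
      · intro k _ j hj h
        have := side_cross (hFj k s hs.le j hj) h
        show |F k s j - c k| ≤ 2 * C
        omega
      · intro k _ j hj h
        have h1 := side_cross (hFj k (s + 1) hs j hj) h
        have h2 := hFs k s hs j hj.le
        show |F k s j - c k| ≤ 2 * C
        rw [abs_le] at h1 h2 ⊢
        omega
      · intro t ht _ k _ hk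
        have htN : ∀ k, t k ≤ N := fun k => (ht k (hmem k)).1.le
        have h1 := hno s hs.le t htN (fun k => (ht k (hmem k)).2)
        have h2 := hbt s hs.le t htN k hk (Function.update t k (t k - 1))
          (fun k' hk' => Function.update_of_ne hk' _ _) (Function.update_self _ _ _)
        unfold sgn
        by_contra hne
        rw [lt_abs] at h1
        rw [abs_le] at h2
        split_ifs at hne with h3 h4 h4
        · exact hne rfl
        · omega
        · omega
        · exact hne rfl
    have e2 : itSum N (side F c (s + 1)) l (fun t => sgn b s t + sgn b (s + 1) t) τ = 0 := by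
      refine itSum_zero _ l hnd _ τ ?_
      intro t ht _
      have htN : ∀ k, t k ≤ N := fun k => (ht k (hmem k)).1.le
      have h1 := hno (s + 1) hs t htN (fun k => by
        have := side_cross (hFj k (s + 1) hs _ (ht k (hmem k)).1) (ht k (hmem k)).2
        omega)
      have h2 := hbs s hs t htN
      unfold sgn
      rw [lt_abs] at h1
      rw [abs_le] at h2
      split_ifs with h3 h4 h4
      · exact CharTwo.add_self_eq_zero _
      · omega
      · omega
      · exact add_zero _
    rw [itSum_add] at e2
    have e3 := CharTwo.add_self_eq_zero (itSum N (side F c (s + 1)) l (sgn b (s + 1)) τ)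
    rw [e1]
    linear_combination e2 - e3
  have all : ∀ s ≤ N, itSum N (side F c 0) l (sgn b 0) τ = itSum N (side F c s) l (sgn b s) τ := by
    intro s
    induction s with
    | zero => intro _; rfl
    | succ s ih =>
      intro hs
      rw [ih (by omega), step s (by omega)]
  have e1 := all N le_rfl
  have e2 : itSum N (side F c N) l (sgn b N) τ = itSum N (side F c 0) l (sgn b N) τ := by
    refine itSum_congr _ _ _ l τ ?_
    intro k _ j hj
    unfold side
    rw [hper k j hj]
  have e3 : itSum N (side F c 0) l (fun t => (sgn b 0 t + sgn b N t) + 1) τ = 0 := by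
    refine itSum_zero _ l hnd _ τ ?_
    intro t ht _
    have htN : ∀ k, t k ≤ N := fun k => (ht k (hmem k)).1.le
    have h1 := hno 0 (Nat.zero_le _) t htN (fun k => by
      have := side_cross (hFj k 0 (Nat.zero_le _) _ (ht k (hmem k)).1) (ht k (hmem k)).2
      omega)
    have h2 := hodd t htN
    unfold sgn
    rw [lt_abs] at h1
    split_ifs with h3 h4 h4
    · omega
    · rw [add_zero]
      exact CharTwo.add_self_eq_zero _
    · rw [zero_add]
      exact CharTwo.add_self_eq_zero _
    · omega
  rw [itSum_add, itSum_add, itSum_one (N := N) (side F c 0) l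
    (fun k _ => side0 k 0 (Nat.zero_le _)) (fun k _ => sideN k 0 (Nat.zero_le _)) τ, ← e2, ← e1,
    CharTwo.add_self_eq_zero, zero_add] at e3
  exact one_ne_zero e3

end Pool.Agent.H69L.Sel
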