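import Pool.Agent.H69L.Sel

/-!
Sorted version of the selection lemma: one function `f s j`, several levels, and the crossings are
chosen in increasing order.
-/

set_option autoImplicit false

namespace Pool.Agent.H69L.Sel

open Finset

/-- The iterated sum over the sorted crossings: `t (m-1) < M`, `t (k) < t (k+1)`. -/
def itS (h : ℕ → ℕ → ZMod 2) : ℕ → ℕ → ((ℕ → ℕ) → ZMod 2) → (ℕ → ℕ) → ZMod 2
  | 0, _, β, τ => β τ
  | m + 1, M, β, τ => ∑ j ∈ range M, (h m j + h m (j + 1)) * itS h m j β (Function.update τ m j)

lemma itS_add (h : ℕ → ℕ → ZMod 2) (m M : ℕ) (β γ : (ℕ → ℕ) → ZMod 2) (τ : ℕ → ℕ) :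
    itS h m M (fun t => β t + γ t) τ = itS h m M β τ + itS h m M γ τ := by
  induction m generalizing M τ with
  | zero => rfl
  | succ m ih =>
    simp only [itS]
    rw [← Finset.sum_add_distrib]
    refine Finset.sum_congr rfl fun j _ => ?_
    rw [ih, mul_add]

lemma itS_one (h : ℕ → ℕ → ZMod 2) (m M : ℕ) (τ : ℕ → ℕ) (h0 : ∀ k < m, h k 0 = 0)
    (hM : ∀ k, k + 1 = m → h k M = 1)
    (hs : ∀ k, k + 1 < m → ∀ j < M, h (k + 1) j + h (k + 1) (j + 1) ≠ 0 → h k j = 1) :
    itS h m M (fun _ => 1) τ = 1 := by
  induction m generalizing M τ with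
  | zero => rfl
  | succ m ih =>
    simp only [itS]
    have e : ∀ j ∈ range M, (h m j + h m (j + 1)) * itS h m j (fun _ => 1) (Function.update τ m j) =
        h m j + h m (j + 1) := by
      intro j hj
      rw [Finset.mem_range] at hj
      by_cases hcr : h m j + h m (j + 1) = 0
      · rw [hcr, zero_mul]
      · rw [ih j (Function.update τ m j) (fun k hk => h0 k (by omega)) ?_ ?_, mul_one]
        · intro k hk
          subst hk
          exact hs k (by omega) j hj hcr
        · intro k hk j' hj'
          exact hs k (by omega) j' (by omega)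
    rw [Finset.sum_congr rfl e, telescope, h0 m (by omega), hM m rfl, zero_add]

lemma itS_zero (h : ℕ → ℕ → ZMod 2) (m M : ℕ) (γ : (ℕ → ℕ) → ZMod 2) (τ : ℕ → ℕ)
    (hγ : ∀ t : ℕ → ℕ, (∀ k < m, t k < M ∧ h k (t k) + h k (t k + 1) ≠ 0) →
      (∀ k, k + 1 < m → t k < t (k + 1)) → (∀ k, m ≤ k → t k = τ k) → γ t = 0) :
    itS h m M γ τ = 0 := by
  induction m generalizing M τ with
  | zero =>
    exact hγ τ (fun k hk => absurd hk (by omega)) (fun k hk => absurd hk (by omega)) (fun _ _ => rfl)
  | succ m ih =>
    simp only [itS]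
    refine Finset.sum_eq_zero fun j hj => ?_
    rw [Finset.mem_range] at hj
    by_cases hc : h m j + h m (j + 1) = 0
    · rw [hc, zero_mul]
    · rw [ih j (Function.update τ m j), mul_zero]
      intro t ht1 ht2 ht3
      have hk : t m = j := by rw [ht3 m le_rfl, Function.update_self]
      refine hγ t ?_ ?_ ?_
      · intro k hk'
        rcases Nat.lt_succ_iff_lt_or_eq.1 hk' with h1 | rfl
        · exact ⟨(ht1 k h1).1.trans hj, (ht1 k h1).2⟩
        · rw [hk]
          exact ⟨hj, hc⟩
      · intro k hk'
        rcases Nat.lt_or_ge (k + 1) m with h1 | h1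
        · exact ht2 k h1
        · have h2 : k + 1 = m := by omega
          rw [h2, hk]
          exact (ht1 k (by omega)).1
      · intro k hk'
        rw [ht3 k (by omega), Function.update_of_ne (by omega)]

lemma itS_update (h : ℕ → ℕ → ZMod 2) (m M : ℕ) {k : ℕ} (hk : m ≤ k) (β : (ℕ → ℕ) → ZMod 2)
    (τ : ℕ → ℕ) (c : ℕ) :
    itS h m M β (Function.update τ k c) = itS h m M (fun t => β (Function.update t k c)) τ := by
  induction m generalizing M τ with
  | zero => rfl
  | succ m ih =>
    simp only [itS]
    refine Finset.sum_congr rfl fun j _ => ?_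
    rw [Function.update_comm (by omega : k ≠ m), ih j (by omega)]

lemma itS_bound (h : ℕ → ℕ → ZMod 2) (m j : ℕ) (β : (ℕ → ℕ) → ZMod 2) (τ : ℕ → ℕ) (hj : 0 < j)
    (hc : ∀ k, k + 1 = m → h k (j - 1) + h k j = 0) :
    itS h m j β τ = itS h m (j - 1) β τ := by
  cases m with
  | zero => rfl
  | succ m =>
    simp only [itS]
    obtain ⟨i, rfl⟩ : ∃ i, j = i + 1 := ⟨j - 1, by omega⟩
    rw [Finset.sum_range_succ, Nat.add_sub_cancel]
    have := hc m rfl
    rw [Nat.add_sub_cancel] at this
    rw [this, zero_mul, add_zero]

/-- Change of the crossing functions, sorted version. -/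
lemma itS_change (h h' : ℕ → ℕ → ZMod 2) (near : ℕ → ℕ → Prop) (β : (ℕ → ℕ) → ZMod 2)
    (m M : ℕ) (τ : ℕ → ℕ)
    (h0 : ∀ k < m, h k 0 = h' k 0) (hM : ∀ k, k + 1 = m → h k M = h' k M)
    (hd : ∀ k < m, ∀ j, 0 < j → j < M → h k j ≠ h' k j → near k j)
    (hc : ∀ k < m, ∀ j, j < M → h k j + h k (j + 1) ≠ 0 → near k j)
    (hc' : ∀ k < m, ∀ j, j < M → h' k j + h' k (j + 1) ≠ 0 → near k j)
    (hs : ∀ k, k + 1 < m → ∀ j < M, near (k + 1) j → h k j = h' k j)
    (hs' : ∀ k, k + 1 < m → ∀ j < M, 0 < j → near (k + 1) j → h' k (j - 1) + h' k j = 0)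
    (hβ : ∀ t : ℕ → ℕ, (∀ k < m, t k < M ∧ near k (t k)) → (∀ k, k + 1 < m → t k < t (k + 1)) →
      (∀ k, m ≤ k → t k = τ k) →
      ∀ k < m, 0 < t k → β t = β (Function.update t k (t k - 1))) :
    itS h m M β τ = itS h' m M β τ := by
  induction m generalizing M τ with
  | zero => rfl
  | succ m ih =>
    simp only [itS]
    have e1 : ∀ j ∈ range M, (h m j + h m (j + 1)) * itS h m j β (Function.update τ m j) =
        (h m j + h m (j + 1)) * itS h' m j β (Function.update τ m j) := by
      intro j hj
      rw [Finset.mem_range] at hj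
      by_cases hcr : h m j + h m (j + 1) = 0
      · rw [hcr, zero_mul, zero_mul]
      · congr 1
        have hnear := hc m (by omega) j hj hcr
        refine ih j (Function.update τ m j) (fun k hk => h0 k (by omega)) ?_
          (fun k hk j' hj0 hj' => hd k (by omega) j' hj0 (by omega))
          (fun k hk j' hj' => hc k (by omega) j' (by omega))
          (fun k hk j' hj' => hc' k (by omega) j' (by omega))
          (fun k hk j' hj' => hs k (by omega) j' (by omega))
          (fun k hk j' hj' => hs' k (by omega) j' (by omega)) ?_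
        · intro k hk
          subst hk
          exact hs k (by omega) j hj hnear
        · intro t ht1 hts ht2 k hk hk0
          have hk' : t m = j := by rw [ht2 m le_rfl, Function.update_self]
          refine hβ t ?_ ?_ ?_ k (by omega) hk0
          · intro k' hk''
            rcases Nat.lt_succ_iff_lt_or_eq.1 hk'' with h1 | rfl
            · exact ⟨(ht1 k' h1).1.trans hj, (ht1 k' h1).2⟩
            · rw [hk']
              exact ⟨hj, hnear⟩
          · intro k' hk''
            rcases Nat.lt_or_ge (k' + 1) m with h1 | h1
            · exact hts k' h1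
            · have h2 : k' + 1 = m := by omega
              rw [h2, hk']
              exact (ht1 k' (by omega)).1
          · intro k' hk''
            rw [ht2 k' (by omega), Function.update_of_ne (by omega)]
    rw [Finset.sum_congr rfl e1]
    have e2 : ∑ j ∈ range M, ((h m j + h' m j) + (h m (j + 1) + h' m (j + 1))) *
        itS h' m j β (Function.update τ m j) = 0 := by
      refine by_parts (fun j => h m j + h' m j) (fun j => itS h' m j β (Function.update τ m j)) M
        ?_ ?_ ?_
      · simp only [h0 m (by omega)]
        exact CharTwo.add_self_eq_zero _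
      · simp only [hM m rfl]
        exact CharTwo.add_self_eq_zero _
      · intro j hj0 hjM hg
        have hne : h m j ≠ h' m j := by
          intro he
          apply hg
          simp only [he]
          exact CharTwo.add_self_eq_zero _
        have hnear := hd m (by omega) j hj0 hjM hne
        have e3 : Function.update τ m (j - 1) = Function.update (Function.update τ m j) m (j - 1) := by
          rw [Function.update_idem]
        show itS h' m j β (Function.update τ m j) = itS h' m (j - 1) β (Function.update τ m (j - 1))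
        rw [← itS_bound h' m j β (Function.update τ m (j - 1)) hj0 ?_, e3,
          itS_update h' m j le_rfl β (Function.update τ m j) (j - 1)]
        · have e4 := itS_zero h' m j (fun t => β t + β (Function.update t m (j - 1)))
            (Function.update τ m j) (by
              intro t ht1 hts ht2
              have hk : t m = j := by rw [ht2 m le_rfl, Function.update_self]
              have := hβ t (by
                  intro k'' hk''
                  rcases Nat.lt_succ_iff_lt_or_eq.1 hk'' with h1 | rfl
                  · obtain ⟨a1, a2⟩ := ht1 k'' h1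
                    exact ⟨a1.trans hjM, hc' k'' (by omega) _ (a1.trans hjM) a2⟩
                  · rw [hk]
                    exact ⟨hjM, hnear⟩)
                (by
                  intro k'' hk''
                  rcases Nat.lt_or_ge (k'' + 1) m with h1 | h1
                  · exact hts k'' h1
                  · have h2 : k'' + 1 = m := by omega
                    rw [h2, hk]
                    exact (ht1 k'' (by omega)).1)
                (by
                  intro k'' hk''
                  rw [ht2 k'' (by omega), Function.update_of_ne (by omega)]) m (by omega) (by omega)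
              rw [hk] at this
              rw [this]
              exact CharTwo.add_self_eq_zero _)
          rw [itS_add] at e4
          have e5 := CharTwo.add_self_eq_zero
            (itS h' m j (fun t => β (Function.update t m (j - 1))) (Function.update τ m j))
          linear_combination e4 - e5
        · intro k hk
          subst hk
          exact hs' k (by omega) j hjM hj0 hnear
    have e6 : ∑ j ∈ range M, (h m j + h m (j + 1)) * itS h' m j β (Function.update τ m j) +
        ∑ j ∈ range M, (h' m j + h' m (j + 1)) * itS h' m j β (Function.update τ m j) = 0 := by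
      rw [← Finset.sum_add_distrib, ← e2]
      refine Finset.sum_congr rfl fun j _ => ?_
      ring
    have e7 := CharTwo.add_self_eq_zero
      (∑ j ∈ range M, (h' m j + h' m (j + 1)) * itS h' m j β (Function.update τ m j))
    linear_combination e6 - e7

/-- **Sorted selection.** -/
theorem exists_sorted (N m : ℕ) (C : ℤ) (hC : 0 ≤ C)
    (f : ℕ → ℕ → ℤ) (c : ℕ → ℤ) (b : ℕ → (ℕ → ℕ) → ℤ)
    (hsep : ∀ k, k + 1 < m → c k + 4 * C < c (k + 1))
    (h0 : ∀ k < m, ∀ s ≤ N, f s 0 ≤ c k) (hN : ∀ k < m, ∀ s ≤ N, c k < f s N)
    (hper : ∀ j ≤ N, f N j = f 0 j)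
    (hfj : ∀ s ≤ N, ∀ j < N, |f s (j + 1) - f s j| ≤ C)
    (hfs : ∀ s < N, ∀ j ≤ N, |f (s + 1) j - f s j| ≤ C)
    (hodd : ∀ t : ℕ → ℕ, (∀ k, t k ≤ N) → b N t = - b 0 t)
    (hbs : ∀ s < N, ∀ t : ℕ → ℕ, (∀ k, t k ≤ N) → |b (s + 1) t - b s t| ≤ C)
    (hbt : ∀ s ≤ N, ∀ t : ℕ → ℕ, (∀ k, t k ≤ N) → ∀ k < m, 0 < t k →
      |b s t - b s (Function.update t k (t k - 1))| ≤ C) :
    ∃ s ≤ N, ∃ t : ℕ → ℕ, (∀ k, t k ≤ N) ∧ (∀ k, k + 1 < m → t k < t (k + 1)) ∧
      (∀ k < m, |f s (t k) - c k| ≤ 2 * C) ∧ |b s t| ≤ C := by
  classical
  by_contra hcon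
  push Not at hcon
  have hno : ∀ s ≤ N, ∀ t : ℕ → ℕ, (∀ k, t k ≤ N) → (∀ k, k + 1 < m → t k < t (k + 1)) →
      (∀ k < m, |f s (t k) - c k| ≤ 2 * C) → C < |b s t| := hcon
  let τ : ℕ → ℕ := fun _ => 0
  let F : ℕ → ℕ → ℕ → ℤ := fun _ s j => f s j
  have side0 : ∀ k < m, ∀ s ≤ N, side F c s k 0 = 0 := by
    intro k hk s hs
    unfold side
    have h1 : F k s 0 = f s 0 := rfl
    rw [if_neg (by have := h0 k hk s hs; omega)]
  have sideN : ∀ k < m, ∀ s ≤ N, side F c s k N = 1 := by
    intro k hk s hs
    unfold side
    rw [if_pos (hN k hk s hs)]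
  have top : ∀ t : ℕ → ℕ, (∀ k < m, t k < N) → (∀ k, m ≤ k → t k = τ k) → ∀ k, t k ≤ N := by
    intro t h1 h2 k
    rcases Nat.lt_or_ge k m with h3 | h3
    · exact (h1 k h3).le
    · rw [h2 k h3]
      exact Nat.zero_le _
  -- above the next level the side is one
  have above : ∀ k, k + 1 < m → ∀ s, ∀ j, c (k + 1) - 4 * C ≤ f s j → side F c s k j = 1 := by
    intro k hk s j h
    unfold side
    have h1 : F k s j = f s j := rfl
    rw [if_pos (by have := hsep k hk; omega)]
  have step : ∀ s < N, itS (side F c s) m N (sgn b s) τ =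
      itS (side F c (s + 1)) m N (sgn b (s + 1)) τ := by
    intro s hs
    have e1 : itS (side F c s) m N (sgn b s) τ = itS (side F c (s + 1)) m N (sgn b s) τ := by
      refine itS_change (side F c s) (side F c (s + 1)) (fun k j => |f s j - c k| ≤ 2 * C)
        (sgn b s) m N τ ?_ ?_ ?_ ?_ ?_ ?_ ?_ ?_
      · intro k hk
        rw [side0 k hk s hs.le, side0 k hk (s + 1) hs]
      · intro k hk
        rw [sideN k (by omega) s hs.le, sideN k (by omega) (s + 1) hs]
      · intro k _ j _ hj h
        have := side_change (F := F) (hfs s hs j hj.le) h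
        show |f s j - c k| ≤ 2 * C
        have h1 : F k s j = f s j := rfl
        rw [h1] at this
        omega
      · intro k _ j hj h
        have := side_cross (F := F) (hfj s hs.le j hj) h
        show |f s j - c k| ≤ 2 * C
        have h1 : F k s j = f s j := rfl
        rw [h1] at this
        omega
      · intro k _ j hj h
        have h1 := side_cross (F := F) (hfj (s + 1) hs j hj) h
        have h2 := hfs s hs j hj.le
        show |f s j - c k| ≤ 2 * C
        have h3 : F k (s + 1) j = f (s + 1) j := rfl
        rw [h3] at h1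
        rw [abs_le] at h1 h2 ⊢
        omega
      · intro k hk j hj h
        have h2 := hfs s hs j hj.le
        rw [abs_le] at h h2
        rw [above k hk s j (by omega), above k hk (s + 1) j (by omega)]
      · intro k hk j hj hj0 h
        have h2 := hfs s hs j hj.le
        have h3 := hfj (s + 1) hs (j - 1) (by omega)
        have e : j - 1 + 1 = j := by omega
        rw [e] at h3
        rw [abs_le] at h h2 h3
        rw [above k hk (s + 1) j (by omega), above k hk (s + 1) (j - 1) (by omega)]
        exact CharTwo.add_self_eq_zero _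
      · intro t ht hts ht3 k hk hk0
        have htN := top t (fun k hk => (ht k hk).1) ht3
        have h1 := hno s hs.le t htN hts (fun k hk => (ht k hk).2)
        have h2 := hbt s hs.le t htN k hk hk0
        unfold sgn
        by_contra hne
        rw [lt_abs] at h1
        rw [abs_le] at h2
        split_ifs at hne with h3 h4 h4
        · exact hne rfl
        · omega
        · omega
        · exact hne rfl
    have e2 : itS (side F c (s + 1)) m N (fun t => sgn b s t + sgn b (s + 1) t) τ = 0 := by
      refine itS_zero _ m N _ τ ?_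
      intro t ht hts ht3
      have htN := top t (fun k hk => (ht k hk).1) ht3
      have h1 := hno (s + 1) hs t htN hts (fun k hk => by
        have := side_cross (F := F) (hfj (s + 1) hs _ (ht k hk).1) (ht k hk).2
        have h1 : F k (s + 1) (t k) = f (s + 1) (t k) := rfl
        rw [h1] at this
        omega)
      have h2 := hbs s hs t htN
      unfold sgn
      rw [lt_abs] at h1
      rw [abs_le] at h2
      split_ifs with h3 h4 h4
      · exact CharTwo.add_self_eq_zero _
      · omega
      · omega
      · exact add_zero _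
    rw [itS_add] at e2
    have e3 := CharTwo.add_self_eq_zero (itS (side F c (s + 1)) m N (sgn b (s + 1)) τ)
    rw [e1]
    linear_combination e2 - e3
  have all : ∀ s ≤ N, itS (side F c 0) m N (sgn b 0) τ = itS (side F c s) m N (sgn b s) τ := by
    intro s
    induction s with
    | zero => intro _; rfl
    | succ s ih =>
      intro hs
      rw [ih (by omega), step s (by omega)]
  have e1 := all N le_rfl
  have econg : ∀ (h h' : ℕ → ℕ → ZMod 2) (β : (ℕ → ℕ) → ZMod 2) (m' M : ℕ) (σ : ℕ → ℕ),
      (∀ k, ∀ j ≤ M, h k j = h' k j) → itS h m' M β σ = itS h' m' M β σ := by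
    intro h h' β m'
    induction m' with
    | zero => intro M σ _; rfl
    | succ m' ih =>
      intro M σ hh
      simp only [itS]
      refine Finset.sum_congr rfl fun j hj => ?_
      rw [Finset.mem_range] at hj
      rw [hh m' j (by omega), hh m' (j + 1) (by omega), ih j _ fun k j' hj' => hh k j' (by omega)]
  have e2 : itS (side F c N) m N (sgn b N) τ = itS (side F c 0) m N (sgn b N) τ := by
    refine econg _ _ _ m N τ ?_
    intro k j hj
    unfold side
    have h1 : F k N j = f N j := rfl
    have h2 : F k 0 j = f 0 j := rfl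
    rw [h1, h2, hper j hj]
  have e3 : itS (side F c 0) m N (fun t => (sgn b 0 t + sgn b N t) + 1) τ = 0 := by
    refine itS_zero _ m N _ τ ?_
    intro t ht hts ht3
    have htN := top t (fun k hk => (ht k hk).1) ht3
    have h1 := hno 0 (Nat.zero_le _) t htN hts (fun k hk => by
      have := side_cross (F := F) (hfj 0 (Nat.zero_le _) _ (ht k hk).1) (ht k hk).2
      have h1 : F k 0 (t k) = f 0 (t k) := rfl
      rw [h1] at this
      omega)
    have h2 := hodd t htN
    unfold sgn
    rw [lt_abs] at h1
    split_ifs with h3 h4 h4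
    · omega
    · rw [add_zero]
      exact CharTwo.add_self_eq_zero _
    · rw [zero_add]
      exact CharTwo.add_self_eq_zero _
    · omega
  have e4 : itS (side F c 0) m N (fun _ => 1) τ = 1 := by
    refine itS_one _ m N τ (fun k hk => side0 k hk 0 (Nat.zero_le _))
      (fun k hk => sideN k (by omega) 0 (Nat.zero_le _)) ?_
    intro k hk j hj hcr
    have h1 := side_cross (F := F) (hfj 0 (Nat.zero_le _) j hj) hcr
    have h2 : F (k + 1) 0 j = f 0 j := rfl
    rw [h2, abs_le] at h1
    exact above k hk 0 j (by omega)
  rw [itS_add, itS_add, e4, ← e2, ← e1, CharTwo.add_self_eq_zero, zero_add] at e3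
  exact one_ne_zero e3

end Pool.Agent.H69L.Sel
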