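import Pool.Agent.H69L.Sel2
import Pool.Agent.H56.EH.Def2

/-!
Choice of the base line: in a sequence of halving sets there are a base time and later times with
prescribed swept sizes (up to a constant) for which a given odd function of the words has a
bounded sum.
-/

set_option autoImplicit false
set_option linter.unusedSectionVars false

namespace Pool.Agent.H69L.Sel

open Finset Pool.Agent.H56.EH

variable {P : Type} [Fintype P] [DecidableEq P]

/-- The sequence extended to a full turn. -/
def ext (N : ℕ) (S : ℕ → Finset P) (t : ℕ) : Finset P := if t ≤ N then S t else (S (t - N))ᶜ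

variable {N : ℕ} {S : ℕ → Finset P}

lemma ext_add (h : HSeq N S) {j : ℕ} (hj : j ≤ N) : ext N S (N + j) = (ext N S j)ᶜ := by
  unfold ext
  rw [if_pos hj]
  rcases Nat.eq_zero_or_pos j with rfl | h0
  · rw [if_pos (by omega), Nat.add_zero, h.last]
  · rw [if_neg (by omega), Nat.add_sub_cancel_left]

lemma ext_card (h : HSeq N S) {t : ℕ} (ht : t ≤ 2 * N) : 2 * (ext N S t).card = Fintype.card P := by
  unfold ext
  split_ifs with h1
  · exact h.card t h1
  · have h2 := h.card (t - N) (by omega)
    have h3 := Finset.card_le_univ (S (t - N))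
    rw [Finset.card_compl]
    omega

lemma ext_step (h : HSeq N S) {t : ℕ} (ht : t < 2 * N) :
    (symmDiff (ext N S t) (ext N S (t + 1))).card ≤ 2 := by
  unfold ext
  rcases Nat.lt_trichotomy t N with h1 | h1 | h1
  · rw [if_pos h1.le, if_pos (by omega)]
    exact h.step t h1
  · subst h1
    rw [if_pos le_rfl, if_neg (by omega), Nat.add_sub_cancel_left, h.last, compl_symmDiff_compl]
    exact h.step 0 (by omega)
  · rw [if_neg (by omega), if_neg (by omega), compl_symmDiff_compl]
    have e : t + 1 - N = (t - N) + 1 := by omega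
    rw [e]
    exact h.step (t - N) (by omega)

/-- The swept size. -/
def swept (N : ℕ) (S : ℕ → Finset P) (s j : ℕ) : ℤ := ((ext N S s \ ext N S (s + j)).card : ℤ)

lemma card_sdiff_le (A A' B B' : Finset P) :
    (A \ B).card ≤ (A' \ B').card + (symmDiff A A').card + (symmDiff B B').card := by
  have h1 : A \ B ⊆ (A' \ B') ∪ symmDiff A A' ∪ symmDiff B B' := by
    intro x hx
    rw [Finset.mem_sdiff] at hx
    rw [Finset.mem_union, Finset.mem_union, Finset.mem_sdiff, Finset.mem_symmDiff, Finset.mem_symmDiff]
    tauto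
  exact (Finset.card_le_card h1).trans ((Finset.card_union_le _ _).trans
    (Nat.add_le_add_right (Finset.card_union_le _ _) _))

lemma swept_zero (s : ℕ) : swept N S s 0 = 0 := by
  unfold swept
  rw [Nat.add_zero, Finset.sdiff_self]
  simp

lemma swept_last (h : HSeq N S) {s : ℕ} (hs : s ≤ N) : 2 * swept N S s N = Fintype.card P := by
  unfold swept
  rw [Nat.add_comm s N, ext_add h hs]
  have e : ext N S s \ (ext N S s)ᶜ = ext N S s := by
    ext x
    simp
  rw [e]
  have := ext_card h (t := s) (by omega)
  exact_mod_cast this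

lemma swept_per (h : HSeq N S) {j : ℕ} (hj : j ≤ N) : swept N S N j = swept N S 0 j := by
  unfold swept
  have e0 : ext N S N = (ext N S 0)ᶜ := by
    have := ext_add h (Nat.zero_le N)
    rwa [Nat.add_zero] at this
  rw [e0, ext_add h hj, Nat.zero_add]
  have e1 : (ext N S 0)ᶜ \ (ext N S j)ᶜ = ext N S j \ ext N S 0 := by
    ext x
    simp only [Finset.mem_sdiff, Finset.mem_compl]
    tauto
  rw [e1]
  have h1 := ext_card h (t := 0) (by omega)
  have h2 := ext_card h (t := j) (by omega)
  have h3 := Finset.card_sdiff_add_card_inter (ext N S j) (ext N S 0)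
  have h4 := Finset.card_sdiff_add_card_inter (ext N S 0) (ext N S j)
  rw [Finset.inter_comm] at h4
  have : (ext N S j \ ext N S 0).card = (ext N S 0 \ ext N S j).card := by omega
  rw [this]

lemma swept_j (h : HSeq N S) {s j : ℕ} (hs : s ≤ N) (hj : j < N) :
    |swept N S s (j + 1) - swept N S s j| ≤ 2 := by
  unfold swept
  have h1 := ext_step h (t := s + j) (by omega)
  have h2 := card_sdiff_le (ext N S s) (ext N S s) (ext N S (s + j)) (ext N S (s + j + 1))
  have h3 := card_sdiff_le (ext N S s) (ext N S s) (ext N S (s + j + 1)) (ext N S (s + j))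
  rw [symmDiff_comm (ext N S (s + j + 1))] at h3
  rw [symmDiff_self] at h2 h3
  simp only [Finset.bot_eq_empty, Finset.card_empty] at h2 h3
  rw [← Nat.add_assoc, abs_le]
  constructor <;> omega

lemma swept_s (h : HSeq N S) {s j : ℕ} (hs : s < N) (hj : j ≤ N) :
    |swept N S (s + 1) j - swept N S s j| ≤ 4 := by
  unfold swept
  have h0 := ext_step h (t := s) (by omega)
  have h1 := ext_step h (t := s + j) (by omega)
  have h2 := card_sdiff_le (ext N S s) (ext N S (s + 1)) (ext N S (s + j)) (ext N S (s + j + 1))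
  have h3 := card_sdiff_le (ext N S (s + 1)) (ext N S s) (ext N S (s + j + 1)) (ext N S (s + j))
  rw [symmDiff_comm (ext N S (s + j + 1)), symmDiff_comm (ext N S (s + 1))] at h3
  have e : s + 1 + j = s + j + 1 := by omega
  rw [e, abs_le]
  constructor <;> omega

/-- The times of the lines: `0` is the base. -/
def tm (s : ℕ) (t : ℕ → ℕ) (i : ℕ) : ℕ := s + (if i = 0 then 0 else t (i - 1))

/-- The word of a point. -/
def bits (N m : ℕ) (S : ℕ → Finset P) (s : ℕ) (t : ℕ → ℕ) (u : P) : Fin (m + 1) → Bool :=
  fun i => decide (u ∈ ext N S (tm s t i.val))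

/-- The sum of a function of the words. -/
def wsum (N m : ℕ) (S : ℕ → Finset P) (φ : (Fin (m + 1) → Bool) → ℤ) (s : ℕ) (t : ℕ → ℕ) : ℤ :=
  ∑ u, φ (bits N m S s t u)

lemma wsum_sub {m : ℕ} {φ : (Fin (m + 1) → Bool) → ℤ} {A : ℤ} (hφ : ∀ w, |φ w| ≤ A)
    {s s' : ℕ} {t t' : ℕ → ℕ} (bad : Finset P)
    (hbad : ∀ u, u ∉ bad → bits N m S s t u = bits N m S s' t' u) :
    |wsum N m S φ s t - wsum N m S φ s' t'| ≤ 2 * A * bad.card := by
  unfold wsum
  rw [← Finset.sum_sub_distrib]
  have h1 : ∑ u, (φ (bits N m S s t u) - φ (bits N m S s' t' u)) =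
      ∑ u ∈ bad, (φ (bits N m S s t u) - φ (bits N m S s' t' u)) := by
    symm
    refine Finset.sum_subset (Finset.subset_univ _) ?_
    intro u _ hu
    rw [hbad u hu, sub_self]
  rw [h1]
  refine (Finset.abs_sum_le_sum_abs _ _).trans ?_
  have h2 : ∀ u ∈ bad, |φ (bits N m S s t u) - φ (bits N m S s' t' u)| ≤ 2 * A := by
    intro u _
    have h3 := hφ (bits N m S s t u)
    have h4 := hφ (bits N m S s' t' u)
    rw [abs_le] at h3 h4 ⊢
    constructor <;> omega
  refine (Finset.sum_le_sum h2).trans (le_of_eq ?_)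
  rw [Finset.sum_const, nsmul_eq_mul, mul_comm]

/-- **Choice of the base line.** -/
theorem exists_base (h : HSeq N S) (m : ℕ) (A : ℤ) (hA : 0 ≤ A) (φ : (Fin (m + 1) → Bool) → ℤ)
    (hφ : ∀ w, |φ w| ≤ A) (hodd : ∀ w, φ (fun i => !w i) = - φ w) (c : ℕ → ℤ)
    (hsep : ∀ k, k + 1 < m → c k + 4 * (4 * (A + 1) * (m + 1)) < c (k + 1))
    (hc0 : ∀ k < m, 0 ≤ c k) (hcN : ∀ k < m, 2 * c k < Fintype.card P) :
    ∃ s ≤ N, ∃ t : ℕ → ℕ, (∀ k, t k ≤ N) ∧ (∀ k, k + 1 < m → t k < t (k + 1)) ∧
      (∀ k < m, |swept N S s (t k) - c k| ≤ 2 * (4 * (A + 1) * (m + 1))) ∧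
      |wsum N m S φ s t| ≤ 4 * (A + 1) * (m + 1) := by
  classical
  set C : ℤ := 4 * (A + 1) * (m + 1) with hC
  have hm0 : (0 : ℤ) ≤ m := Nat.cast_nonneg m
  have hC4 : 4 ≤ C := by rw [hC]; nlinarith
  have hCA : 4 * A * (m + 1) ≤ C := by rw [hC]; nlinarith
  refine exists_sorted N m C (by omega) (swept N S) c (wsum N m S φ) hsep ?_ ?_ ?_ ?_ ?_ ?_ ?_ ?_
  · intro k hk s _
    rw [swept_zero]
    exact hc0 k hk
  · intro k hk s hs
    have h1 := swept_last h hs
    have h2 := hcN k hk
    omega
  · intro j hj
    exact swept_per h hj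
  · intro s hs j hj
    have := swept_j h hs hj
    omega
  · intro s hs j hj
    have := swept_s h hs hj
    omega
  · intro t ht
    unfold wsum
    rw [← Finset.sum_neg_distrib]
    refine Finset.sum_congr rfl fun u _ => ?_
    rw [← hodd]
    congr 1
    funext i
    unfold bits tm
    have e : ext N S (N + (if i.val = 0 then 0 else t (i.val - 1))) =
        (ext N S (0 + (if i.val = 0 then 0 else t (i.val - 1))))ᶜ := by
      rw [Nat.zero_add]
      apply ext_add h
      split_ifs
      · exact Nat.zero_le _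
      · exact ht _
    rw [e]
    simp
  · intro s hs t ht
    let bad : Finset P := Finset.univ.biUnion (fun i : Fin (m + 1) =>
      symmDiff (ext N S (tm s t i.val)) (ext N S (tm s t i.val + 1)))
    have hcard : bad.card ≤ 2 * (m + 1) := by
      refine Finset.card_biUnion_le.trans ?_
      have : ∀ i : Fin (m + 1),
          (symmDiff (ext N S (tm s t i.val)) (ext N S (tm s t i.val + 1))).card ≤ 2 := by
        intro i
        apply ext_step h
        unfold tm
        split_ifs
        · omega
        · have := ht (i.val - 1)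
          omega
      refine (Finset.sum_le_sum fun i _ => this i).trans ?_
      simp
      omega
    have h1 := wsum_sub (N := N) (S := S) (m := m) hφ (s := s + 1) (s' := s) (t := t) (t' := t) bad (by
      intro u hu
      funext i
      unfold bits
      have e : tm (s + 1) t i.val = tm s t i.val + 1 := by unfold tm; omega
      rw [e]
      have h2 : u ∉ symmDiff (ext N S (tm s t i.val)) (ext N S (tm s t i.val + 1)) := by
        intro h3
        exact hu (Finset.mem_biUnion.2 ⟨i, Finset.mem_univ _, h3⟩)
      rw [Finset.mem_symmDiff] at h2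
      rw [decide_eq_decide]
      tauto)
    have h2 : (bad.card : ℤ) ≤ 2 * (m + 1) := by exact_mod_cast hcard
    have h3 : 2 * A * bad.card ≤ 2 * A * (2 * (m + 1)) := mul_le_mul_of_nonneg_left h2 (by omega)
    refine h1.trans (h3.trans ?_)
    linarith
  · intro s hs t ht k hk hk0
    let bad : Finset P := symmDiff (ext N S (s + (t k - 1))) (ext N S (s + (t k - 1) + 1))
    have hcard : bad.card ≤ 2 := by
      apply ext_step h
      have := ht k
      omega
    have h1 := wsum_sub (N := N) (S := S) (m := m) hφ (s := s) (s' := s) (t := t)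
      (t' := Function.update t k (t k - 1)) bad (by
      intro u hu
      funext i
      unfold bits tm
      by_cases hi : i.val = 0
      · rw [if_pos hi, if_pos hi]
      · rw [if_neg hi, if_neg hi]
        by_cases hik : i.val - 1 = k
        · rw [hik, Function.update_self]
          have e : t k = (t k - 1) + 1 := by omega
          have h2 : u ∉ symmDiff (ext N S (s + (t k - 1))) (ext N S (s + (t k - 1) + 1)) := hu
          have e2 : s + (t k - 1) + 1 = s + t k := by omega
          rw [e2, Finset.mem_symmDiff] at h2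
          rw [decide_eq_decide]
          tauto
        · rw [Function.update_of_ne hik])
    have h2 : (bad.card : ℤ) ≤ 2 := by exact_mod_cast hcard
    have h3 : 2 * A * bad.card ≤ 2 * A * 2 := mul_le_mul_of_nonneg_left h2 (by omega)
    refine h1.trans (h3.trans ?_)
    nlinarith

end Pool.Agent.H69L.Sel
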