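import Pool.Agent.H69L.Sel3
import Pool.Agent.H93.EA.Rot

/-!
Choice of the base time in an allowable sequence: later times with prescribed swept sizes, and a
bounded sum of an odd function of the words.
-/

set_option autoImplicit false
set_option linter.unusedSectionVars false

namespace Pool.Agent.H69L.Sel

open Finset Pool.Agent.H56.EH

variable {P : Type} [Fintype P] [DecidableEq P] {N : ℕ} {S : ℕ → Finset P}
  {ι : Type} [Fintype ι] [DecidableEq ι]

/-- The times of the lines: `none` is the base. -/
def tmo (s : ℕ) (t : ι → ℕ) (o : Option ι) : ℕ := s + o.elim 0 t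

/-- The word of a point. -/
def bitso (N : ℕ) (S : ℕ → Finset P) (s : ℕ) (t : ι → ℕ) (u : P) : Option ι → Bool :=
  fun o => decide (u ∈ ext N S (tmo s t o))

/-- The sum of a function of the words. -/
def wsumo (N : ℕ) (S : ℕ → Finset P) (φ : (Option ι → Bool) → ℤ) (s : ℕ) (t : ι → ℕ) : ℤ :=
  ∑ u, φ (bitso N S s t u)

lemma wsumo_sub {φ : (Option ι → Bool) → ℤ} {A : ℤ} (hφ : ∀ w, |φ w| ≤ A)
    {s s' : ℕ} {t t' : ι → ℕ} (bad : Finset P)
    (hbad : ∀ u, u ∉ bad → bitso N S s t u = bitso N S s' t' u) :
    |wsumo N S φ s t - wsumo N S φ s' t'| ≤ 2 * A * bad.card := by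
  unfold wsumo
  rw [← Finset.sum_sub_distrib]
  have h1 : ∑ u, (φ (bitso N S s t u) - φ (bitso N S s' t' u)) =
      ∑ u ∈ bad, (φ (bitso N S s t u) - φ (bitso N S s' t' u)) := by
    symm
    refine Finset.sum_subset (Finset.subset_univ _) ?_
    intro u _ hu
    rw [hbad u hu, sub_self]
  rw [h1]
  refine (Finset.abs_sum_le_sum_abs _ _).trans ?_
  have h2 : ∀ u ∈ bad, |φ (bitso N S s t u) - φ (bitso N S s' t' u)| ≤ 2 * A := by
    intro u _
    have h3 := hφ (bitso N S s t u)
    have h4 := hφ (bitso N S s' t' u)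
    rw [abs_le] at h3 h4 ⊢
    constructor <;> omega
  refine (Finset.sum_le_sum h2).trans (le_of_eq ?_)
  rw [Finset.sum_const, nsmul_eq_mul, mul_comm]

/-- **Choice of the base line**, levels indexed by an arbitrary finite type. -/
theorem exists_base' (h : HSeq N S) (A : ℤ) (hA : 0 ≤ A) (φ : (Option ι → Bool) → ℤ)
    (hφ : ∀ w, |φ w| ≤ A) (hodd : ∀ w, φ (fun i => !w i) = - φ w) (c : ι → ℤ)
    (hc0 : ∀ k, 0 ≤ c k) (hcN : ∀ k, 2 * c k < Fintype.card P) :
    ∃ s ≤ N, ∃ t : ι → ℕ, (∀ k, t k ≤ N) ∧
      (∀ k, |swept N S s (t k) - c k| ≤ 2 * (4 * (A + 1) * (Fintype.card ι + 1))) ∧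
      |wsumo N S φ s t| ≤ 4 * (A + 1) * (Fintype.card ι + 1) := by
  classical
  set C : ℤ := 4 * (A + 1) * (Fintype.card ι + 1) with hC
  have hm0 : (0 : ℤ) ≤ Fintype.card ι := Nat.cast_nonneg _
  have hC4 : 4 ≤ C := by rw [hC]; nlinarith
  have hCA : 4 * A * (Fintype.card ι + 1) ≤ C := by rw [hC]; nlinarith
  have hCA1 : 4 * A ≤ C := by rw [hC]; nlinarith
  refine exists_small N C (by omega) (fun _ => swept N S) c (wsumo N S φ) ?_ ?_ ?_ ?_ ?_ ?_ ?_ ?_
  · intro k s _
    rw [swept_zero]
    exact hc0 k
  · intro k s hs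
    have h1 := swept_last h hs
    have h2 := hcN k
    omega
  · intro _ j hj
    exact swept_per h hj
  · intro _ s hs j hj
    have := swept_j h hs hj
    omega
  · intro _ s hs j hj
    have := swept_s h hs hj
    omega
  · intro t ht
    unfold wsumo
    rw [← Finset.sum_neg_distrib]
    refine Finset.sum_congr rfl fun u _ => ?_
    rw [← hodd]
    congr 1
    funext i
    unfold bitso tmo
    have e : ext N S (N + i.elim 0 t) = (ext N S (0 + i.elim 0 t))ᶜ := by
      rw [Nat.zero_add]
      apply ext_add h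
      cases i with
      | none => exact Nat.zero_le _
      | some i => exact ht _
    rw [e]
    simp
  · intro s hs t ht
    let bad : Finset P := Finset.univ.biUnion (fun i : Option ι =>
      symmDiff (ext N S (tmo s t i)) (ext N S (tmo s t i + 1)))
    have hcard : bad.card ≤ 2 * (Fintype.card ι + 1) := by
      refine Finset.card_biUnion_le.trans ?_
      have : ∀ i : Option ι,
          (symmDiff (ext N S (tmo s t i)) (ext N S (tmo s t i + 1))).card ≤ 2 := by
        intro i
        apply ext_step h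
        unfold tmo
        cases i with
        | none =>
          simp only [Option.elim_none]
          omega
        | some i =>
          have := ht i
          simp only [Option.elim_some]
          omega
      refine (Finset.sum_le_sum fun i _ => this i).trans ?_
      simp
      omega
    have h1 := wsumo_sub (N := N) (S := S) hφ (s := s + 1) (s' := s) (t := t) (t' := t) bad (by
      intro u hu
      funext i
      unfold bitso
      have e : tmo (s + 1) t i = tmo s t i + 1 := by unfold tmo; omega
      rw [e]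
      have h2 : u ∉ symmDiff (ext N S (tmo s t i)) (ext N S (tmo s t i + 1)) := by
        intro h3
        exact hu (Finset.mem_biUnion.2 ⟨i, Finset.mem_univ _, h3⟩)
      rw [Finset.mem_symmDiff] at h2
      rw [decide_eq_decide]
      tauto)
    have h2 : (bad.card : ℤ) ≤ 2 * (Fintype.card ι + 1) := by exact_mod_cast hcard
    have h3 : 2 * A * bad.card ≤ 2 * A * (2 * (Fintype.card ι + 1)) :=
      mul_le_mul_of_nonneg_left h2 (by omega)
    refine h1.trans (h3.trans ?_)
    linarith
  · intro s hs t ht k hk0 t' ht' htk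
    let bad : Finset P := symmDiff (ext N S (s + (t k - 1))) (ext N S (s + (t k - 1) + 1))
    have hcard : bad.card ≤ 2 := by
      apply ext_step h
      have := ht k
      omega
    have h1 := wsumo_sub (N := N) (S := S) hφ (s := s) (s' := s) (t := t)
      (t' := t') bad (by
      intro u hu
      funext i
      unfold bitso tmo
      cases i with
      | none => rfl
      | some i =>
        simp only [Option.elim_some]
        by_cases hik : i = k
        · subst hik
          simp only [htk]
          have e2 : s + (t i - 1) + 1 = s + t i := by omega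
          have h2 : u ∉ symmDiff (ext N S (s + (t i - 1))) (ext N S (s + (t i - 1) + 1)) := hu
          rw [e2, Finset.mem_symmDiff] at h2
          rw [decide_eq_decide]
          tauto
        · simp only [ht' i hik]
          rfl)
    have h2 : (bad.card : ℤ) ≤ 2 := by exact_mod_cast hcard
    have h3 : 2 * A * bad.card ≤ 2 * A * 2 := mul_le_mul_of_nonneg_left h2 (by omega)
    refine h1.trans (h3.trans ?_)
    linarith

/-! ### Allowable sequences -/

open Pool.Agent.H93.EA in
/-- The halving prefixes of an allowable sequence. -/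
theorem hseq {ρ : ℕ → P → ℕ} (h : ASeq N ρ) {m : ℕ} (hm : Fintype.card P = 2 * m) :
    HSeq N (fun t => pre ρ t m) := by
  refine ⟨?_, ?_, ?_, ?_⟩
  · intro t ht
    rw [card_pre h ht (by omega)]
    omega
  · intro t ht
    rcases exch h ht (j := m) (by omega) with he | ⟨a, b, ha, hb, hb', ha', he⟩
    · rw [he, symmDiff_self]
      simp
    · rw [he]
      refine (Finset.card_le_card (t := {a, b}) ?_).trans (Finset.card_le_two)
      intro x hx
      rw [Finset.mem_symmDiff, Finset.mem_insert, Finset.mem_erase] at hx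
      rw [Finset.mem_insert, Finset.mem_singleton]
      tauto
  · have := pre_N h (j := m) (by omega)
    rw [this]
    congr 2
    omega
  · intro u v
    rcases lt_trichotomy (ρ 0 u) (ρ 0 v) with h1 | h1 | h1
    · obtain ⟨θ, hθ, h2⟩ := h.once u v h1
      refine ⟨θ + 1, Or.inl ⟨?_, ?_⟩⟩
      · rintro t ht hts ⟨h3, h4⟩
        rw [mem_pre] at h3 h4
        have := (h2 t ht).1 (by omega)
        omega
      · rintro t ht hts ⟨h3, h4⟩
        rw [mem_pre] at h3 h4
        have := (h2 t ht).2 (by omega)
        omega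
    · have e : u = v := h.inj 0 (Nat.zero_le _) h1
      subst e
      refine ⟨0, Or.inl ⟨?_, ?_⟩⟩
      · rintro t ht hts ⟨h3, h4⟩
        exact h3 h4
      · rintro t ht hts ⟨h3, h4⟩
        exact h4 h3
    · obtain ⟨θ, hθ, h2⟩ := h.once v u h1
      refine ⟨θ + 1, Or.inr ⟨?_, ?_⟩⟩
      · rintro t ht hts ⟨h3, h4⟩
        rw [mem_pre] at h3 h4
        have := (h2 t ht).1 (by omega)
        omega
      · rintro t ht hts ⟨h3, h4⟩
        rw [mem_pre] at h3 h4
        have := (h2 t ht).2 (by omega)
        omega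

open Pool.Agent.H93.EA in
lemma ext_pre {ρ : ℕ → P → ℕ} (h : ASeq N ρ) {m : ℕ} (hm : Fintype.card P = 2 * m) {u : ℕ}
    (hu : u ≤ 2 * N) :
    ext N (fun t => pre ρ t m) u = pre (Pool.Agent.H93.EA.ext N ρ) u m := by
  unfold ext
  split_ifs with h1
  · ext a
    rw [mem_pre, mem_pre, ext_le h1]
  · ext a
    rw [Finset.mem_compl, mem_pre, mem_pre, ext_gt (by omega)]
    have := h.lt_card (u - N) (by omega) a
    omega

/-- The odd function of helper93's board: words `(1, 0, 1)` minus words `(0, 1, 0)`. -/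
def phiJ (J : Finset (ι × ι)) (w : Option ι → Bool) : ℤ :=
  ∑ q ∈ J, ((if w none = true ∧ w (some q.1) = false ∧ w (some q.2) = true then 1 else 0) -
    (if w none = false ∧ w (some q.1) = true ∧ w (some q.2) = false then 1 else 0))

lemma phiJ_le (J : Finset (ι × ι)) (w : Option ι → Bool) : |phiJ J w| ≤ J.card := by
  unfold phiJ
  refine (Finset.abs_sum_le_sum_abs _ _).trans ?_
  refine (Finset.sum_le_sum (g := fun _ => (1 : ℤ)) ?_).trans (by simp)
  intro q _
  rw [abs_le]
  constructor <;> split_ifs <;> omega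

lemma phiJ_odd (J : Finset (ι × ι)) (w : Option ι → Bool) : phiJ J (fun i => !w i) = - phiJ J w := by
  unfold phiJ
  rw [← Finset.sum_neg_distrib]
  refine Finset.sum_congr rfl fun q _ => ?_
  simp only [Bool.not_eq_true', Bool.not_eq_false']
  omega

open Pool.Agent.H93.EA in
/-- **Choice of the base time of an allowable sequence.** -/
theorem exists_base_aseq {ρ : ℕ → P → ℕ} (h : ASeq N ρ) {m : ℕ} (hm : Fintype.card P = 2 * m)
    (c : ι → ℕ) (hc : ∀ i, c i < m) (J : Finset (ι × ι)) :
    ∃ s ≤ N, ∃ τ : ι → ℕ, (∀ i, τ i ≤ N) ∧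
      (∀ i, |(((pre (fun t a => Pool.Agent.H93.EA.ext N ρ (s + t) a) 0 m) \
        (pre (fun t a => Pool.Agent.H93.EA.ext N ρ (s + t) a) (τ i) m)).card : ℤ) - c i| ≤
          8 * ((J.card : ℤ) + 1) * (Fintype.card ι + 1)) ∧
      |∑ q ∈ J, (((((pre (fun t a => Pool.Agent.H93.EA.ext N ρ (s + t) a) 0 m) \
        (pre (fun t a => Pool.Agent.H93.EA.ext N ρ (s + t) a) (τ q.1) m)) ∩
        (pre (fun t a => Pool.Agent.H93.EA.ext N ρ (s + t) a) (τ q.2) m)).card : ℤ) -
        ((((pre (fun t a => Pool.Agent.H93.EA.ext N ρ (s + t) a) 0 m)ᶜ ∩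
        (pre (fun t a => Pool.Agent.H93.EA.ext N ρ (s + t) a) (τ q.1) m)) \
        (pre (fun t a => Pool.Agent.H93.EA.ext N ρ (s + t) a) (τ q.2) m)).card : ℤ))| ≤
          4 * ((J.card : ℤ) + 1) * (Fintype.card ι + 1) := by
  classical
  obtain ⟨s, hs, τ, hτ, h1, h2⟩ := exists_base' (hseq h hm) (J.card : ℤ) (Nat.cast_nonneg _)
    (phiJ J) (phiJ_le J) (phiJ_odd J) (fun i => (c i : ℤ)) (fun i => Nat.cast_nonneg _)
    (fun i => by have := hc i; rw [hm]; push_cast; omega)
  have e0 : ∀ j : ℕ, j ≤ N → ext N (fun t => pre ρ t m) (s + j) =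
      pre (fun t a => Pool.Agent.H93.EA.ext N ρ (s + t) a) j m := by
    intro j hj
    rw [ext_pre h hm (by omega)]
    rfl
  have e2 : ∀ o : Option ι, o.elim 0 τ ≤ N := by
    intro o
    cases o with
    | none => exact Nat.zero_le _
    | some i => exact hτ i
  refine ⟨s, hs, τ, hτ, ?_, ?_⟩
  · intro i
    have h3 := h1 i
    unfold swept at h3
    have e1 := e0 0 (Nat.zero_le _)
    rw [Nat.add_zero] at e1
    rw [e1, e0 _ (hτ i)] at h3
    refine h3.trans (le_of_eq ?_)
    ring
  · refine le_of_eq_of_le ?_ h2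
    congr 1
    unfold wsumo phiJ
    rw [Finset.sum_comm]
    refine Finset.sum_congr rfl fun q _ => ?_
    rw [Finset.sum_sub_distrib]
    have hb : ∀ (u : P) (o : Option ι), (bitso N (fun t => pre ρ t m) s τ u o = true ↔
        u ∈ pre (fun t a => Pool.Agent.H93.EA.ext N ρ (s + t) a) (o.elim 0 τ) m) := by
      intro u o
      unfold bitso tmo
      rw [decide_eq_true_iff, e0 _ (e2 o)]
    have hb' : ∀ (u : P) (o : Option ι), (bitso N (fun t => pre ρ t m) s τ u o = false ↔
        u ∉ pre (fun t a => Pool.Agent.H93.EA.ext N ρ (s + t) a) (o.elim 0 τ) m) := by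
      intro u o
      unfold bitso tmo
      rw [decide_eq_false_iff_not, e0 _ (e2 o)]
    congr 1
    · rw [← Finset.sum_filter, Finset.sum_const, nsmul_eq_mul, mul_one]
      congr 2
      ext u
      simp only [Finset.mem_inter, Finset.mem_sdiff, Finset.mem_filter, Finset.mem_univ, true_and,
        hb, hb', Option.elim_none, Option.elim_some]
      tauto
    · rw [← Finset.sum_filter, Finset.sum_const, nsmul_eq_mul, mul_one]
      congr 2
      ext u
      simp only [Finset.mem_inter, Finset.mem_sdiff, Finset.mem_filter, Finset.mem_univ, true_and,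
        hb, hb', Option.elim_none, Option.elim_some, Finset.mem_compl]
      tauto

end Pool.Agent.H69L.Sel
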